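import Pool.Agent.Lib.MP_0bc52e_nt.T.Defs

/-!
# Statements, part N: for a prime `p ≥ 163` the criterion implies that `P` is hollow

`Pool.Agent.Lib.MP_0bc52e_nt.T.Defs` and `LC.Defs` contain the definitions. `[x]` refers to the statement `S_x` of this
file; a piece may take any other `S_y` as a hypothesis: `theorem p_x (h_y : S_y) : S_x`. Write `N = p - m h` etc. for the dilates. `0 : ℝ × ℝ × ℝ` is the origin.
-/

open scoped Pointwise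

namespace Pool.Agent.Lib.MP_0bc52e_nt.T

open Pool.Agent.Lib.MP_0bc52e_nt.LC

/-! ## A. Frames -/

/-- [fr1] Frames form a group, preserve integrality and convex combinations. Proof. `f v = O + M v` with `M` an integer matrix, `det M = ±1`; the inverse is `v ↦ M⁻¹ v - M⁻¹ O` with `M⁻¹ = ± adj M`
(write its entries explicitly: the columns of `adj M` come from the vector products `cr b c`, `cr c a`, `cr a b`). The composition has columns `M a', M b', M c'` and determinant the product (`ring`). -/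
def S_fr1 : Prop :=
  (∀ f, IsFr f → ∃ g, IsFr g ∧ (∀ v, g (f v) = v) ∧ (∀ v, f (g v) = v)) ∧
  (∀ f g, IsFr f → IsFr g → IsFr (fun v => f (g v))) ∧
  (∀ f, IsFr f → ∀ v : ℤ × ℤ × ℤ, ∃ w : ℤ × ℤ × ℤ, f (ip v) = ip w) ∧
  (∀ f, IsFr f → ∀ (u v : ℝ × ℝ × ℝ) (s : ℝ), f ((1 - s) • u + s • v) = (1 - s) • f u + s • f v)

/-- [fr2] Frames transport everything. Proof. By [fr1]. Convex: clear. Integer polytope: `f ⁻¹' (conv V) = g '' (conv V) = conv (g '' V)` for the inverse `g` (an affine map). Classes modulo `2`: for `(a, b, c)` take an integer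
point of `P` congruent to `f (a, b, c)` and apply `g`. Criterion: if `o` is the class for `P` and `f v = O + M v`, take `o' = M⁻¹ (o - O)` (integer): if `q' = h v'` is an integer point, `v' ∈ f ⁻¹' P`, `q' ≡ h o'`, then
`q = h f(v') = h O + M q'` is an integer point of `h P` and `q ≡ h O + h M o' = h o`. Inner points: directions correspond under the linear part. `ZEq`: the affine equivalence given by `f`; transitivity of `ZEq`. -/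
def S_fr2 : Prop := ∀ f, IsFr f → ∀ P : Set (ℝ × ℝ × ℝ),
  (Convex ℝ P → Convex ℝ (f ⁻¹' P)) ∧ (IsLP3 P → IsLP3 (f ⁻¹' P)) ∧ (PC3 P → PC3 (f ⁻¹' P)) ∧
  (∀ p : ℕ, Cr P p → Cr (f ⁻¹' P) p) ∧ (∀ v, Inn (f ⁻¹' P) v ↔ Inn P (f v)) ∧ (Hollow P → Hollow (f ⁻¹' P)) ∧
  (∀ P' : Set (ℝ × ℝ × ℝ), ZEq (f ⁻¹' P) P' → ZEq P P')

/-- [prim] Every nonzero integer vector is a positive multiple of the last vector of a basis. Proof. Let `k = gcd` of the coordinates, `n = k c`, `c = (c₁, c₂, c₃)` primitive. If `c₁ = c₂ = 0`, then `c₃ = ±1`, `a = (1, 0, 0)`,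
`b = (0, c₃, 0)`. Otherwise `d = gcd(c₁, c₂) > 0`, `c₁ = d x`, `c₂ = d y`, `u x + v y = 1`, `r d + s c₃ = 1`. Put `b₁ = (-v, u, 0)`, `a₁ = (-s x, -s y, r)`; then `det3 b₁ a₁ c = ± (r d + s c₃) = ± 1`; change the sign of `b₁` if necessary. -/
def S_prim : Prop := ∀ n : ℤ × ℤ × ℤ, n ≠ 0 → ∃ (a b c : ℤ × ℤ × ℤ) (k : ℤ), 0 < k ∧ det3 a b c = 1 ∧ n = k • c

/-- [pln] A basis adapted to the plane of `s` and `t`. Proof. By [prim] for `n = cr s t`: `n = k c'`, `det3 a' b' c' = 1`, `k > 0`. Take the dual basis `a = cr b' c'`, `b = cr c' a'`, `c = cr a' b'`; `det3 a b c = (det3 a' b' c')² = 1`. For every vector `v` we have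
`v = ⟨v, a'⟩ a + ⟨v, b'⟩ b + ⟨v, c'⟩ c`; as `⟨s, n⟩ = ⟨t, n⟩ = 0`, `s = s₁ a + s₂ b`, `t = t₁ a + t₂ b`. Then `cr s t = (s₁ t₂ - s₂ t₁) cr a b` and `cr a b = c'` (for the dual basis), so `s₁ t₂ - s₂ t₁ = k > 0`. -/
def S_pln : Prop := ∀ s t : ℤ × ℤ × ℤ, cr s t ≠ 0 → ∃ (a b c : ℤ × ℤ × ℤ) (s₁ s₂ t₁ t₂ : ℤ),
  det3 a b c = 1 ∧ 0 < s₁ * t₂ - s₂ * t₁ ∧ s = s₁ • a + s₂ • b ∧ t = t₁ • a + t₂ • b

/-- [sides] Proof. `P` is the hull of the points of a finite set `V`; if all of them had `z ≤ 0`, then all points of `P` would (`convexHull_min`); an integer `z > 0` is `≥ 1`. -/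
def S_sides : Prop := ∀ P : Set (ℝ × ℝ × ℝ), IsLP3 P → (∃ v ∈ P, 0 < v.2.2) → ∃ v : ℤ × ℤ × ℤ, ip v ∈ P ∧ 1 ≤ v.2.2

/-! ## B. A planar section with inner points -/

/-- [short] Proof. Let `R = p / 18 ≥ 9` (integer division), so `18 R ≤ p ≤ 18 R + 17`. The integer points `(h, k)` with `|h| + |k| ≤ R` are `R² + (R + 1)²` in number (injective parametrisations: `(i + j - R, i - j)`, `0 ≤ i, j ≤ R`, and `(i + j - R + 1, i - j)`, `0 ≤ i, j ≤ R - 1`;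
the parity of `h + k` tells them apart), and `R² + (R + 1)² > 18 R + 17 ≥ p` for `R ≥ 9`. By the pigeonhole principle for `(h, k) ↦ k - h r` modulo `p` the difference `(h, k) ≠ 0` of two of them satisfies `p ∣ k - h r` and
`9 (|h| + |k|) ≤ 18 R ≤ p`. If `h = 0`, then `p ∣ k`, `|k| < p`, so `k = 0`, impossible. Change signs so that `h > 0`. -/
def S_short : Prop := ∀ (p : ℕ) (r : ℤ), 163 ≤ p → ∃ h : ℕ, 0 < h ∧ ∃ k : ℤ, 9 * ((h : ℤ) + |k|) ≤ p ∧ (p : ℤ) ∣ k - h * r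

/-- [holeW] The holes between the translates of `r • W` are triangles around `±(1/3, -1/3)`. Proof. Let `x = i₀ + f`, `y = j₀ + g` with `0 ≤ f, g < 1`. Case `f ≤ g`: take `σ = 1`, `i = i₀`, `j = j₀ + 1`, so `v = (f - 1/3, g - 2/3)`. The three claims are
`f + g > r`, `f - 2g + 2 > r`, `g - 2f + 1 > r`. From the hypothesis at `(i₀, j₀)`: one of `f + g > r`, `f - 2g > r`, `g - 2f > r`, each of which implies `f + g > r`. At `(i₀, j₀ + 1)`: one of `f + g - 1 > r`, `f - 2g + 2 > r`, `g - 1 - 2f > r`, each implies `f - 2g + 2 > r`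
(`f - 2g + 2 ≥ f + g - 1` iff `3g ≤ 3`; `f - 2g + 2 ≥ g - 1 - 2f`). At `(i₀ + 1, j₀ + 1)`: one of `f + g - 2 > r`, `f - 2g + 1 > r`, `g - 2f + 1 > r`, each implies `g - 2f + 1 > r` (use `f ≤ g`). Case `g < f`: symmetric (exchange the coordinates and `σ`): `σ = -1`, `i = i₀ + 1`,
`j = j₀`, `v = (f - 2/3, g - 1/3)`, translates `(i₀, j₀)`, `(i₀ + 1, j₀)`, `(i₀ + 1, j₀ + 1)`. All by `linarith`. -/
def S_holeW : Prop := ∀ x y r : ℝ, (∀ i j : ℤ, ¬ inW (x - i) (y - j) r) →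
  ∃ i j σ : ℤ, (σ = 1 ∨ σ = -1) ∧ ∃ v₁ v₂ : ℝ, x = i + σ / 3 + v₁ ∧ y = j - σ / 3 + v₂ ∧
    -v₁ - v₂ < 1 - r ∧ 2 * v₂ - v₁ < 1 - r ∧ 2 * v₁ - v₂ < 1 - r

/-- [holeD] Proof. `x = i + f`, `y = j + g`, `0 ≤ f, g < 1`, `v = (f - 1/2, g - 1/2)`. From the four translates `(i, j), (i + 1, j), (i, j + 1), (i + 1, j + 1)`: `f + g > r`, `1 - f + g > r`, `f + 1 - g > r`, `2 - f - g > r`, which is the claim. -/
def S_holeD : Prop := ∀ x y r : ℝ, (∀ i j : ℤ, ¬ |x - i| + |y - j| ≤ r) →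
  ∃ i j : ℤ, ∃ v₁ v₂ : ℝ, x = i + 1 / 2 + v₁ ∧ y = j + 1 / 2 + v₂ ∧ |v₁| + |v₂| < 1 - r

/-- [holeT] Proof. `x = i₀ + f`, `y = j₀ + g`, `0 ≤ f, g < 1`. Case `g > r`: take `i = i₀`, `j = j₀ + 1`, `v = (f - 1/2, g - 1)`: `-v₂ = 1 - g < 1 - r`; the translates `(i₀, j₀ + 1)`, `(i₀ + 1, j₀ + 1)` give `2f - g + 1 > r`, `2(1 - f) - g + 1 > r` (if the first condition `g - 1 > r` fails to hold
it is the second one; if `g - 1 > r`, then `r < 0` and the claims are clear), i.e. `2|v₁| + v₂ < 1 - r`. Case `g ≤ r`: the translates `(i₀, j₀)`, `(i₀ + 1, j₀)` give `2f - g > r`, `2(1 - f) - g > r` (note `|·|` of the smaller one); the sum gives `r < 1 - g`. Take `i = i₀`, `j = j₀`, `v = (f - 1/2, g)`: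
`-v₂ ≤ 0 < 1 - r`, `2|v₁| + v₂ < 1 - r`. -/
def S_holeT : Prop := ∀ x y r : ℝ, (∀ i j : ℤ, ¬ (y - j ≤ r ∧ 2 * |x - i| - (y - j) ≤ r)) →
  ∃ i j : ℤ, ∃ v₁ v₂ : ℝ, x = i + 1 / 2 + v₁ ∧ y = j + v₂ ∧ -v₂ < 1 - r ∧ 2 * |v₁| + v₂ < 1 - r

/-- [PLW] Uses [short], [holeW]. Proof. Let `(a, b, c)` be the class. By [short] (`r = c`) there are `h > 0`, `k` with `9 s ≤ p`, `s = h + |k|`, `p ∣ k - h c`. Let `κ = |k|` and let `(X, Y, e)` be the given point with `e = -1` if `k ≥ 0` and `e = 1` if `k < 0`, so `κ e = -k`. Put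
`x = (-h a - κ X) / p`, `y = (-h b - κ Y) / p`. Claim: for `m = 1, 3` and integers `i, j` the point `(m x - i, m y - j)` is not in `(1 - m s / p) • W`. Otherwise let `N = p - m h` (`0 < N < p`) and `q = (-m h a - p i, -m h b - p j, -m k)`, an integer point with `q ≡ N (a, b, c)` modulo `p`
(third coordinate: `-m k - (p - m h) c = -m (k - h c) - p c`). And `q ∈ N P`: `q = m κ (X, Y, e) + (N - m κ) (w₁, w₂, 0)` with `N - m κ = p - m s > 0` and `(w₁, w₂) = (p / (p - m s)) (m x - i, m y - j) ∈ W` (its coordinates satisfy `inW w₁ w₂ 1`; the triangle `inW · · 1` is the hull of its vertices: weights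
`(1 + 2 w₁ - w₂)/3, (1 + 2 w₂ - w₁)/3, (1 - w₁ - w₂)/3` at `(1, 0), (0, 1), (-1, -1)`). This contradicts the criterion. Now apply [holeW] with `r = 1 - s / p`: `x = i + σ/3 + v₁`, `y = j - σ/3 + v₂`, `-v₁ - v₂, 2 v₂ - v₁, 2 v₁ - v₂ < s/p`. Then
`(3 x - (3 i + σ), 3 y - (3 j - σ)) = (3 v₁, 3 v₂)` is in `(1 - 3 s/p) W`: e.g. `3 v₁ + 3 v₂ = 3 (2 v₂ - v₁) + 3 (2 v₁ - v₂) < 6 s / p ≤ 1 - 3 s / p` because `9 s ≤ p`; `3 v₁ - 6 v₂ = 3 (2 v₁ - v₂) + 3 (-v₁ - v₂) < 6 s/p`; `3 v₂ - 6 v₁` likewise. This contradicts the claim for `m = 3`. -/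
def S_PLW : Prop := ∀ (P : Set (ℝ × ℝ × ℝ)) (p : ℕ) (x₁ y₁ x₂ y₂ : ℝ), Convex ℝ P → 163 ≤ p → Cr P p →
  ((1 : ℝ), (0 : ℝ), (0 : ℝ)) ∈ P → ((0 : ℝ), (1 : ℝ), (0 : ℝ)) ∈ P → ((-1 : ℝ), (-1 : ℝ), (0 : ℝ)) ∈ P →
  (x₁, y₁, (1 : ℝ)) ∈ P → (x₂, y₂, (-1 : ℝ)) ∈ P → False

/-- [PLD] Uses [short], [holeD]. Proof: as [PLW] with `m = 1, 2` and the square `|w₁| + |w₂| ≤ 1` (hull of the four points). From [holeD]: `(2 x - (2 i + 1), 2 y - (2 j + 1)) = (2 v₁, 2 v₂)`, `|2 v₁| + |2 v₂| < 2 s/p ≤ 1 - 2 s/p` because `4 s ≤ p`. -/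
def S_PLD : Prop := ∀ (P : Set (ℝ × ℝ × ℝ)) (p : ℕ) (x₁ y₁ x₂ y₂ : ℝ), Convex ℝ P → 163 ≤ p → Cr P p →
  ((1 : ℝ), (0 : ℝ), (0 : ℝ)) ∈ P → ((-1 : ℝ), (0 : ℝ), (0 : ℝ)) ∈ P → ((0 : ℝ), (1 : ℝ), (0 : ℝ)) ∈ P → ((0 : ℝ), (-1 : ℝ), (0 : ℝ)) ∈ P →
  (x₁, y₁, (1 : ℝ)) ∈ P → (x₂, y₂, (-1 : ℝ)) ∈ P → False

/-- [PLT] Uses [short], [holeT]. Proof: as [PLW] with `m = 1, 2` and the triangle `w₂ ≤ 1`, `2 |w₁| - w₂ ≤ 1` (hull of the three points). From [holeT]: `(2 x - (2 i + 1), 2 y - 2 j) = (2 v₁, 2 v₂)`; `v₂ < s/p` and `-v₂ < s/p`, `2 |v₁| < s/p - v₂`, so `2 v₂ < 2 s/p ≤ 1 - 2 s/p` and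
`2 |2 v₁| - 2 v₂ < 2 s/p - 4 v₂ < 6 s/p ≤ 1 - 2 s/p` because `8 s ≤ p`. -/
def S_PLT : Prop := ∀ (P : Set (ℝ × ℝ × ℝ)) (p : ℕ) (x₁ y₁ x₂ y₂ : ℝ), Convex ℝ P → 163 ≤ p → Cr P p →
  ((1 : ℝ), (1 : ℝ), (0 : ℝ)) ∈ P → ((-1 : ℝ), (1 : ℝ), (0 : ℝ)) ∈ P → ((0 : ℝ), (-1 : ℝ), (0 : ℝ)) ∈ P →
  (x₁, y₁, (1 : ℝ)) ∈ P → (x₂, y₂, (-1 : ℝ)) ∈ P → False

/-- [emp2] A triangle `0 A B` with determinant at least `2` contains another integer point. Proof. Let `d = det2 A B ≥ 2`. For an integer point `X` let `s = det2 X B`, `t = det2 A X`, so `d X = s A + t B`. For `X₀ = (1, 0)` or `(0, 1)` not both `s, t` are divisible by `d` (otherwise both unit vectors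
would be integer combinations of `A, B` and `d` would divide `1`: with `(1,0) = s₁ A + t₁ B`, `(0, 1) = s₂ A + t₂ B`, `1 = (s₁ t₂ - s₂ t₁) d`). Replace `X₀` by `X = X₀ - (s / d) A - (t / d) B` (floor division): now `0 ≤ s, t < d` and `(s, t) ≠ (0, 0)`, so `X ≠ 0`, `X ≠ A` (`s = d`), `X ≠ B`.
If `s + t ≤ d`, done. Otherwise take `A + B - X`, with `(d - s, d - t)`; here `s, t > 0` because `s + t > d`. -/
def S_emp2 : Prop := ∀ A B : ℤ × ℤ, 2 ≤ det2 A B → ∃ X : ℤ × ℤ, X ≠ 0 ∧ X ≠ A ∧ X ≠ B ∧ 0 ≤ det2 X B ∧ 0 ≤ det2 A X ∧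
  det2 X B + det2 A X ≤ det2 A B

/-- [J1] Proof. Apply a translation and a unimodular map (Bezout: `t = k t₀`, `t₀` primitive, `O ± t₀ ∈ Q` by convexity; `t₀` becomes `(1, 0)`): `O = 0`, `(±1, 0) ∈ Q`, `C = (c₁, c₂)`, `c₂ > 0`, `D = (d₁, d₂)`, `d₂ < 0`. If `c₂ ≥ 2`, the triangle `(-1, 0), (1, 0), C` has at height `1` a horizontal chord of
length `2 (1 - 1/c₂) ≥ 1`, which contains an integer point; so we may assume `c₂ = 1`, and similarly `d₂ = -1`. By a shear `(x, y) ↦ (x - c₁ y, y)` we get `C = (0, 1)`, `D = (w, -1)`, and by the reflection `x ↦ -x` also `w ≥ 0`. `w = 0`: `D4`. `w = 2 m + 1` odd: the points `(m - 1, 0), (0, 1), (w, -1)` with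
centre `(m, 0)`: `(m - 1, 0) ∈ Q` (it is between `(-1, 0)` and `(w/2, 0)`, the midpoint of `C` and `D`), and relative to `(m, 0)` they are `(-1, 0), (-m, 1), (m + 1, -1)`, of sum `0` and `det2 (-1, 0) (m + 1, -1) = 1`; an affine map takes them to the vertices of `W`: `v ↦ (det2 v B, det2 A v)`
for two of them `A, B` with `det2 A B = 1`. `w = 2 m` even, `m ≥ 1`: the points `(m - 2, 0), (m, 0), (0, 1), (2 m, -1)` of `Q`, centre `(m - 1, 0)`; relative: `(-1, 0), (1, 0), (1 - m, 1), (m + 1, -1)`; shear `x ↦ x + (m - 1) y`: `(-1, 0), (1, 0), (0, 1), (2, -1)`; the map with `(-1, 0) ↦ (0, -1)`,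
`(0, 1) ↦ (1, 1)` takes `(2, -1)` to `(-1, 1)`: `T4`. -/
def S_J1 : Prop := ∀ (Q : Set (ℝ × ℝ)) (O t C D : ℤ × ℤ), Convex ℝ Q → ip2 (O + t) ∈ Q → ip2 (O - t) ∈ Q → ip2 C ∈ Q → ip2 D ∈ Q →
  0 < det2 t (C - O) → det2 t (D - O) < 0 → ∃ g, IsUM g ∧ (W3 (g '' Q) ∨ D4 (g '' Q) ∨ T4 (g '' Q))

/-- [J2] Uses [J1], [emp2]. Proof. The second alternative of `J` is [J1]. First alternative: strong induction on `S = det2 A B + det2 B C + det2 C A > 0` (write `A, B, C` for `A - O, B - O, C - O`; `O` itself stays fixed in the induction). If all three determinants are `1`, then `C = -A - B` (`det2 A B • C = -(det2 B C) • A - (det2 C A) • B`, `ring`) and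
`g v = (det2 v B, det2 A v)` (after the translation by `-O`) gives `W3`. Otherwise, by the cyclic symmetry of `A, B, C`, let `d = det2 A B ≥ 2`; put `β = det2 B C > 0`, `γ = det2 C A > 0`. By [emp2] there is an integer point `X ≠ 0, A, B` with `s = det2 X B ≥ 0`, `t = det2 A X ≥ 0`, `s + t ≤ d`, `d X = s A + t B`; `X ∈ Q` (weights `s/d, t/d, 1 - (s+t)/d` at `A, B, 0`, and `0 ∈ Q` because `d C + β A + γ B = 0`).
`s < d` (if `s = d` then `t = 0`, `X = A`) and `t < d`. `d · det2 X C = t β - s γ`. (i) `det2 X C > 0`: then `t > 0`, and `A, X, C` have `det2 A X = t > 0`, `det2 X C > 0`, `det2 C A > 0`, with the smaller sum `t + (t β - s γ)/d + γ < d + β + γ` (multiply by `d`: `(t - d) d + (t - d) β - s γ < 0`). (ii) `det2 X C < 0`: then `s > 0`, and `X, B, C` have `det2 X B = s > 0`,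
`det2 B C > 0`, `det2 C X > 0`, with the smaller sum `s + β + (s γ - t β)/d`. (iii) `det2 X C = 0`, i.e. `t β = s γ`; as `(s, t) ≠ 0`, both `s, t > 0`. `X` and `C` are opposite: `d C = -(β A + γ B)` is a negative multiple of `d X = s A + t B`. Let `X = l t₀` with `l > 0` and `t₀` primitive; `C = -k t₀` with an integer `k > 0`; `O ± t₀ ∈ Q` by convexity, `det2 t₀ B > 0`, `det2 t₀ A < 0`: [J1]. -/
def S_J2 : Prop := ∀ Q : Set (ℝ × ℝ), Convex ℝ Q → J Q → ∃ g, IsUM g ∧ (W3 (g '' Q) ∨ D4 (g '' Q) ∨ T4 (g '' Q))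

/-- [PL3] Uses [J2], [PLW], [PLD], [PLT], [fr1], [fr2]. Proof. Let `Q = {v | (v.1, v.2, 0) ∈ P}`, convex; take `g` from [J2] and let `f` be the frame that acts by the inverse of `g` on the first two coordinates and fixes the third, `P' = f ⁻¹' P`: it satisfies the criterion, and
`(w.1, w.2, 0) ∈ P'` iff `w ∈ g '' Q`. The points of `P` with `z ≥ 1` and `z ≤ -1` give such points of `P'`; the segments from them to the point `(0, 0, 0) ∈ P'` (the origin is in the hull of the points of `W3`, `D4` or `T4`: `(1, 1), (-1, 1), (0, -1)` with weights `1/4, 1/4, 1/2`) contain points with `z = 1` and `z = -1`. Apply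
[PLW], [PLD] or [PLT]. -/
def S_PL3 : Prop := ∀ (P : Set (ℝ × ℝ × ℝ)) (p : ℕ), Convex ℝ P → 163 ≤ p → Cr P p →
  J {v : ℝ × ℝ | (v.1, v.2, (0 : ℝ)) ∈ P} → (∃ u ∈ P, 1 ≤ u.2.2) → (∃ u ∈ P, u.2.2 ≤ -1) → False

/-- [B] Uses [pln], [PL3], [sides], [fr2]. Proof. Let `r, s, t` be the three points. [pln] for `r, s` gives `a, b, c` with `det3 a b c = 1`, `r = r₁ a + r₂ b`, `s = s₁ a + s₂ b`, `r₁ s₂ - r₂ s₁ > 0`. `f = fr 0 a b c` is a frame, `P' = f ⁻¹' P`. `t = -(α r + β s)/γ` is in the plane of `a, b`, hence `t = t₁ a + t₂ b` with integers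
(the coordinates of an integer vector in the basis `a, b, c` are integers: [fr1]). `P'` contains `(r₁, r₂, 0), (s₁, s₂, 0), (t₁, t₂, 0)`, `α (r₁, r₂) + β (s₁, s₂) + γ (t₁, t₂) = 0`, so `det2 s t = (α/γ) det2 r s > 0`, `det2 t r = (β/γ) det2 r s > 0` and the section of `P'` satisfies `J` (first alternative with `O = 0`).
`Inn P' 0` ([fr2]) with `d = (0, 0, ±1)` gives points of `P'` with `z > 0` and `z < 0`, so by [sides] (applied to `P'` and to its mirror image) points with `z ≥ 1` and with `z ≤ -1`. [PL3] applies. -/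
def S_B : Prop := ∀ (P : Set (ℝ × ℝ × ℝ)) (p : ℕ), IsLP3 P → 163 ≤ p → Cr P p → Inn P 0 → Tri3 P → False

/-- [NoOpp] Uses [pln], [PL3], [sides], [fr2]. Proof. As in [B], with [pln] for `t, s`: `t = t₁ a + t₂ b`, `s = s₁ a + s₂ b`, `det2 t s > 0`; `s' = (γ t - α s)/β` is in the same plane, with integer coordinates, `det2 t s' = -(α/β) det2 t s < 0`. So the section of `P'` satisfies `J` (second alternative with `O = 0`). -/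
def S_NoOpp : Prop := ∀ (P : Set (ℝ × ℝ × ℝ)) (p : ℕ), IsLP3 P → 163 ≤ p → Cr P p → Inn P 0 → ∀ t s s' : ℤ × ℤ × ℤ, ∀ α β γ : ℝ,
  ip t ∈ P → ip (-t) ∈ P → ip s ∈ P → ip s' ∈ P → cr t s ≠ 0 → 0 < α → 0 < β → α • ip s + β • ip s' = γ • ip t → False

/-! ## C. Opposite points -/

/-- [ML] Minkowski's theorem on linear forms (`n = 3`). Proof. `K = {x | ∀ i, |∑ j, M i j * x j| ≤ c}` is convex and symmetric, the preimage of the cube `[-c, c]³` under the linear map `M`, so its volume is `(2c)³/|det M| > 8` (`MeasureTheory.Measure.addHaar_preimage_linearMap`, `Real.volume_Icc_pi`);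
`MeasureTheory.exists_ne_zero_mem_lattice_of_measure_mul_two_pow_lt_measure` for the lattice of integer vectors as in `LC/P/mink.lean`. -/
def S_ML : Prop := ∀ (M : Matrix (Fin 3) (Fin 3) ℝ) (c : ℝ), 0 < c → M.det ≠ 0 → |M.det| < c ^ 3 →
  ∃ n : Fin 3 → ℤ, n ≠ 0 ∧ ∀ i, |∑ j, M i j * n j| ≤ c

/-- [MZ] The same for the body `|u_i| ≤ c`, `|u_i - u_j| ≤ c` of volume `4 c³`. Proof. The body `Z = {u | ∀ i, |u i| ≤ c ∧ ∀ j, |u i - u j| ≤ c}` contains four pairwise disjoint open sets of volume `c³`: `A₀ = {0 < u i < c for all i}` and, for `i = 0, 1, 2`, `A_i = {0 < -u i < c, 0 < u j - u i < c for j ≠ i}`, the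
preimage of the cube `(0, c)³` under a linear map of determinant `±1`. (Disjoint: in `A₀` all coordinates are positive, in `A_i` the coordinate `u i` is negative and the smallest.) So the volume of `Z` is at least `4 c³`, that of its preimage `K` under `M` at least `4 c³/|det M| > 8`, and Minkowski's theorem applies to `K` (closed, convex, symmetric). -/
def S_MZ : Prop := ∀ (M : Matrix (Fin 3) (Fin 3) ℝ) (c : ℝ), 0 < c → M.det ≠ 0 → 2 * |M.det| < c ^ 3 →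
  ∃ n : Fin 3 → ℤ, n ≠ 0 ∧ ∀ i, |∑ j, M i j * n j| ≤ c ∧ ∀ i', |∑ j, M i j * n j - ∑ j, M i' j * n j| ≤ c

/-- [arith3] Proof. Let `E = d₁ + d₂ + d₃`; by symmetry assume `d₁ ≤ d₂ ≤ d₃`, `s = d₁ + d₂ = E - d₃`. `d₃ < 2E/3` gives `s > E/3`, and `d₃ ≥ E/3`. If `s ≥ 3`: `d₁ d₂ ≥ d₁ + d₂ - 1 ≥ 2s/3`; `s d₃ ≥ 2E²/9` (`(s - E/3)(d₃ - E/3) ≥ 0` and `s + d₃ = E`), so `d₁ d₂ d₃ ≥ 4E²/27` and
`163 · 4/27 > 8`. If `s = 2`: `d₁ = d₂ = 1`, `3 d₃ < 2 (2 + d₃)`, `d₃ ≤ 3`: check. -/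
def S_arith3 : Prop := ∀ d₁ d₂ d₃ : ℤ, 0 < d₁ → 0 < d₂ → 0 < d₃ → 3 * d₁ < 2 * (d₁ + d₂ + d₃) → 3 * d₂ < 2 * (d₁ + d₂ + d₃) →
  3 * d₃ < 2 * (d₁ + d₂ + d₃) → 8 * (d₁ + d₂ + d₃) ^ 2 < 163 * (d₁ * d₂ * d₃)

/-- [CH] A vertical chord of length `2` through the origin, and three integer points around it. Uses [ML]. Proof. Let `u_i = (v_i.1, v_i.2.1)`, `E = d₁ + d₂ + d₃`; `d₁ u₁ + d₂ u₂ + d₃ u₃ = 0`. For `y ∈ ℝ²` let `ℓ₁(y) = det2 y (u₃ - u₂) / d₁`, `ℓ₂(y) = det2 y (u₁ - u₃) / d₂`, `ℓ₃(y) = det2 y (u₂ - u₁) / d₃`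
(real versions of `det2`). Then `d₁ ℓ₁ + d₂ ℓ₂ + d₃ ℓ₃ = 0`, and the triangle `T = conv(u₁, u₂, u₃)` is `{ℓ_i ≤ 1}`: for `λ > 0` with `ℓ_i(y) ≤ λ` we have `y = Σ μ_i u_i`, `μ_i = d_i (λ - ℓ_i(y)) / E ≥ 0`, `Σ μ_i = λ` (check: `ℓ_j(u_i) = 1` for `j ≠ i`, `ℓ_i(u_i) = 1 - E/d_i`). (*) If `ℓ_i(y) ≤ λ`, `0 ≤ λ ≤ ρ`, then with `ζ = Σ μ_i z_i`
(`z_i` the third coordinates) the points `(y, ζ + θ)`, `|θ| ≤ ρ - λ`, are in `ρ P` (use `(0, 0, ±1) ∈ P`; `0 ∈ P`). Let `(a, b, c)` be the class. The matrix of the forms `L_i(n₁, n₂, j) = ℓ_i(p n₁ - j a, p n₂ - j b) + j` has determinant `± p² E² / (d₁ d₂ d₃)` (the map `(n, j) ↦ (y, j)` has determinant `p²`, the determinant of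
`(ℓ_i(y) + j)_i` is `E²/(d₁ d₂ d₃)`). As `8 E² < p d₁ d₂ d₃`, it is `< (p/2)³`, and [ML] with `c = p/2` gives `(n, j) ≠ 0` with `|L_i| ≤ p/2`; changing the sign we may assume `j ≥ 0`. If `j > 0`: with `y = p n - j (a, b)`, `ℓ_i(y) ≤ p/2 - j`, and `Σ d_i ℓ_i(y) = 0` shows `j ≤ p/2` (so `j < p`). By (*) with `λ = p/2 - j`, `ρ = p - j`, the dilate
`(p - j) P` contains a vertical segment over `y` of length `p`, hence an integer point `q` over `y` with third coordinate `≡ -j c`; `q ≡ (p - j)(a, b, c)` modulo `p` contradicts the criterion (dilate `0 < p - j < p`). If `j = 0`: `n ≠ 0`, `|ℓ_i(n)| ≤ 1/2`, so by (*) with `λ = 1/2`, `ρ = 1`, `P` contains vertical segments of length `1` over `n` and over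
`-n`, hence integer points. -/
def S_CH : Prop := ∀ (P : Set (ℝ × ℝ × ℝ)) (p : ℕ) (v₁ v₂ v₃ : ℤ × ℤ × ℤ) (d₁ d₂ d₃ : ℤ), Convex ℝ P → 0 < p → Cr P p → ip (0, 0, 1) ∈ P → ip (0, 0, -1) ∈ P →
  ip v₁ ∈ P → ip v₂ ∈ P → ip v₃ ∈ P → d₁ = det2 (v₂.1, v₂.2.1) (v₃.1, v₃.2.1) → d₂ = det2 (v₃.1, v₃.2.1) (v₁.1, v₁.2.1) → d₃ = det2 (v₁.1, v₁.2.1) (v₂.1, v₂.2.1) →
  0 < d₁ → 0 < d₂ → 0 < d₃ → 8 * (d₁ + d₂ + d₃) ^ 2 < p * (d₁ * d₂ * d₃) →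
  ∃ y : ℤ × ℤ, y ≠ 0 ∧ (∃ z : ℤ, ip (y.1, y.2, z) ∈ P) ∧ ∃ z : ℤ, ip (-y.1, -y.2, z) ∈ P

/-- [A0] Proof. `d₁ u₁ + d₂ u₂ + d₃ u₃ = 0` for the projections `u_i`, so `(-u₃, ζ) = (d₁/d₃) v₁ + (d₂/d₃) v₂` for some real `ζ`, a point of `λ P` with `λ = (d₁ + d₂)/d₃ ≤ 1/2`. As `(0, 0, ±1) ∈ P`, the points `(-u₃, ζ + θ)`, `|θ| ≤ 1 - λ`, are in `P`: a vertical segment of length `≥ 1`, which contains an integer point. -/
def S_A0 : Prop := ∀ (P : Set (ℝ × ℝ × ℝ)) (v₁ v₂ v₃ : ℤ × ℤ × ℤ) (d₁ d₂ d₃ : ℤ), Convex ℝ P → ip (0, 0, 1) ∈ P → ip (0, 0, -1) ∈ P →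
  ip v₁ ∈ P → ip v₂ ∈ P → d₁ = det2 (v₂.1, v₂.2.1) (v₃.1, v₃.2.1) → d₂ = det2 (v₃.1, v₃.2.1) (v₁.1, v₁.2.1) → d₃ = det2 (v₁.1, v₁.2.1) (v₂.1, v₂.2.1) →
  0 < d₁ → 0 < d₂ → 0 < d₃ → 2 * (d₁ + d₂ + d₃) ≤ 3 * d₃ → ∃ z : ℤ, ip (-v₃.1, -v₃.2.1, z) ∈ P

/-- [circ2] A finite set of integer vectors of the plane with the origin in the interior of the hull. Proof. Let `U' = U \ {0}`. For every direction `d ≠ 0` there is `u ∈ U` with `⟨d, u⟩ > 0` (otherwise `ε d`, in the hull, would have `⟨d, ε d⟩ ≤ 0`). By Caratheodory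
(`convexHull_eq_union`/`eq_pos_convex_span_of_mem_convexHull`) `0` is a positive combination of an affinely independent subset of `U'` (`0` is in the hull of `U'`: take `d = -u` for some `u ∈ U'`; `-ε u = Σ λ_w w`, so `0 = ε u + Σ λ_w w`, and the terms with `w = 0` can be dropped). It has at most three elements; one element is impossible
(it is not `0`); two elements are opposite: first alternative; three elements `u₁, u₂, u₃` with `α u₁ + β u₂ + γ u₃ = 0`, `α, β, γ > 0`, affinely independent: `det2 u₁ u₂ ≠ 0` (otherwise all three are on a line through `0`), and `det2 u₂ u₃ = (α/γ) det2 u₁ u₂`, `det2 u₃ u₁ = (β/γ) det2 u₁ u₂`; if the sign is negative exchange `u₁` and `u₂`. -/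
def S_circ2 : Prop := ∀ U : Finset (ℤ × ℤ), (∀ d : ℝ × ℝ, ∃ ε : ℝ, 0 < ε ∧ ε • d ∈ convexHull ℝ (ip2 '' (U : Set (ℤ × ℤ)))) →
  (∃ u ∈ U, ∃ u' ∈ U, u ≠ 0 ∧ det2 u u' = 0 ∧ u.1 * u'.1 + u.2 * u'.2 < 0) ∨
  ∃ u₁ ∈ U, ∃ u₂ ∈ U, ∃ u₃ ∈ U, 0 < det2 u₁ u₂ ∧ 0 < det2 u₂ u₃ ∧ 0 < det2 u₃ u₁

/-- [A] Uses [prim], [NoOpp], [CH], [A0], [arith3], [circ2], [fr2]. Proof. `Opp P`: `±t ∈ P`; by [prim] `t = k c`, `det3 a b c = 1`, so after the frame `fr 0 a b c` we have `(0, 0, ±k) ∈ P` and, by convexity, `(0, 0, ±1) ∈ P`. `P` is the hull of `V`; let `U` be the set of the projections `(v.1, v.2.1)` of `v ∈ V`. `Inn P 0` gives the hypothesis of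
[circ2] (project). First alternative: `v, v' ∈ V` with `(v.1, v.2.1) = u ≠ 0` and `(v'.1, v'.2.1) = u'` opposite: `α v + β v' = γ (0, 0, 1)` for some `α, β > 0` (`α = |u'|²`-type weights, e.g. `α = -⟨u, u'⟩`, `β = ⟨u, u⟩`), and `cr (0,0,1) v ≠ 0`: contradiction to [NoOpp]. Second alternative: `v₁, v₂, v₃ ∈ V` with `d₁, d₂, d₃ > 0`. If `3 d_i ≥ 2 E` for some `i` (say
`i = 3`, else rotate), [A0] gives an integer point `(-u₃, z) ∈ P`, opposite to `v₃`: again [NoOpp] (`v₃ + (-u₃, z) = γ e₃`). Otherwise [arith3] gives `8 E² < 163 d₁ d₂ d₃ ≤ p d₁ d₂ d₃` and [CH] gives integer points over `y` and `-y`, `y ≠ 0`: again [NoOpp]. -/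
def S_A : Prop := ∀ (P : Set (ℝ × ℝ × ℝ)) (p : ℕ), IsLP3 P → 163 ≤ p → Cr P p → Inn P 0 → Opp P → False

/-! ## D. Tetrahedra -/

/-- [gam] A basis of a lattice of integer vectors congruent to multiples of `(a, b, c)`. Proof. If `p ∤ a`, let `a a' ≡ 1`, `b' = b a'`, `c' = c a'`: `g₁ = (1, b', c')` (`h₁ = a'`), `g₂ = (0, p, 0)`, `g₃ = (0, 0, p)` (`h₂ = h₃ = 0`), `det = p²`. If `p ∤ b`: `g₁ = (p, 0, 0)`, `g₂ = (a b', 1, c b')`, `g₃ = (0, 0, p)`. If `p ∤ c`: similarly. -/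
def S_gam : Prop := ∀ (p : ℕ) (a b c : ℤ), p.Prime → ¬ ((p : ℤ) ∣ a ∧ (p : ℤ) ∣ b ∧ (p : ℤ) ∣ c) →
  ∃ g₁ g₂ g₃ : ℤ × ℤ × ℤ, det3 g₁ g₂ g₃ = (p : ℤ) ^ 2 ∧ ∀ g ∈ [g₁, g₂, g₃], ∃ h : ℤ, (p : ℤ) ∣ g.1 - h * a ∧ (p : ℤ) ∣ g.2.1 - h * b ∧ (p : ℤ) ∣ g.2.2 - h * c

/-- [SX] Uses [MZ], [gam]. Proof. Let `E = d₀ + d₁ + d₂ + d₃`; `Σ d_i v_i = 0` (Cramer, `ring`). Let `κ_i` be the linear form with `κ_i(v_j) = 1` for `j ≠ i`: for `x ∈ ℝ³` write `x = Σ λ_j v_j` with `Σ λ_j = 0` (unique); then `κ_i(x) = -λ_i E/d_i` (for `i = 1, 2, 3`: with `d₀ x = Σ_{j ≥ 1} n_j v_j`, `n₁ = det3 x v₂ v₃` etc., `λ_j = n_j/d₀ - d_j s/E`,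
`λ₀ = -d₀ s / E`, `s = Σ n_j/d₀`; explicit formulas: `κ₀(x) = s`, `κ_j(x) = s - n_j E/(d₀ d_j)`). Facts: `Σ d_i κ_i = 0`; if `κ_i(x) ≤ ρ` for all `i` (`ρ > 0`), then `x = Σ μ_i v_i` with `μ_i = d_i (ρ - κ_i(x))/E ≥ 0`, `Σ μ_i = ρ`, so `x ∈ ρ P`. Let `o = (a, b, c)`. `0 ∈ P` (`0 = Σ (d_i/E) v_i`), so not all of `a, b, c` are divisible by `p` (criterion for `h = 1` and the
integer point `0`). [gam] gives `g₁, g₂, g₃`. The three forms `u_i(n) = κ_i(x) - κ₀(x)`, `i = 1, 2, 3`, `x = n₁ g₁ + n₂ g₂ + n₃ g₃`, i.e. `u_i = -det3(..)E/(d₀ d_i)`, have the determinant `± p² E³/(d₀ d₁ d₂ d₃)` (in terms of `x`: the forms `n_j(x)` have determinant `d₀²`). As `2 E³ < p d₀ d₁ d₂ d₃`, twice it is `< p³`, and [MZ] with `c = p` gives `n ≠ 0` with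
`|κ_i(x) - κ_j(x)| ≤ p` for all `i, j ∈ {0, 1, 2, 3}`, `x ≠ 0`. `x ≡ h o` modulo `p` for some `h`, and we may take `0 ≤ h < p`. If `h = 0`: `x = p n'`, `n' ≠ 0` an integer vector with `|κ_i(n') - κ_j(n')| ≤ 1`; since `Σ d_i κ_i(n') = 0`, some `κ_i(n') ≤ 0` and some `≥ 0`, so `κ_i(n') ≤ 1` and `κ_i(-n') ≤ 1` for all `i`: `±n' ∈ P`, `Opp P`. If `h > 0`: let
`m = max κ_i(x) ≥ 0`, `m' = max κ_i(-x) = -min κ_i(x)`; `m + m' ≤ p`, so `m ≤ h` or `m' ≤ p - h`: `x ∈ h P` or `-x ∈ (p - h) P`, integer points congruent to `h o` and `(p - h) o`: contradiction to the criterion. -/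
def S_SX : Prop := ∀ (P : Set (ℝ × ℝ × ℝ)) (p : ℕ) (v₀ v₁ v₂ v₃ : ℤ × ℤ × ℤ) (d₀ d₁ d₂ d₃ : ℤ), Convex ℝ P → p.Prime → Cr P p → QD v₀ v₁ v₂ v₃ d₀ d₁ d₂ d₃ → In4 P v₀ v₁ v₂ v₃ →
  2 * (d₀ + d₁ + d₂ + d₃) ^ 3 < p * (d₀ * d₁ * d₂ * d₃) → Opp P

/-- [opp2] Uses [prim]. Proof. `v = k t` with `t` primitive, `k > 0` ([prim]); `w = -(α/β) v` is a negative multiple of `t`, in fact `w = -l t` with an integer `l > 0` (in the basis `a, b, c` of [prim] the vector `w` has coordinates `(0, 0, -l)`; or: `t` is primitive). `t` is on the segment from `0` to `v`, `-t` on that from `0` to `w`. -/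
def S_opp2 : Prop := ∀ (P : Set (ℝ × ℝ × ℝ)) (v w : ℤ × ℤ × ℤ) (α β : ℝ), Convex ℝ P → (0 : ℝ × ℝ × ℝ) ∈ P → ip v ∈ P → ip w ∈ P → v ≠ 0 → 0 < α → 0 < β →
  α • ip v + β • ip w = 0 → Opp P

/-- [circ] Uses [opp2]. Proof. Let `V' = V \ {0}`. `0` is in the hull of `V'`: `V'` is not empty; for `v ∈ V'` there is `ε > 0` with `-ε v ∈ hull V`, `-ε v = Σ λ_w w`, so `0 = ε v + Σ λ_w w`; drop the term `w = 0` and divide by the sum of the remaining weights, which is positive. By Caratheodory (`eq_pos_convex_span_of_mem_convexHull`) `0` is a combination with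
positive weights of an affinely independent subset of `V'` with at most four elements. One element: impossible. Two: [opp2]. Three: `α r + β s + γ t = 0` with `r, s, t` affinely independent; `cr r s ≠ 0` (otherwise all three are on a line through `0`): `Tri3`. Four: `Σ μ_i v_i = 0`, `μ_i > 0`, affinely independent. `d₀ = det3 v₁ v₂ v₃ ≠ 0` (if `v₁, v₂, v₃` were linearly dependent,
all four points would be in a plane through `0`, contradicting affine independence: four points in a two-dimensional subspace), and by Cramer `d₁ = -det3 v₀ v₂ v₃ = (μ₁/μ₀) d₀` etc. (take `det3 · v₂ v₃` of the relation). If `d₀ < 0` exchange `v₀` and `v₁`. -/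
def S_circ : Prop := ∀ V : Finset (ℤ × ℤ × ℤ), Inn (hull V) 0 → Opp (hull V) ∨ Tri3 (hull V) ∨
  ∃ v₀ v₁ v₂ v₃ d₀ d₁ d₂ d₃, QD v₀ v₁ v₂ v₃ d₀ d₁ d₂ d₃ ∧ In4 (hull V) v₀ v₁ v₂ v₃

/-- [quad0] Uses [opp2]. Proof. If `c₁, c₂, c₃ > 0`: the relation `X + c₁ v₁ + c₂ v₂ + c₃ v₃ = 0` and `det3 v₁ v₂ v₃ = d₀ > 0` give, taking `det3 · v₂ v₃` etc., `-det3 X v₂ v₃ = c₁ d₀ > 0`, `det3 X v₁ v₃ = c₂ d₀ > 0`, `-det3 X v₁ v₂ = c₃ d₀ > 0`: `QD X v₁ v₂ v₃ ..` with sum `d₀ (1 + c₁ + c₂ + c₃)`, smaller than the old one (compare in `ℝ`, cast). If exactly one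
`c_i = 0`, say `c₃ = 0`: `X + c₁ v₁ + c₂ v₂ = 0` is `Tri3` (`r = v₁`, `s = v₂`, `t = X`, `cr v₁ v₂ ≠ 0` because `det3 v₁ v₂ v₃ ≠ 0`). If exactly two are zero, `X + c₁ v₁ = 0`: [opp2] (with `0 ∈ P`: `0 = Σ (d_i/E) v_i`). If all are zero, `X = 0`, excluded. -/
def S_quad0 : Prop := ∀ (P : Set (ℝ × ℝ × ℝ)) (v₀ v₁ v₂ v₃ : ℤ × ℤ × ℤ) (d₀ d₁ d₂ d₃ : ℤ), Convex ℝ P → QD v₀ v₁ v₂ v₃ d₀ d₁ d₂ d₃ → In4 P v₀ v₁ v₂ v₃ →
  ∀ (X : ℤ × ℤ × ℤ) (c₁ c₂ c₃ : ℝ), X ≠ 0 → ip X ∈ P → 0 ≤ c₁ → 0 ≤ c₂ → 0 ≤ c₃ → ip X + c₁ • ip v₁ + c₂ • ip v₂ + c₃ • ip v₃ = 0 →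
  (d₀ : ℝ) * (1 + c₁ + c₂ + c₃) < d₀ + d₁ + d₂ + d₃ →
  Opp P ∨ Tri3 P ∨ ∃ v₀' v₁' v₂' v₃' d₀' d₁' d₂' d₃', QD v₀' v₁' v₂' v₃' d₀' d₁' d₂' d₃' ∧ In4 P v₀' v₁' v₂' v₃' ∧ d₀' + d₁' + d₂' + d₃' < d₀ + d₁ + d₂ + d₃

/-- [quadX] Uses [quad0]. Proof. Let `E = Σ d_i`, `X ≠ 0`, `X = Σ x_i v_i`, `0 ≤ x_i < 1`, `Σ x_i = 1`. Let `m` be an index with `x_m/d_m` maximal, `t = x_m/d_m`, `c_i = t d_i - x_i ≥ 0`, `c_m = 0`. As `Σ d_i v_i = 0`, `X + Σ_{i ≠ m} c_i v_i = 0`, and `d_m (1 + Σ_{i≠m} c_i) = d_m (1 + t (E - d_m) - (1 - x_m)) = d_m t E = x_m E < E`. For `m = 0` this is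
[quad0]. The other cases reduce to it because `QD v₀ v₁ v₂ v₃ d₀ d₁ d₂ d₃` implies `QD v₁ v₀ v₃ v₂ d₁ d₀ d₃ d₂`, `QD v₂ v₃ v₀ v₁ d₂ d₃ d₀ d₁` and `QD v₃ v₂ v₁ v₀ d₃ d₂ d₁ d₀` (even permutations). `X ∈ P` by convexity. -/
def S_quadX : Prop := ∀ (P : Set (ℝ × ℝ × ℝ)) (v₀ v₁ v₂ v₃ : ℤ × ℤ × ℤ) (d₀ d₁ d₂ d₃ : ℤ), Convex ℝ P → QD v₀ v₁ v₂ v₃ d₀ d₁ d₂ d₃ → In4 P v₀ v₁ v₂ v₃ →
  ∀ (X : ℤ × ℤ × ℤ) (x₀ x₁ x₂ x₃ : ℝ), X ≠ 0 → 0 ≤ x₀ → 0 ≤ x₁ → 0 ≤ x₂ → 0 ≤ x₃ → x₀ < 1 → x₁ < 1 → x₂ < 1 → x₃ < 1 → x₀ + x₁ + x₂ + x₃ = 1 →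
  ip X = x₀ • ip v₀ + x₁ • ip v₁ + x₂ • ip v₂ + x₃ • ip v₃ →
  Opp P ∨ Tri3 P ∨ ∃ v₀' v₁' v₂' v₃' d₀' d₁' d₂' d₃', QD v₀' v₁' v₂' v₃' d₀' d₁' d₂' d₃' ∧ In4 P v₀' v₁' v₂' v₃' ∧ d₀' + d₁' + d₂' + d₃' < d₀ + d₁ + d₂ + d₃

/-- [floor] Proof. `D = w₀ + w₁ + w₂ + w₃`. `Σ w_i v_i = 0` (from `Σ d_i v_i = 0`). For `0 < j < D` let `r_i = (w_i j) % D`, `q_i = (w_i j) / D`; `Σ r_i = D (j - Σ q_i)`, put `s = j - Σ q_i`. The integer vector `X = -Σ q_i v_i` equals `Σ (r_i/D) v_i`. `s ≥ 1`: otherwise all `r_i = 0`, `D ∣ w_i j` for all `i`, so `D ∣ j` (the `w_i` have no common divisor: an integer combination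
of them is `1`), impossible. Claim: `s ≠ 1` for `2 ≤ j ≤ D - 1`. If `s = 1`, the hypothesis `hX` with `x_i = r_i/D` gives `X = 0`, so `Σ r_i v_i = 0`; taking `det3` with two of the vectors, `r_i d_j = r_j d_i`, so `r_i w_j = r_j w_i` and, summing over `j`, `r_i D = w_i Σ r_j = w_i D`: `r_i = w_i`. Then `D ∣ (j - 1) w_i` for all `i`, `D ∣ j - 1`,
impossible. `s ≠ 3` for `1 ≤ j ≤ D - 2`: `Σ r_i = 3 D` and `r_i < D` imply `r_i > 0` for all `i`; for `j' = D - j` the remainders are `r_i' = D - r_i`, with sum `D`, so `s' = 1` with `2 ≤ j' ≤ D - 1`, impossible. `s ≤ 3` because `Σ r_i < 4 D`. Hence `s = 2` for `2 ≤ j ≤ D - 2`. -/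
def S_floor : Prop := ∀ (v₀ v₁ v₂ v₃ : ℤ × ℤ × ℤ) (d₀ d₁ d₂ d₃ g w₀ w₁ w₂ w₃ : ℤ), QD v₀ v₁ v₂ v₃ d₀ d₁ d₂ d₃ → 0 < g → d₀ = g * w₀ → d₁ = g * w₁ → d₂ = g * w₂ → d₃ = g * w₃ →
  (∃ e₀ e₁ e₂ e₃ : ℤ, e₀ * w₀ + e₁ * w₁ + e₂ * w₂ + e₃ * w₃ = 1) →
  (∀ (X : ℤ × ℤ × ℤ) (x₀ x₁ x₂ x₃ : ℝ), 0 ≤ x₀ → 0 ≤ x₁ → 0 ≤ x₂ → 0 ≤ x₃ → x₀ < 1 → x₁ < 1 → x₂ < 1 → x₃ < 1 → x₀ + x₁ + x₂ + x₃ = 1 →
    ip X = x₀ • ip v₀ + x₁ • ip v₁ + x₂ • ip v₂ + x₃ • ip v₃ → X = 0) →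
  ∀ j : ℤ, 2 ≤ j → j + 2 ≤ w₀ + w₁ + w₂ + w₃ →
    w₀ * j / (w₀ + w₁ + w₂ + w₃) + w₁ * j / (w₀ + w₁ + w₂ + w₃) + w₂ * j / (w₀ + w₁ + w₂ + w₃) + w₃ * j / (w₀ + w₁ + w₂ + w₃) = j - 2

/-- [WT] Only `j = 2, 3, 4` are used. Proof. Let `D = Σ w_i`. `D ≥ 4`; `D = 4`: all `w_i = 1`, `128 < 163`. `j = 2`: `2 w_i < D` for all `i`. `D = 5`: the weights are `1, 1, 1, 2` in some order, `250 < 326`. Let `D ≥ 6`. `j = 3`: exactly one index, say `3`, with `3 w ≥ D` (the quotients are `0` or `1`). `j = 4`: the quotients are `0` or `1`, sum `2`: exactly two indices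
with `4 w ≥ D`, one of them `3`, the other say `2`: `D ≤ 4 w₂`, `3 w₂ < D`, `D ≤ 3 w₃`, `2 w₃ < D`, and `4 w₀, 4 w₁ < D`; say `w₀ ≤ w₁`. `w₀ + w₁ = D - w₂ - w₃ > D/6`, so `12 w₁ > D`. If `w₀ ≥ 2`: `163 w₀ w₁ w₂ w₃ ≥ 326 (D/12)(D/4)(D/3) > 2 D³`. If `w₀ = 1`: `w₁ = D - 1 - w₂ - w₃`. The product `w₂ w₃ (D - 1 - w₂ - w₃)` is concave in each of `w₂ ∈ [D/4, D/3]`,
`w₃ ∈ [D/3, D/2]`, so at least the minimum at the four corners: `D²/12 (5D/12 - 1)`, `D²/8 (D/4 - 1)`, `D²/9 (D/3 - 1)`, `D²/6 (D/6 - 1)`; for `D ≥ 11` each is `> 2 D³/163`. For `6 ≤ D ≤ 10`: `D = 6`: no `w₂`; `7`: `(1, 1, 2, 3)`; `8`: `(w₁, w₂, w₃) = (2, 2, 3)` is excluded by `4 w₁ < D`; `9`: no `w₂`; `10`: `(1, 2, 3, 4)`, `2000 < 163 · 24`. (Bounded search: all `w_i ≤ 5`.) -/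
def S_WT : Prop := ∀ w₀ w₁ w₂ w₃ : ℤ, 0 < w₀ → 0 < w₁ → 0 < w₂ → 0 < w₃ →
  (∀ j : ℤ, 2 ≤ j → j + 2 ≤ w₀ + w₁ + w₂ + w₃ →
    w₀ * j / (w₀ + w₁ + w₂ + w₃) + w₁ * j / (w₀ + w₁ + w₂ + w₃) + w₂ * j / (w₀ + w₁ + w₂ + w₃) + w₃ * j / (w₀ + w₁ + w₂ + w₃) = j - 2) →
  2 * (w₀ + w₁ + w₂ + w₃) ^ 3 < 163 * (w₀ * w₁ * w₂ * w₃)

/-- [C] Uses [SX], [quadX], [floor], [WT]. Proof. Suppose there is `QD v d` in `P` (`In4`), and not `Opp P`, not `Tri3 P`. Choose one with minimal sum `E = Σ d_i > 0` (well-founded). By [quadX] and minimality every integer point `X = Σ x_i v_i` as there is `0`. Let `g = gcd(d₀, .., d₃) > 0`, `d_i = g w_i`; [floor] and [WT] give `2 D³ < 163 Π w_i` (`D = Σ w_i`), so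
`2 E³ = 2 g³ D³ < 163 g³ Π w_i ≤ p g⁴ Π w_i = p Π d_i`, and [SX] gives `Opp P`. -/
def S_C : Prop := ∀ (P : Set (ℝ × ℝ × ℝ)) (p : ℕ), Convex ℝ P → p.Prime → 163 ≤ p → Cr P p → ¬ Opp P → ¬ Tri3 P →
  ¬ ∃ v₀ v₁ v₂ v₃ d₀ d₁ d₂ d₃, QD v₀ v₁ v₂ v₃ d₀ d₁ d₂ d₃ ∧ In4 P v₀ v₁ v₂ v₃

/-- [N] Uses [A], [B], [C], [circ], [fr2]. Proof. Let `v` be an integer point with `Inn P (ip v)`. The translation `f w = w + v` is a frame, `P' = f ⁻¹' P` has `Inn P' 0`. `P' = hull V` for a finite set `V`. By [circ] one of `Opp`, `Tri3`, `QD` occurs for `P'`, against [A], [B], [C]. -/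
def S_N : Prop := ∀ (P : Set (ℝ × ℝ × ℝ)) (p : ℕ), IsLP3 P → p.Prime → 163 ≤ p → Cr P p → Hollow P

end Pool.Agent.Lib.MP_0bc52e_nt.T
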