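import Pool.Agent.Lib.MP_0bc52e_nt.LC.Defs3
import Pool.Agent.Lib.MP_0bc52e_nt.T.StmN

/-!
# Statements, part H: a hollow polytope that meets all classes modulo `2` and satisfies the criterion for some `p ≥ 163` contains a configuration of width one with the same property

`[x]` refers to the statement `S_x` of this file or of `StmN.lean`.
-/

open scoped Pointwise

namespace Pool.Agent.Lib.MP_0bc52e_nt.T

open Pool.Agent.Lib.MP_0bc52e_nt.LC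

/-! ## E. Minimal configurations -/

/-- [H1] Proof. The set `A` of integer points of `P` is finite (`P` is bounded) and meets all classes modulo `2`. Call a finite set `W ⊆ A` saturated if every integer point of `hull W` is in `W`; `A` is saturated (`hull A ⊆ P`). Choose a saturated `W ⊆ A` that meets all classes, of minimal cardinality, and then `V ⊆ W` of minimal cardinality with `hull V = hull W`. `PC3 (hull V)`: clear.
`ext`: if `ip v ∈ hull (V.erase v)`, then `hull (V.erase v) = hull V`, a smaller set. `alone`: let `v ∈ V`, `x ≠ v` an integer point of `hull V` congruent to `v`; `x ∈ W`. Let `W' = W.erase v`. (1) `ip v ∉ hull W'`: `v` is an extreme point of `hull V` (every point of `hull V` is `μ v + (1 - μ) b`, `b ∈ hull (V.erase v)`; if `v` were inside a segment between points of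
`hull V` different from `v`, it would be in `hull (V.erase v)`), so `hull V \ {v}` is convex and contains `W'`. (2) `W'` is saturated: its integer points are in `W` and different from `v`. (3) `W'` meets all classes, because `x ∈ W'`. This contradicts the minimality of `W`. -/
def S_H1 : Prop := ∀ P : Set (ℝ × ℝ × ℝ), IsLP3 P → PC3 P → ∃ V : Finset (ℤ × ℤ × ℤ), Mini V ∧ hull V ⊆ P

/-- [frM] Uses [fr1], [fr2]. Proof. `V' = {w | ip w = g (ip v) for some v ∈ V}` for the inverse frame `g`. Frames commute with hulls; they preserve congruence modulo `2` in both directions (`f v - f w = M (v - w)`). -/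
def S_frM : Prop := ∀ f, IsFr f → ∀ V : Finset (ℤ × ℤ × ℤ), ∃ V' : Finset (ℤ × ℤ × ℤ), (∀ w, w ∈ V' ↔ ∃ v ∈ V, f (ip w) = ip v) ∧
  (∀ v ∈ V, ∃ w ∈ V', f (ip w) = ip v) ∧ hull V' = f ⁻¹' (hull V) ∧ (Mini V → Mini V') ∧ (Emp V → Emp V')

/-- [tri2] Uses [emp2]. Proof. Let `T` be the triangle; `0` is inside, with positive weights `det2 B C, det2 C A, det2 A B` (over their sum). (a) `A, B, C, 0` are pairwise incongruent modulo `2`, so every integer point of `T` other than `A, B, C` is `≡ 0`. (b) `T` has no integer points except `0, A, B, C`: let `X` be another one; `X ≡ 0`, and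
`X/2`, the midpoint of `0` and `X`, is an integer point with positive weights at `A, B, C`, so it is not one of the vertices, and it is not `0`; induction on `|X.1| + |X.2|`. (c) By [emp2] (and the cyclic symmetry) the three determinants are `1`: a point `X` of the triangle `0 A B` other than `0, A, B` would be in `T`, and not `C` since `det2 C B < 0 ≤ det2 X B`.
`det2 A B • C = -(det2 B C) • A - (det2 C A) • B` gives `C = -A - B`. -/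
def S_tri2 : Prop := ∀ A B C : ℤ × ℤ, 0 < det2 A B → 0 < det2 B C → 0 < det2 C A →
  (∀ X : ℤ × ℤ, ip2 X ∈ convexHull ℝ {ip2 A, ip2 B, ip2 C} → ∀ Y : ℤ × ℤ, (Y = A ∨ Y = B ∨ Y = C) → (2 : ℤ) ∣ X.1 - Y.1 → (2 : ℤ) ∣ X.2 - Y.2 → X = Y) →
  A + B + C = 0 ∧ det2 A B = 1

/-- [segM] Uses [prim]. Proof. `a₂ - a₁ = k t` with `t` primitive ([prim]: `t` is part of a basis `a, b, t`), `k > 0`; `x - a₁ = s k t` is an integer vector, so `l = s k` is an integer, `0 < l < k`, `k ≥ 2`. `a₁ + 2 t` is an integer point of the segment, congruent to `a₁`, different from it: contradiction to `alone`. -/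
def S_segM : Prop := ∀ V : Finset (ℤ × ℤ × ℤ), Mini V → ∀ a₁ ∈ V, ∀ a₂ ∈ V, ∀ (x : ℤ × ℤ × ℤ) (s : ℝ), 0 < s → s < 1 → a₁ ≠ a₂ →
  ip x = (1 - s) • ip a₁ + s • ip a₂ → False

/-- [triM] Uses [pln], [tri2]. Proof. [pln] for `s = a₁ - x`, `t = a₂ - x`: a basis `a, b, c`, `a₁ - x = A.1 a + A.2 b`, `a₂ - x = B.1 a + B.2 b`, `det2 A B > 0`. `a₃ - x = -(α (a₁ - x) + β (a₂ - x))/γ` is in the plane of `a, b`, hence `= C.1 a + C.2 b` with integers, `α A + β B + γ C = 0`, so `det2 B C, det2 C A > 0`. An integer point `X` of the triangle `A B C`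
gives the integer point `x + X.1 a + X.2 b` of `hull V`; if `X ≡ A`, this point is `≡ a₁`, so it is `a₁` (`alone`) and `X = A`. [tri2]: `A + B + C = 0` and `det2 A B = 1`; `det3 (a₁ - x) (a₂ - x) c = det2 A B · det3 a b c = 1`. -/
def S_triM : Prop := ∀ V : Finset (ℤ × ℤ × ℤ), Mini V → ∀ a₁ ∈ V, ∀ a₂ ∈ V, ∀ a₃ ∈ V, ∀ (x : ℤ × ℤ × ℤ) (α β γ : ℝ), 0 < α → 0 < β → 0 < γ → α + β + γ = 1 →
  ip x = α • ip a₁ + β • ip a₂ + γ • ip a₃ → cr (a₁ - x) (a₂ - x) ≠ 0 → a₁ + a₂ + a₃ = x + x + x ∧ ∃ c, det3 (a₁ - x) (a₂ - x) c = 1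

/-- [H2] Uses [segM], [triM]. Proof. By Caratheodory (`eq_pos_convex_span_of_mem_convexHull`) `x` is a combination with positive weights of an affinely independent subset of `V` with at most four elements. One: `x ∈ V`. Two: [segM]. Three: [triM] (`cr (a₁ - x) (a₂ - x) ≠ 0`, otherwise the three points would be collinear with `x`). Four: for a direction `d` there are reals
`δ_i` with `Σ δ_i = 0`, `Σ δ_i a_i = d`, and `x + ε d = Σ (μ_i + ε δ_i) a_i` is in the hull for small `ε > 0`: `Inn`. -/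
def S_H2 : Prop := ∀ V : Finset (ℤ × ℤ × ℤ), Mini V → ∀ x : ℤ × ℤ × ℤ, ip x ∈ hull V → x ∉ V →
  Inn (hull V) (ip x) ∨ ∃ a₁ ∈ V, ∃ a₂ ∈ V, ∃ a₃ ∈ V, a₁ + a₂ + a₃ = x + x + x ∧ ∃ c, det3 (a₁ - x) (a₂ - x) c = 1

/-! ## F. A triangle `W` with an integer point inside -/

/-- [W0] Proof. Let `w₁, w₂, w₃` be the vertices of `W`. (1) No `v ∈ V` has `z < 0`: otherwise `0` would be an inner point: there are `u, v ∈ V` with `u.z > 0 > v.z`; for a direction `d`, say `d.z ≥ 0`, `ε d = τ u + (ε d - τ u)`, `τ = ε d.z / u.z`, and `ε d - τ u` is a point of the plane `z = 0` that is in `(1 - τ) W` for small `ε > 0` (use the explicit weights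
`(r + 2x - y)/3, (r + 2y - x)/3, (r - x - y)/3` of `(x, y) ∈ r W`). (2) A `v ∈ V` with `z` even is a vertex of `W`: if `(v.x, v.y)` is `≡ (1, 0), (0, 1)` or `(1, 1)` modulo `2`, then `v` is congruent to a vertex `w` of `W`, and `alone` for `w` gives `v = w`. If `v ≡ 0`: `0 = (w₁ + w₂ + w₃)/3` is an integer point of the hull, `alone` for `v` gives `v = 0`, but then
`ip 0 ∈ hull (V.erase 0)`, against `ext`. -/
def S_W0 : Prop := ∀ V : Finset (ℤ × ℤ × ℤ), Mini V → Hollow (hull V) → WIn V → (∃ v ∈ V, 0 < v.2.2) →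
  ∀ v ∈ V, v = (1, 0, 0) ∨ v = (0, 1, 0) ∨ v = (-1, -1, 0) ∨ (0 < v.2.2 ∧ ¬ (2 : ℤ) ∣ v.2.2)

/-- [WE] Uses [segM], [triM]. Proof. `y = α₁ w₁ + α₂ w₂ + α₃ w₃ + β u`, weights `≥ 0` of sum `1`, `β = y.z/u.z ∈ (0, 1)`; `w₁, w₂, w₃, u` are affinely independent. All `α_i > 0`: `y` is an inner point (as in [H2]), excluded by `Hollow`. Exactly one `α_i = 0`, the others `w_j, w_k`: by [triM] (`a₁ = w_j, a₂ = w_k, a₃ = u`) `w_j + w_k + u = 3 y`, so `u = 3 y + w_i` (`w₁ + w₂ + w₃ = 0`),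
and `y + w_i = (1/3) u + (2/3) w_i` is an integer point of the hull congruent to `u` modulo `2` (`u - (y + w_i) = 2 y`), so `alone` gives `y + w_i = u`, `2 y = 0`, impossible (`y.z > 0`). Two of the `α_i` zero: `y` is inside the segment from `w_k` to `u`: [segM]. Three zero: `y = u`, impossible. -/
def S_WE : Prop := ∀ V : Finset (ℤ × ℤ × ℤ), Mini V → Hollow (hull V) → WIn V → ∀ u ∈ V, ∀ y : ℤ × ℤ × ℤ, 0 < y.2.2 → y.2.2 < u.2.2 →
  ip y ∈ convexHull ℝ {ip (1, 0, 0), ip (0, 1, 0), ip (-1, -1, 0), ip u} → False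

/-- [h3] Uses [holeW]. Proof. If `h ≥ 9`: [holeW] for `x = -u₁/h`, `y = -u₂/h`, `r = 1 - 1/h` (the hypothesis for `k = 1`, `y₁ = -i`, `y₂ = -j`, divided by `h`) gives `-u₁/h = i + σ/3 + v₁`, `-u₂/h = j - σ/3 + v₂` with `-v₁ - v₂, 2 v₂ - v₁, 2 v₁ - v₂ < 1/h`. Then for `k = 3`, `y₁ = -(3 i + σ)`, `y₂ = -(3 j - σ)`: `h y₁ - 3 u₁ = 3 h v₁`, `h y₂ - 3 u₂ = 3 h v₂`, and
`3 h (v₁ + v₂) < 6 ≤ h - 3`, `3 h (v₁ - 2 v₂) < 6`, `3 h (v₂ - 2 v₁) < 6`: a contradiction. `h = 5, 7` (and `3`): the hypothesis depends only on `u₁, u₂` modulo `h` (replace `y_i` by `y_i + k m_i`); finite check over the residues: for `h = 5, 7` there is always a solution `k, y₁, y₂` with `-1 ≤ y_i ≤ k + 1`, for `h = 3` in all cases except `(1, 2)` and `(2, 1)`. -/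
def S_h3 : Prop := ∀ h u₁ u₂ : ℤ, 2 ≤ h → ¬ (2 : ℤ) ∣ h →
  (∀ k y₁ y₂ : ℤ, 0 < k → k < h → ¬ (h * y₁ - k * u₁ + (h * y₂ - k * u₂) ≤ h - k ∧ h * y₁ - k * u₁ - 2 * (h * y₂ - k * u₂) ≤ h - k ∧
    h * y₂ - k * u₂ - 2 * (h * y₁ - k * u₁) ≤ h - k)) →
  h = 3 ∧ (((3 : ℤ) ∣ u₁ - 1 ∧ (3 : ℤ) ∣ u₂ + 1) ∨ ((3 : ℤ) ∣ u₁ + 1 ∧ (3 : ℤ) ∣ u₂ - 1))

/-- [Wh] Uses [W0], [WE], [h3]. Proof. By [W0] `u.z` is odd; suppose `u.z ≠ 1`, so `h = u.z ≥ 3`. For `0 < k < h` and integers `y₁, y₂` with `(h y₁ - k u₁, h y₂ - k u₂) ∈ (h - k) W` the point `(y₁, y₂, k)` would be in the hull of `W` and `u`: `(y₁, y₂, k) = (k/h) u + (1 - k/h) (w, 0)`, `w ∈ W`. This is excluded by [WE]. Apply [h3]. -/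
def S_Wh : Prop := ∀ V : Finset (ℤ × ℤ × ℤ), Mini V → Hollow (hull V) → WIn V → (∃ v ∈ V, 0 < v.2.2) →
  ∀ u ∈ V, 0 < u.2.2 → u.2.2 = 1 ∨ (u.2.2 = 3 ∧ (((3 : ℤ) ∣ u.1 - 1 ∧ (3 : ℤ) ∣ u.2.1 + 1) ∨ ((3 : ℤ) ∣ u.1 + 1 ∧ (3 : ℤ) ∣ u.2.1 - 1)))

/-- [nrm3] Proof. `u = (1 + 3 i, -1 + 3 j, 3)`: `f (x, y, z) = (x + i z, y + j z, z)`. `u = (-1 + 3 i, 1 + 3 j, 3)`: `f (x, y, z) = (y + i z, x + j z, z)`. -/
def S_nrm3 : Prop := ∀ u : ℤ × ℤ × ℤ, u.2.2 = 3 → (((3 : ℤ) ∣ u.1 - 1 ∧ (3 : ℤ) ∣ u.2.1 + 1) ∨ ((3 : ℤ) ∣ u.1 + 1 ∧ (3 : ℤ) ∣ u.2.1 - 1)) →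
  ∃ f, IsFr f ∧ f (ip (1, -1, 3)) = ip u ∧ (∀ v, (f v).2.2 = v.2.2) ∧ ((f (ip (1, 0, 0)) = ip (1, 0, 0) ∧ f (ip (0, 1, 0)) = ip (0, 1, 0)) ∨
    (f (ip (1, 0, 0)) = ip (0, 1, 0) ∧ f (ip (0, 1, 0)) = ip (1, 0, 0))) ∧ f (ip (-1, -1, 0)) = ip (-1, -1, 0)

/-- [reg] Proof. Let `A = (1/3, 1/3, 1) = (u + 2 e₂)/3`, `B = (-1/3, -1, 1)`, `C = (1, -1/3, 1)`, three points of `P` (`u = (1, -1, 3)`), and `X = (x₁, x₂, 1)`. (0) If `x₂ > 3 x₁` and `x₂ > x₁`, then `(0, 0, 1)` is inside the triangle `X A B`: it is `ξ X + α A + β B` with weights proportional to `2/9` (for `X`), `(x₂ - 3 x₁)/3` (for `A`), `(x₂ - x₁)/3` (for `B`); the point `u` is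
above and `(0, 0, 0) ∈ P` below the plane `z = 1`, so it is an inner point (for a direction `d` write `ε d = τ (u - (0,0,1)) + ...` or `τ ((0,0,0) - (0,0,1)) + ...` with the rest in the plane; the triangle is a neighbourhood of `(0, 0, 1)` in the plane). (1), (2) follow from (0) by the symmetry `ρ (x, y, z) = (-y, x - y - z, z)` of order three, which permutes the vertices of `W`, fixes `u`, and maps
`(0, 0, 1) ↦ (0, -1, 1) ↦ (1, 0, 1) ↦ (0, 0, 1)`; or directly: `(1, 0, 1)` is inside `X C A`, `(0, -1, 1)` is inside `X B C`. -/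
def S_reg : Prop := ∀ (P : Set (ℝ × ℝ × ℝ)) (x₁ x₂ : ℝ), Convex ℝ P → ip (1, 0, 0) ∈ P → ip (0, 1, 0) ∈ P → ip (-1, -1, 0) ∈ P → ip (1, -1, 3) ∈ P → (x₁, x₂, (1 : ℝ)) ∈ P →
  (3 * x₁ < x₂ → x₁ < x₂ → Inn P (ip (0, 0, 1))) ∧ (1 < x₁ → 1 < x₁ + 2 * x₂ → Inn P (ip (1, 0, 1))) ∧ (x₂ < -1 → 3 * x₂ + 3 < 2 * x₁ → Inn P (ip (0, -1, 1)))

/-- [lev1] Proof. First `-3 ≤ x₂ ≤ 3` and `-3 ≤ x₁ ≤ 3`. If `x₂ ≥ -1`: by the first hypothesis `x₂ ≤ max(x₁, 3 x₁)`, by the second `x₁ ≤ 1` or `x₁ + 2 x₂ ≤ 1`. If `x₂ ≤ -2`: by the third `2 x₁ ≤ 3 x₂ + 3`, by the first `x₂ ≤ x₁`. (`omega` for the bounds, then `interval_cases`.) -/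
def S_lev1 : Prop := ∀ x₁ x₂ : ℤ, ¬ (3 * x₁ < x₂ ∧ x₁ < x₂) → ¬ (1 < x₁ ∧ 1 < x₁ + 2 * x₂) → ¬ (x₂ < -1 ∧ 3 * x₂ + 3 < 2 * x₁) →
  ((2 : ℤ) ∣ x₁ ∧ (2 : ℤ) ∣ x₂ → (x₁, x₂) = (0, 0) ∨ (x₁, x₂) = (-2, -2)) ∧ ((2 : ℤ) ∣ x₁ - 1 ∧ (2 : ℤ) ∣ x₂ → (x₁, x₂) = (1, 0) ∨ (x₁, x₂) = (1, 2)) ∧
  ((2 : ℤ) ∣ x₁ ∧ (2 : ℤ) ∣ x₂ - 1 → (x₁, x₂) = (0, -1) ∨ (x₁, x₂) = (2, -1))

/-- [two3] Uses [reg]. Proof. (a) `v = (1 + 3 m₁, -1 + 3 m₂, 3)`, `m = (m₁, m₂, 0)`: `u + 2 m = (1/3) u + (2/3) v` is an integer point of the hull congruent to `u = (1, -1, 3)`; `alone` for `u` gives `m = 0`, `v = u`. (b) `v = (-1 + 3 m₁, 1 + 3 m₂, 3)`: the points `(v + 2 e₁)/3 = (m₁ + 1/3, m₂ + 1/3, 1)`, `(v + 2 e₂)/3 = (m₁ - 1/3, m₂ + 1, 1)`, `(v - 2 e₁ - 2 e₂)/3 = (m₁ - 1, m₂ - 1/3, 1)` are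
in the hull. By [reg] and `Hollow`: for the first point not (`m₁ + 1/3 > 1` and `m₁ + 2 m₂ + 1 > 1`): `m₁ ≤ 0` or `m₁ + 2 m₂ ≤ 0`; for the second not (`m₂ + 1 > 3 m₁ - 1` and `m₂ + 1 > m₁ - 1/3`): `m₂ + 2 ≤ 3 m₁` or `m₂ + 2 ≤ m₁`; for the third not (`m₂ - 1/3 < -1` and `2 m₁ - 2 > 3 m₂ + 2`): `m₂ ≥ 0` or `2 m₁ ≤ 3 m₂ + 4`. If `m₁ ≥ 1`: `m₂ ≤ -1`, `2 m₁ ≤ 1`, impossible. If `m₁ ≤ 0`:
`m₂ ≤ m₁ - 2`, so `m₂ < 0`, `2 m₂ + 4 ≤ 2 m₁ ≤ 3 m₂ + 4`, impossible. -/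
def S_two3 : Prop := ∀ V : Finset (ℤ × ℤ × ℤ), Mini V → Hollow (hull V) → WIn V → (1, -1, 3) ∈ V → ∀ v ∈ V, v.2.2 = 3 →
  (((3 : ℤ) ∣ v.1 - 1 ∧ (3 : ℤ) ∣ v.2.1 + 1) ∨ ((3 : ℤ) ∣ v.1 + 1 ∧ (3 : ℤ) ∣ v.2.1 - 1)) → v = (1, -1, 3)

/-- [WMH] Uses [Wh], [W0], [two3], [reg], [lev1]. Proof. By [W0], [Wh], [two3] every `v ∈ V` is a vertex of `W`, or has `z = 1`, or is `u = (1, -1, 3)`. So `0 ≤ z ≤ 3` on the hull, and its only point with `z = 3` is `u`. For each of the classes `(0, 0, 1), (1, 0, 1), (0, 1, 1)` modulo `2` there is an integer point of the hull in it (`pc`); its `z` is odd, so `1` or `3`, and `3` is impossible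
(`u ≡ (1, 1, 1)`): so `z = 1`. By `Hollow`, [reg] and [lev1] the three points are `(0,0,1)` or `(-2,-2,1)`; `(1,0,1)` or `(1,2,1)`; `(0,-1,1)` or `(2,-1,1)`. As `(1/3, 1/3, 1), (1, -1/3, 1), (-1/3, -1, 1)` are in the hull (`(u + 2 w)/3`), and `(0,0,1) = (1/7)(-2,-2,1) + (6/7)(1/3,1/3,1)`, `(1,0,1) = (1/7)(1,2,1) + (6/7)(1,-1/3,1)`, `(0,-1,1) = (1/7)(2,-1,1) + (6/7)(-1/3,-1,1)`, the points
`(0,0,1), (1,0,1), (0,-1,1)` are in the hull in all cases; so all points of `MH` are. -/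
def S_WMH : Prop := ∀ V : Finset (ℤ × ℤ × ℤ), Mini V → Hollow (hull V) → WIn V → (1, -1, 3) ∈ V → hull MH ⊆ hull V

/-- [HW] Uses [H2], [frM], [fr1], [W0], [Wh], [nrm3], [WMH]. Proof. By [H2] and `Hollow`: `a₁, a₂, a₃ ∈ V`, `a₁ + a₂ + a₃ = 3 x`, `det3 (a₁ - x) (a₂ - x) c = 1`. The frame `f₀ = fr x (a₁ - x) (a₂ - x) c` maps `(1,0,0), (0,1,0), (-1,-1,0)` to `a₁, a₂, a₃`; let `V₁` be the set of [frM]: `WIn V₁`, `Mini V₁`, `Hollow (hull V₁)`. By `pc` not all points of `V₁` have `z = 0`; composing with the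
reflection `z ↦ -z` if necessary, some `v ∈ V₁` has `z > 0`. [W0], [Wh]: `z ∈ {0, 1, 3}` on `V₁`. If `z ∈ {0, 1}` on `V₁`: take `f w = f₀ (w.2.1, w.2.2, w.1)`. If some `u ∈ V₁` has `z = 3`: [Wh], [nrm3] and [frM] give `V₂` with `WIn V₂`, `(1, -1, 3) ∈ V₂`, and [WMH] gives `hull MH ⊆ hull V₂ = f ⁻¹' (hull V)` for the composed frame. -/
def S_HW : Prop := ∀ V : Finset (ℤ × ℤ × ℤ), Mini V → Hollow (hull V) → ∀ x : ℤ × ℤ × ℤ, ip x ∈ hull V → x ∉ V →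
  (∃ f, IsFr f ∧ ∀ v ∈ V, ∃ w : ℤ × ℤ × ℤ, f (ip w) = ip v ∧ (w.1 = 0 ∨ w.1 = 1)) ∨ ∃ f, IsFr f ∧ hull MH ⊆ f ⁻¹' (hull V)

/-! ## G. Eight points -/

/-- [uni] Uses [pln], [emp2]. Proof. [pln]: `A - C = A'.1 a + A'.2 b`, `B - C = B'.1 a + B'.2 b`, `D = det2 A' B' > 0`. If `D ≥ 2`, [emp2] gives an integer point `X ≠ 0, A', B'` of the triangle `0 A' B'`, so an integer point `y = C + X.1 a + X.2 b ≠ A, B, C` of the triangle `A B C ⊆ hull V`; `y ∈ V` (`all`), and `ip y ∈ hull (V.erase y)` because `A, B, C ∈ V.erase y`: contradiction to `ext`. So `D = 1` and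
`det3 (A - C) (B - C) c = D det3 a b c = 1`. -/
def S_uni : Prop := ∀ V : Finset (ℤ × ℤ × ℤ), Emp V → ∀ A ∈ V, ∀ B ∈ V, ∀ C ∈ V, cr (A - C) (B - C) ≠ 0 → ∃ c, det3 (A - C) (B - C) c = 1

/-- [gap] Proof. Write `F_b(k) = k b / q` (floor), similarly `F_c, F_d`; the identity `F_b = F_c + F_d` holds on `[0, q - 1]`; `F_b(k + 1) - F_b(k) ≤ 1` (as `b < q`). Suppose `c, d ≥ 2`; then `b ≥ 3`. Let `κ` be the least `k` with `F_b(k) ≥ 1`, i.e. `(κ - 1) b < q ≤ κ b`; `κ ≥ 3` because `2 b < q`, `κ ≤ q - 1`, `F_b(κ) = 1`. One of `F_c(κ), F_d(κ)` is `1`, the other `0`; by symmetry let `F_c(κ) = 1`,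
`F_d(κ) = 0`. `F_d(q - 1) = d - 1 ≥ 1`. Let `k₀` be the least `k` with `F_d(k) ≥ 1`: `κ < k₀ ≤ q - 1`, and `F_d` jumps at `k₀`, hence `F_c` does not: `m = F_c(k₀) = F_c(k₀ - 1) ≥ 1`. Let `k₁ ≤ k₀ - 1` be the least `k` with `F_c(k) ≥ m` and `k₂ ≥ k₀ + 1` the least `k` with `F_c(k) ≥ m + 1`; `k₂ ≤ q` as `F_c(q) = c ≥ m + 1` (`F_c(q - 1) = c - 1`). `F_b` jumps at `k₁, k₀` and `k₂` (at `k₂ ≤ q - 1` by the identity;
at `k₂ = q` because `F_b(q) = b > F_b(q - 1)`). If `F_b` jumps at `x < y`, then `F_b(y) ≥ F_b(x - 1) + 2`, so `(y - x + 1) b > q`, hence `y - x + 1 ≥ κ`. So `k₂ - k₁ ≥ 2 (κ - 1) > κ`. On the other hand `F_c(k₁ + κ) ≥ F_c(k₁) + F_c(κ) ≥ m + 1`, so `k₂ ≤ k₁ + κ`: a contradiction. -/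
def S_gap : Prop := ∀ q b c d : ℤ, 3 ≤ q → 0 < b → 0 < c → 0 < d → 2 * b < q → 1 + b = c + d →
  (∀ k : ℤ, 0 < k → k < q → k * b / q = k * c / q + k * d / q) → c = 1 ∨ d = 1

/-- [white] Uses [gap]. Proof. Let `x' = (-x) % q`, `y' = (-y) % q`, `z' = (x + y - 1) % q`, and for `0 < k < q` let `s(k) = k + (-k x) % q + (-k y) % q + (k (x + y - 1)) % q`, divisible by `q`. By hypothesis `s(k) ≥ 2 q`. The same for `q - k`; for each of the four terms the remainder for `q - k` is `q -` the remainder for `k`, or both are `0`; so `2 q ≤ s(q - k) = (number of nonzero remainders) q - s(k)`, which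
forces all four remainders nonzero and `s(k) = 2 q`. `q = 2`: `x' = 1`, so `2 ∣ x - 1`. `q ≥ 3`: `1 + x' + y' + z' = 2 q` (`k = 1`). Not all of `2 x', 2 y', 2 z'` are `> q`: otherwise for `k = 2 < q` the remainders are `2x' - q` etc. and `s(2) = 2 + 2 (2 q - 1) - 3 q = q`. None equals `q` (the remainder for `k = 2` would be `0`). Let `b` be one with `2 b < q` and `q - c`, `q - d` the other two: `1 + b = c + d`. For `0 < k < q`,
`(k (q - c)) % q = q - (k c) % q` (nonzero), so `s(k) = 2q` reads `k + (k b) % q = (k c) % q + (k d) % q`, and with `(k b) % q = k b - q (k b / q)` etc. the identity of [gap] follows. [gap] gives `c = 1` or `d = 1`: one of `x', y', z'` is `q - 1`: `q ∣ x - 1`, `q ∣ y - 1` or `q ∣ x + y`. -/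
def S_white : Prop := ∀ q x y : ℤ, 2 ≤ q → (∀ k : ℤ, 0 < k → k < q → q < (-k * x) % q + (-k * y) % q + k) → q ∣ x - 1 ∨ q ∣ y - 1 ∨ q ∣ x + y

/-- [det2s] Proof. Suppose all such determinants are in `{-1, 0, 1}`. Take `v₀, v₁, v₂, v₃ ∈ V` in the classes `(0,0,0), (1,0,0), (0,1,0), (0,0,1)`; `det3 (v₁ - v₀) (v₂ - v₀) (v₃ - v₀)` is odd, so `±1`, and the frame `fr v₀ (v₁ - v₀) (v₂ - v₀) (v₃ - v₀)` reduces to the case `v₀ = 0`, `v_i = e_i` (classes modulo `2` are preserved or transported by an affine bijection: again all classes occur; determinants are preserved up to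
sign). Let `A, B, C, D ∈ V` be in the classes `(1,1,0), (1,0,1), (0,1,1), (1,1,1)`. For `w ∈ V` the determinants with three of `0, e₁, e₂, e₃` say `|w.1|, |w.2.1|, |w.2.2|, |1 - w.1 - w.2.1 - w.2.2| ≤ 1`. So `A ∈ {(1,1,0), (1,-1,0), (-1,1,0)}`, `B ∈ {(1,0,1), (1,0,-1), (-1,0,1)}`, `C ∈ {(0,1,1), (0,1,-1), (0,-1,1)}`,
`D ∈ {(1,1,-1), (1,-1,1), (-1,1,1)}`. In each of the `81` cases one of the six tetrahedra `0 A B C`, `e₁ A B D`, `e₂ A C D`, `0 e₁ C D`, `0 e₂ B D`, `0 e₃ A D` has `|det| ≥ 2` (checked by computer; `decide` or `simp`/`norm_num` on each case). -/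
def S_det2s : Prop := ∀ V : Finset (ℤ × ℤ × ℤ), (∀ a b c : ℤ, ∃ v ∈ V, (2 : ℤ) ∣ v.1 - a ∧ (2 : ℤ) ∣ v.2.1 - b ∧ (2 : ℤ) ∣ v.2.2 - c) →
  ∃ v₀ ∈ V, ∃ v₁ ∈ V, ∃ v₂ ∈ V, ∃ v₃ ∈ V, 2 ≤ |det3 (v₁ - v₀) (v₂ - v₀) (v₃ - v₀)|

/-- [W8n] Normal form of an empty tetrahedron (White). Uses [uni], [white], [fr1]. Proof. [uni] for `v₁, v₂, v₀` (the vector product is nonzero because the determinant is) gives `c` with `det3 (v₁ - v₀) (v₂ - v₀) c = 1`; replacing `c` by `-c` if necessary, the frame `f₀ = fr v₀ (v₁ - v₀) (v₂ - v₀) (±c)` maps `0, e₁, e₂` to `v₀, v₁, v₂` and some `(x, y, q)`, `q ≥ 2`, to `v₃` (`q = |det|`; determinants are preserved up to sign).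
For `0 < k < q` let `i, j` be integers with `λ₁ = i - k x/q = ((-k x) % q)/q`, `λ₂ = j - k y/q = ((-k y) % q)/q`. If `λ₁ + λ₂ + k/q ≤ 1`, then `(i, j, k) = λ₁ e₁ + λ₂ e₂ + (k/q)(x, y, q)` is an integer point of the tetrahedron, so its image `w` is in `V` (`all`), and it is none of the four vertices (`0 < k < q`), so `ip w ∈ hull (V.erase w)`, contradiction to `ext`. So the hypothesis of [white] holds. If `x = 1 + q m`: compose with
`(X, Y, Z) ↦ (X + m Z, Y, Z)`. If `y = 1 + q m`: with `(X, Y, Z) ↦ (Y, X + m Z, Z)` (the new `y` is `x`). If `x + y = q m`: with `(X, Y, Z) ↦ (1 - X - Y + m Z, Y, Z)`, which maps `0 ↦ e₁`, `e₁ ↦ 0`, `e₂ ↦ e₂`, `(1, y, q) ↦ (-y + m q, y, q) = (x, y, q)`. -/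
def S_W8n : Prop := ∀ V : Finset (ℤ × ℤ × ℤ), Emp V → ∀ v₀ ∈ V, ∀ v₁ ∈ V, ∀ v₂ ∈ V, ∀ v₃ ∈ V, 2 ≤ |det3 (v₁ - v₀) (v₂ - v₀) (v₃ - v₀)| →
  ∃ f, IsFr f ∧ ∃ y : ℤ, ∃ u₀ ∈ V, ∃ u₁ ∈ V, ∃ u₂ ∈ V, ∃ u₃ ∈ V, f (ip (0, 0, 0)) = ip u₀ ∧ f (ip (1, 0, 0)) = ip u₁ ∧ f (ip (0, 1, 0)) = ip u₂ ∧
    f (ip (1, y, |det3 (v₁ - v₀) (v₂ - v₀) (v₃ - v₀)|)) = ip u₃

/-- [Zpyr] A parallelogram and an apex at distance at least two. Uses [uni], [fr1]. Proof. [uni] gives `c` with `det3 (A - C) (B - C) c = 1`; in the frame `fr C (A - C) (B - C) (±c)` the five points become `C = 0`, `A = e₁`, `B = e₂`, `A + B - C = (1, 1, 0)`, `D = (u₁, u₂, q)` with `q ≥ 2`. Let `i` be the integer with `u₁ ≤ q i ≤ u₁ + q - 1` (ceiling of `u₁/q`), `j` similarly. The point `(i, j, 1)` is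
`(1/q) D + (1 - 1/q)(s, t, 0)` with `(s, t) = ((q i - u₁)/(q - 1), (q j - u₂)/(q - 1)) ∈ [0, 1]²`, so it is an integer point of the hull of the five points; its image `w` is in `V` (`all`), different from the five points (their `z` is `0` or `q`), so `ip w ∈ hull (V.erase w)`: contradiction to `ext`. -/
def S_Zpyr : Prop := ∀ V : Finset (ℤ × ℤ × ℤ), Emp V → ∀ A ∈ V, ∀ B ∈ V, ∀ C ∈ V, ∀ D ∈ V, A + B - C ∈ V → 2 ≤ |det3 (A - C) (B - C) (D - C)| → False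

/-- [W8] Uses [det2s], [W8n], [Zpyr], [frM], [fr1]. Proof. The points of `V` are the integer points of the hull, so they meet all classes, and [det2s] gives a determinant `≥ 2`; let `q ≥ 2` be the maximum of `|det3 (v₁ - v₀) (v₂ - v₀) (v₃ - v₀)|` over `v_i ∈ V`. [W8n] and [frM] give a frame `f` and `V'` (`Emp V'`, all determinants still `≤ q`) with `0, e₁, e₂, D = (1, y, q) ∈ V'`. `q` and `y` are coprime: if a prime (or any integer) `r ≥ 2` divides both, then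
`e₁ + (0, y/r, q/r)` is an integer point of the segment `e₁ D`, so in `V'`, against `ext`. Let `v = (X, Y, Z) ∈ V'`. The four determinants with three of `0, e₁, e₂, D` give `|Z| ≤ q`, `|q X - Z| ≤ q`, `|q Y - y Z| ≤ q`, `|q - q X - q Y + y Z| ≤ q`. The sums of the first two and of the last two show `X ∈ {-1, 0, 1, 2}` (`|q X| ≤ 2 q`, `|q (1 - X)| ≤ 2 q`). If `X = 2`: `Z ≥ q`, so `Z = q`, `|Y - y| ≤ 1`, `|-1 - Y + y| ≤ 1`: `Y = y` or `Y = y - 1`;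
`v = D + e₁ - 0` or `v = D + e₁ - e₂`. If `X = -1`: `q (1 - X) = 2 q` forces `q Y - y Z = q` and `q - q X - q Y + y Z = q`; so `q ∣ y Z`, `q ∣ Z`, and `-q ≤ Z ≤ 0`: `Z = 0`, `Y = 1`, `v = e₂ + 0 - e₁`, or `Z = -q`, `Y = 1 - y`, `v = e₂ + 0 - D`. In these four cases [Zpyr] applies (the fourth point of the tetrahedron is the apex; the determinant is `±q`). So `X ∈ {0, 1}` for all `v ∈ V'`. -/
def S_W8 : Prop := ∀ V : Finset (ℤ × ℤ × ℤ), Emp V → PC3 (hull V) → ∃ f, IsFr f ∧ ∀ v ∈ V, ∃ w : ℤ × ℤ × ℤ, f (ip w) = ip v ∧ (w.1 = 0 ∨ w.1 = 1)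

/-! ## H. The exceptional polytope `MH` -/

/-- [MHv] The inequalities describe the hull. Proof. All in `ℝ`. Let `γ = max(0, (z - N)/2, x - y - N, z - N - x, y - N + z)`; each of these five numbers is `≤` each of `z/3, N - x - y, N + z - x + 2y, N - z + 2x - y` (the twenty inequalities all follow from the ten of `inMH` and `N > 0` by linear arithmetic). Put `α = N - z + 2γ ≥ 0`, `β = z - 3γ ≥ 0`,
`a = x - γ`, `b = y + γ`. Then `a + b ≤ α + β`, `a - 2b ≤ α + 2β`, `b - 2a ≤ α`, `b ≤ α`, `-a ≤ α`, `a - b ≤ α + β`. Let `s = max(0, a + b - α, a - α)`; it is `≤` each of `β, (α + 2a - b)/2, 2β + α - a + 2b, α + a`. Let `t = max(0, (a - 2b - α - s)/2)`; it is `≤` each of `β - s, α - a - b + s, α + 2a - b - 2s`. With `a' = a - s`, `b' = b + t`: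
`a' + b' ≤ α`, `a' - 2b' ≤ α`, `b' - 2a' ≤ α`, so the weights `(α + 2a' - b')/3, (α + 2b' - a')/3, (α - a' - b')/3` (at `(1,0,0), (0,1,0), (-1,-1,0)`), `s, t, β - s - t` (at `(1,0,1), (0,-1,1), (0,0,1)`), `γ` (at `(1,-1,3)`) are `≥ 0`, their sum is `N`, and the combination is `(x, y, z)`. Divide by `N`. -/
def S_MHv : Prop := ∀ N x y z : ℤ, 0 < N → inMH N x y z → ∃ u ∈ hull MH, (x : ℝ) = N * u.1 ∧ (y : ℝ) = N * u.2.1 ∧ (z : ℝ) = N * u.2.2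

/-- [cov1] A class with `Z ≤ p - 2` is met by `(p - 1) MH`. Proof: decision tree found by linear programming (generated Lean proof, helper3 has it). -/
def S_cov1 : Prop := ∀ p X Y Z : ℤ, 7 ≤ p → 0 ≤ X → X < p → 0 ≤ Y → Y < p → 0 ≤ Z → Z ≤ p - 2 →
  ∃ i j k : ℤ, inMH (p - 1) (X + i * p) (Y + j * p) (Z + k * p)

/-- [cov2] A class with `Z = p - 1` is met by `(p - 1) MH`, or three times the class by `(p - 3) MH`. Proof: decision tree (generated Lean proof, helper3 has it). -/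
def S_cov2 : Prop := ∀ p X Y Z : ℤ, 7 ≤ p → 0 ≤ X → X < p → 0 ≤ Y → Y < p → Z = p - 1 →
  ∃ i j k : ℤ, inMH (p - 1) (X + i * p) (Y + j * p) (Z + k * p) ∨ inMH (p - 3) (3 * X + i * p) (3 * Y + j * p) (3 * Z + k * p)

/-- [Mh] Uses [MHv], [cov1], [cov2]. Proof. Let `(a, b, c)` be the class and `X = (-a) % p`, `Y = (-b) % p`, `Z = (-c) % p`. If `Z ≤ p - 2`: [cov1] and [MHv] give an integer point of `(p - 1) • hull MH` congruent to `(-a, -b, -c) ≡ (p - 1)(a, b, c)`: the criterion for `h = p - 1` is violated. If `Z = p - 1`: the same, or an integer point of `(p - 3) • hull MH` congruent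
to `-3 (a, b, c) ≡ (p - 3)(a, b, c)`: `h = p - 3`. -/
def S_Mh : Prop := ∀ p : ℕ, 7 ≤ p → ¬ Cr (hull MH) p

/-! ## I. Assembly -/

/-- [H] Uses [H1], [HW], [W8], [Mh], [fr1], [fr2], [frM]. Proof. [H1]: `V` with `Mini V`, `hull V ⊆ P`; `Hollow (hull V)` because inner points of `hull V` are inner points of `P`. If some integer point of `hull V` is not in `V`, [HW] applies: the second alternative is impossible (`Cr (f ⁻¹' P) p` by [fr2], so `Cr (hull MH) p` because `hull MH ⊆ f ⁻¹' P`, against [Mh]). Otherwise `Emp V` and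
[W8] applies. In both cases there is a frame `f` such that all `v ∈ V` are `f (ip w)` with `w.1 ∈ {0, 1}`. Let `V₀` be the set `V'` of [frM] for this `f`: its elements `w` satisfy `f (ip w) = ip v ∈ P`, `w.1 ∈ {0, 1}` (frames are injective), and `hull V₀ = f ⁻¹' (hull V)` meets all classes. -/
def S_H : Prop := ∀ (P : Set (ℝ × ℝ × ℝ)) (p : ℕ), IsLP3 P → PC3 P → Hollow P → 7 ≤ p → Cr P p →
  ∃ f, IsFr f ∧ ∃ V₀ : Finset (ℤ × ℤ × ℤ), (∀ v ∈ V₀, ip v ∈ f ⁻¹' P ∧ (v.1 = 0 ∨ v.1 = 1)) ∧ PC3 (hull V₀)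

/-- [wid] Width one (helper85: `SI_WID` in `StmI3.lean`; there `Hollow` is defined with `interior`: an interior point is an inner point). -/
def S_wid : Prop := ∀ (P : Set (ℝ × ℝ × ℝ)) (p : ℕ), IsLP3 P → p.Prime → 13 ≤ p → Cr P p → Hollow P →
  ∀ V₀ : Finset (ℤ × ℤ × ℤ), (∀ v ∈ V₀, ip v ∈ P ∧ (v.1 = 0 ∨ v.1 = 1)) → PC3 (hull V₀) →
  ∃ C s t : ℤ, Odd C ∧ (p : ℤ) ∣ C ∧ ZEq P (fam C s t)

/-- [TH] Uses [H], [wid], [fr2]. Proof. [H] gives `f` and `V₀`; `f ⁻¹' P` satisfies the hypotheses of [wid] by [fr2]; `ZEq (f ⁻¹' P) (fam C s t)` gives `ZEq P (fam C s t)` by [fr2]. If `s > t` exchange them: `fam C s t = fam C t s`. -/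
def S_TH : Prop := ∀ (P : Set (ℝ × ℝ × ℝ)) (p : ℕ), IsLP3 P → PC3 P → Hollow P → p.Prime → 13 ≤ p → Cr P p →
  ∃ C s t : ℤ, Odd C ∧ (p : ℤ) ∣ C ∧ s ≤ t ∧ ZEq P (fam C s t)

/-- [T] Uses [N], [H], [wid], [fr2]. Proof. `P` is hollow by [N]; [H] gives `f` and `V₀`; `f ⁻¹' P` satisfies the hypotheses of [wid] by [fr2]; `ZEq (f ⁻¹' P) (fam C s t)` gives `ZEq P (fam C s t)` by [fr2]. If `s > t` exchange them: `fam C s t = fam C t s`. -/
def S_T : Prop := ∀ (P : Set (ℝ × ℝ × ℝ)) (p : ℕ), IsLP3 P → PC3 P → p.Prime → 163 ≤ p → Cr P p →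
  ∃ C s t : ℤ, Odd C ∧ (p : ℤ) ∣ C ∧ s ≤ t ∧ ZEq P (fam C s t)

/-- [main] Uses [T] and the pieces of `LC/StmC.lean` (`T3lp, T3crit, T3pc, T3zeq, five, occ, famcrit, famint, eqvtrans, eqvsymm, eqvip`). Proof. `←`: a prime `q` with `Criterion P q`: `OccursAt P q` (`Criterion.occursAt`); the family as in `[long]`. `→`: `OccursAt P h`, `h > 1`; `Criterion P h` (`OccursAt.weak`, `OccursWeaklyAt.criterion`), so `Criterion P p` for a prime divisor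
`p` of `h` (`Criterion.of_mul`). If `p ≤ 157` done. Otherwise `p ≥ 163` (the primes after `157`); if `Miss2 P`, then `Criterion P 2`; otherwise `PC3 (T3 P)` and [T] gives `ZEq (T3 P) (fam C s t)`, `p ∣ C`, `C` odd, so `|C| ≥ 163`: `InFam P` by `T3zeq`. -/
def S_main163 : Prop := ∀ P : Set (Fin 3 → ℝ), IsIntegerPolytope P → IsFullDimensional P →
  ((∃ h : ℕ, 1 < h ∧ OccursAt P h) ↔ (∃ q : ℕ, q.Prime ∧ q ≤ 157 ∧ Criterion P q) ∨ InFam P)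

end Pool.Agent.Lib.MP_0bc52e_nt.T
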