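import Pool.Agent.Lib.MP_0bc52e_nt.T.StmI2
import Pool.Agent.Lib.MP_0bc52e_nt.LC.StmB

/-!
# Polytopes of width one, part 3: from the plane to space, and extensions (MP_0bc52e_nt, `T/StmI3`)
-/

namespace Pool.Agent.Lib.MP_0bc52e_nt.LC

/-! ## I. Sections and maps of space -/

/-- [slc] Proof. `P = convexHull (ip '' V)`; each `w ∈ V` has `w.1 ∈ {0, 1}`. Then `slice P 0` is the hull of the points `ip2 w.2`, `w ∈ V`, `w.1 = 0`: `⊇` is clear (`y ↦ (0, y)` is affine); `⊆`: in a convex combination of points of `V` with first coordinate `0` the weights of the points with `w.1 = 1` vanish (their sum is the first coordinate); `Finset.mem_convexHull'` or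
`Finset.centerMass`; or: `P ⊆ {convex combinations (1-t) (0, α) + t (1, β)}`, i.e. `P` is contained in the set of all `((t), (1-t) α + t β)` with `α ∈ hull V₀`, `β ∈ hull V₁`, `t ∈ [0,1]` if both are nonempty (they are, by `PC3`), because this set is convex and contains `ip '' V`. Same for `slice P 1`. `PC2`: an integer point of `P` of the class `(0, a, b)` has even first coordinate in `[0,1]`,
so it is `0`; for `slice P 1` use the class `(1, a, b)`. -/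
def SI_slc : Prop := ∀ P : Set (ℝ × ℝ × ℝ), IsLP3 P → PC3 P → (∀ v ∈ P, 0 ≤ v.1 ∧ v.1 ≤ 1) →
  IsLP2 (slice P 0) ∧ IsLP2 (slice P 1) ∧ PC2 (slice P 0) ∧ PC2 (slice P 1) ∧ Convex ℝ (slice P 0) ∧ Convex ℝ (slice P 1) ∧ Convex ℝ P

/-- [cavd] Proof. Let `h = m + n`, `α ∈ slice P 0`, `β ∈ slice P 1`, `(Y, Z) = m α + n β` integers congruent to `h (b, c)`. The point `(n/h, Y/h, Z/h) = (m/h) (0, α) + (n/h) (1, β)` is in `P`, and `h` times it is the integer point `(n, Y, Z)`, congruent to `h (a, b, c)`. Contradiction to `Crit3`. -/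
def SI_cavd : Prop := ∀ (P : Set (ℝ × ℝ × ℝ)) (p : ℕ) (a b c : ℤ), Convex ℝ P → Crit3 P p a b c → ∀ m n : ℕ, 0 < m + n → m + n < p → (p : ℤ) ∣ (n : ℤ) - (m + n) * a →
  Avd (slice P 0) (slice P 1) p m n ((m + n) * b) ((m + n) * c)

/-- [lvm] Proof. `lv` is affine with integer coefficients (second coordinate `(e' - e) x + a y + b z + e`); its inverse, with `D = a d - b c = ±1`, is `(x, y, z) ↦ (x, D (d Y - b Z), D (-c Y + a Z))`, `Y = y - (e' - e) x - e`, `Z = z - (f' - f) x - f`. The sections: unfold. -/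
def SI_lvm : Prop := ∀ a b c d e f e' f' : ℤ, (a * d - b * c = 1 ∨ a * d - b * c = -1) → IsU3 (lv a b c d e f e' f') ∧
  ∀ P : Set (ℝ × ℝ × ℝ), slice (lv a b c d e f e' f' '' P) 0 = umap a b c d e f '' slice P 0 ∧
    slice (lv a b c d e f e' f' '' P) 1 = umap a b c d e' f' '' slice P 1

/-- [flm] Proof: `fl` is an involution. -/
def SI_flm : Prop := IsU3 fl ∧ ∀ P : Set (ℝ × ℝ × ℝ), slice (fl '' P) 0 = slice P 1 ∧ slice (fl '' P) 1 = slice P 0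

/-- [u3a] Proof: composition of affine maps with integer coefficients. -/
def SI_u3a : Prop := IsU3 id ∧ (∀ g₁ g₂ : ℝ × ℝ × ℝ → ℝ × ℝ × ℝ, IsU3 g₁ → IsU3 g₂ → IsU3 (g₂ ∘ g₁)) ∧
  (∀ g : ℝ × ℝ × ℝ → ℝ × ℝ × ℝ, IsU3 g → ∀ a b c : ℤ, ∃ a' b' c' : ℤ, g (ip (a, b, c)) = ip (a', b', c'))

/-- [u3b] Proof: as in `[umconv]`: affine images of convex hulls; the inverse map takes integer points to integer points, which gives the classes modulo 2 (the coefficients of `g` are integers, so `g` maps congruent integer points to congruent ones). -/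
def SI_u3b : Prop := ∀ g : ℝ × ℝ × ℝ → ℝ × ℝ × ℝ, IsU3 g → ∀ P : Set (ℝ × ℝ × ℝ),
  (IsLP3 P → IsLP3 (g '' P)) ∧ (PC3 P → PC3 (g '' P)) ∧ (Convex ℝ P → Convex ℝ (g '' P))

/-- [u3c] Proof: let `g v = M v + t` (integer `M`, `t`), with inverse `g' v = M' v + t'`, `M' M = 1`. An integer point `h g(u)` congruent to `h g(o)` gives `M' (h g(u) - h t) = h u`, an integer vector, and `h u - h o = M' (h g(u) - h g(o))` is divisible by `p`. So `Crit3 P p o` is violated. -/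
def SI_u3c : Prop := ∀ g : ℝ × ℝ × ℝ → ℝ × ℝ × ℝ, IsU3 g → ∀ (P : Set (ℝ × ℝ × ℝ)) (p : ℕ) (a b c a' b' c' : ℤ), g (ip (a, b, c)) = ip (a', b', c') →
  Crit3 P p a b c → Crit3 (g '' P) p a' b' c'

/-- [u3d] Proof: build the affine equivalence from `g` and its inverse (both are affine maps over `ℝ`); integer points go to integer points in both directions. -/
def SI_u3d : Prop := ∀ g : ℝ × ℝ × ℝ → ℝ × ℝ × ℝ, IsU3 g → ∀ P : Set (ℝ × ℝ × ℝ), ZEq P (g '' P)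

/-- [u3e] Proof: `g` is a homeomorphism (continuous with continuous inverse), so `interior (g '' P) = g '' interior P`; an integer point `q` of `interior (g '' P)` is `g` of the integer point `g' q` of `interior P`. -/
def SI_u3e : Prop := ∀ g : ℝ × ℝ × ℝ → ℝ × ℝ × ℝ, IsU3 g → ∀ P : Set (ℝ × ℝ × ℝ), Hollow P → Hollow (g '' P)

/-- [cres] Only residues matter, and subsets. Proof: `x - h a' = (x - h a) + h (a - a')`. -/
def SI_cres : Prop := ∀ (P P' : Set (ℝ × ℝ × ℝ)) (p : ℕ) (a b c a' b' c' : ℤ), P' ⊆ P → (p : ℤ) ∣ a' - a → (p : ℤ) ∣ b' - b → (p : ℤ) ∣ c' - c →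
  Crit3 P p a b c → Crit3 P' p a' b' c'

/-- [N7s] The same as `S_N7` with more information. Proof: the proof of `S_N7` (docstring in `LC/StmB.lean`, Lean proof in `LC/P/N7.lean`, to be copied and adapted) constructs the map `g (x, y, z) = (x, y, z - β - (e - β) x - (f - e) y)` with integers `β, e, f`, which is `IsU3` (inverse `z + β + (e-β) x + (f-e) y`), keeps the first two coordinates, and maps `P` onto `fam C s t`. The pieces used there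
(`[pair]`, `[only]`, `[edge]`) may be taken as hypotheses. -/
def SI_N7s : Prop := ∀ (P : Set (ℝ × ℝ × ℝ)) (p : ℕ) (a b c : ℤ), IsLP3 P → PC3 P → Trap P 2 1 → 7 ≤ p → Crit3 P p a b c → (p : ℤ) ∣ a - 2 → (p : ℤ) ∣ b →
  ∃ g : ℝ × ℝ × ℝ → ℝ × ℝ × ℝ, IsU3 g ∧ (∀ v, (g v).1 = v.1 ∧ (g v).2.1 = v.2.1) ∧
    ∃ C s t : ℤ, Odd C ∧ (p : ℤ) ∣ C ∧ s ≤ t ∧ g '' P = fam C s t

/-- [toT] Passage to the trapezoid. Here `A = slice P 0`, `B = slice P 1` have heights one and two in the second coordinate. Proof. `κ (x, y, z) = (1 - x, z + x, y)` is `IsU3` (inverse `(x, y, z) ↦ (1 - x, z, y - 1 + x)`). All integer points `w` spanning `P` have `w.1 ∈ {0,1}`; those with `w.1 = 0` are in `A`, so `0 ≤ w.2.2 ≤ 1`, those with `w.1 = 1` are in `B`, `-1 ≤ w.2.2 ≤ 1`. The images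
satisfy `0 ≤ x ≤ 1`, `0 ≤ y ≤ 2 - x`, and so does the hull. The corners: `(0,0), (0,1) ∈ A` give integer points of `κ '' P` over `(1,0)`, `(1,1)`; `(t,-1), (t',1) ∈ B` give points over `(0,0)`, `(0,2)`. `κ (a, b, c) = (1 - a, c + a, b)`. -/
def SI_toT : Prop := ∀ (P : Set (ℝ × ℝ × ℝ)) (p : ℕ) (y z : ℤ), IsLP3 P → (∀ v ∈ P, 0 ≤ v.1 ∧ v.1 ≤ 1) → Good p (slice P 0) (slice P 1) y z →
  ∃ κ : ℝ × ℝ × ℝ → ℝ × ℝ × ℝ, IsU3 κ ∧ Trap (κ '' P) 2 1 ∧ ∀ a b c : ℤ, κ (ip (a, b, c)) = ip (1 - a, c + a, b)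

/-- [I0] The case `m ≥ n`. Here `a ≡ n + 1 ...`: the hypothesis is that `m + n + 1 = p`, `n ≡ (p-1) a` modulo `p`. Proof. Let `A = slice P 0`, `B = slice P 1` (`[slc]`), `y = (p-1) b`, `z = (p-1) c`; `Avd A B p m n y z` by `[cavd]` (`m + n = p - 1`). If `m = n`, then `2n + 1 = p`; for `(n-1, n-1)`: `(n - 1) - (2n-2) a`: we have `p ∣ n - 2n a`, so `p ∣ 3 (n - 2 n a)`, and
`(n - 1) - (2n - 2) a - 3 (n - 2n a) = -(2n+1) + (4n + 2) a = -p + 2 p a`; so `[cavd]` gives `Avd A B p (n-1) (n-1) ((2n-2) b) ((2n-2) c)`, and `3y - (2n-2) b = (4n + 2) b = 2p b`: `[avdres]`. `[PL]`: `n = 1` and `Up (Good p)` with coefficients `a₁ b₁ c₁ d₁ e f e' f'`. Let `g₁ = lv a₁ b₁ c₁ d₁ e f e' f'` (`[lvm]`), `P₁ = g₁ '' P`: its sections are the sets in `Good`; levels are kept. `[toT]` gives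
`κ`; `P₂ = κ '' P₁`. `g₁` maps `o = (a, b, c)` to `(a, β, γ)` with `γ = c₁ b + d₁ c + (1-a) f + a f'`. `Good` says `p ∣ z' + 1` with `z' = c₁ y + d₁ z + m f + n f'`; as `n ≡ (p-1) a`, `m ≡ (p-1)(1 - a)` modulo `p`, `z' ≡ (p-1) γ ≡ -γ`, so `γ ≡ 1`. `n = 1` gives `a ≡ -1`. So `κ` maps `(a, β, γ)` to `(1 - a, γ + a, β)` with `1 - a ≡ 2`, `γ + a ≡ 0`. `[N7s]` for `P₂`
(`[u3b]`, `[u3c]`) gives `g₃`, keeping the first two coordinates. `g = g₃ ∘ κ ∘ g₁`; `(a', b', c') = g (a,b,c)`, `a' ≡ 2`, `b' ≡ 0`. Last, `c' ≡ 1`: `[edge]` for `fam C s t` and `A = (2, 0)`, `E = (1, 0)`, `e = 0`, `B = (0,0)`, `β = 0` (`ip (1,0,0), ip (1,0,1), ip (0,0,0) ∈ fam C s t`). -/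
def SI_I0 : Prop := ∀ (P : Set (ℝ × ℝ × ℝ)) (p m n : ℕ) (a b c : ℤ), IsLP3 P → PC3 P → (∀ v ∈ P, 0 ≤ v.1 ∧ v.1 ≤ 1) → p.Prime → 13 ≤ p → Crit3 P p a b c →
  1 ≤ n → n ≤ m → m + n + 1 = p → (p : ℤ) ∣ (n : ℤ) - (p - 1) * a →
  ∃ g : ℝ × ℝ × ℝ → ℝ × ℝ × ℝ, IsU3 g ∧ (∃ C s t : ℤ, Odd C ∧ (p : ℤ) ∣ C ∧ s ≤ t ∧ g '' P = fam C s t) ∧
    ∃ a' b' c' : ℤ, g (ip (a, b, c)) = ip (a', b', c') ∧ (p : ℤ) ∣ a' - 2 ∧ (p : ℤ) ∣ b' ∧ (p : ℤ) ∣ c' - 1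

/-- [I] The theorem for polytopes of width one. Proof. By `[N5]` `a ≢ 0, 1` modulo `p`. Let `a₀ = a % p ∈ [2, p-1]`, `n = p - a₀`, `m = a₀ - 1`, so `m + n + 1 = p`, `m, n ≥ 1`, and `n - (p-1) a = p - a₀ + a - p a` is divisible by `p`. If `n ≤ m`: `[I0]`. Otherwise apply `[I0]` to `fl '' P` (`[flm]`, `[u3b]`, `[u3c]`; `fl` maps `(a,b,c)` to `(1-a, b, c)`) with `m, n` exchanged:
`m - (p-1)(1-a) = a₀ - 1 - p + 1 + (p - 1) a + ... = a₀ - a + p (a - 1)` is divisible by `p`; compose `g` with `fl`. -/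
def SI_I : Prop := ∀ (P : Set (ℝ × ℝ × ℝ)) (p : ℕ) (a b c : ℤ), IsLP3 P → PC3 P → (∀ v ∈ P, 0 ≤ v.1 ∧ v.1 ≤ 1) → p.Prime → 13 ≤ p → Crit3 P p a b c →
  ∃ g : ℝ × ℝ × ℝ → ℝ × ℝ × ℝ, IsU3 g ∧ (∃ C s t : ℤ, Odd C ∧ (p : ℤ) ∣ C ∧ s ≤ t ∧ g '' P = fam C s t) ∧
    ∃ a' b' c' : ℤ, g (ip (a, b, c)) = ip (a', b', c') ∧ (p : ℤ) ∣ a' - 2 ∧ (p : ℤ) ∣ b' ∧ (p : ℤ) ∣ c' - 1

/-! ## J. No points at the levels `≥ 2` -/

/-- [hit] Proof. `h = p - 1`, `β = p - 2 - 2α ≥ 0`. The point `(1/h) (α (2, y, z) + (1 + α) (0, η/(1+α), (C/2) η/(1+α)) + β (1, s₁/β, s₂/β))` is in `P` (the second point is on the segment from `(0,0,0)` to `(0,2,C)`, the third in the unit square at level `1`; if `β = 0`, then `s₁ = s₂ = 0` and the third term is dropped), the weights `α, 1 + α, β` have the sum `h`. `h` times it is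
`(2α + β, α y + η + s₁, α z + (C/2) η + s₂) = (p - 2, Y, Z)`, an integer point, and `p - 2 - h a ≡ -2 + a ≡ 0`, `Y - h b ≡ 0`, `Z - h c ≡ Z + c ≡ Z + 1 ≡ 0`. Contradiction to `Crit3`. -/
def SI_hit : Prop := ∀ (P : Set (ℝ × ℝ × ℝ)) (p : ℕ) (a b c C y z Y Z : ℤ) (α η s₁ s₂ : ℝ), Convex ℝ P → Crit3 P p a b c → 13 ≤ p → (p : ℤ) ∣ a - 2 → (p : ℤ) ∣ b → (p : ℤ) ∣ c - 1 →
  Six P C → ip (2, y, z) ∈ P → 0 ≤ α → 0 ≤ η → η ≤ 2 + 2 * α → 0 ≤ s₁ → 0 ≤ s₂ → s₁ ≤ p - 2 - 2 * α → s₂ ≤ p - 2 - 2 * α →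
  α * y + η + s₁ = Y → α * z + C / 2 * η + s₂ = Z → (p : ℤ) ∣ Y → (p : ℤ) ∣ Z + 1 → False

/-- [cas] Such numbers exist. Proof. `C ≠ 0` and `p ∣ C`, so `|C| ≥ 13`. Write `B = p - 2 - 2α`, `w = |y|`.
`y ≤ -1`, `C > 0`. (A) If `z ≥ 0` or `w + 2 > (p-2) |z|`: `E = z + C w/2 - 2`, `α = 1/E`, `η = α w`, `s₁ = 0`, `s₂ = B`, `Y = 0`, `Z = p - 1`. (For `z ≥ 0`: `E ≥ 13w/2 - 2 ≥ 9w/2`; otherwise `w + 2 > 11 |z| ≥ 11`, so `w ≥ 10` and `E ≥ 13w/2 - 2 - (w+2)/11 ≥ 6w`; so `w ≤ 2E` and `2 ≤ (p-2) E`, which give the constraints.) (B) If `z < 0` and `w + 2 ≤ (p-2)|z|`: `α = 1/|z|`, `η = 0`, `s₁ = α w`, `s₂ = 0`, `Y = 0`, `Z = -1`.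
`y ≤ -1`, `C < 0`. (A') If `z ≤ 2` or `w + 2 > (p-2)(z-2)`: `E = |C| w/2 - z`, `α = 1/E`, `η = α w`, `s₁ = s₂ = 0`, `Y = 0`, `Z = -1` (`E ≥ 13w/2 - 2 ≥ 9w/2`, resp. `w ≥ 10`, `E ≥ 13w/2 - 2 - (w+2)/11 ≥ 6w`). (B') If `z ≥ 3` and `w + 2 ≤ (p-2)(z-2)`: `α = 1/(z-2)`, `η = 0`, `s₁ = α w`, `s₂ = B`, `Y = 0`, `Z = p - 1`.
`y = 0`: if `z ≤ -1` use (B), if `z ≥ 3` use (B') (with `w = 0`). If `0 ≤ z ≤ 2`: let `z' = z + C`, so `z' ≥ 13` or `z' ≤ -11`. If `z' ≤ -1`: `α = 1/|z'|`, `η = 2 + 2α`, `s₁ = B`, `s₂ = 0`, `Y = p`, `Z = C - 1`. If `z' ≥ 3`: `α = 1/(z'-2)`, `η = 2 + 2α`, `s₁ = B`, `s₂ = B`, `Y = p`, `Z = C + p - 1`.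
`y ≥ 1`: write `η = 2 + 2α - η'`, `s₁ = B - s'`, `z' = z + C`; then `Y = p` iff `η' + s' = α y`, and `α z + (C/2) η + s₂ = α z' + C - (C/2) η' + s₂`. If `C > 0` use (A'), (B') with `z'` for `z`, `η'` for `η`, `s'` for `s₁` (the sign of `C η'` is reversed): (A') `Z = C - 1`; (B') `Z = C + p - 1`. If `C < 0` use (A), (B) in the same way: (A) `Z = C + p - 1`; (B) `Z = C - 1`. -/
def SI_cas : Prop := ∀ (p : ℕ) (C y z : ℤ), 13 ≤ p → C ≠ 0 → (p : ℤ) ∣ C → ∃ (α η s₁ s₂ : ℝ) (Y Z : ℤ), 0 ≤ α ∧ 0 ≤ η ∧ η ≤ 2 + 2 * α ∧ 0 ≤ s₁ ∧ 0 ≤ s₂ ∧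
  s₁ ≤ p - 2 - 2 * α ∧ s₂ ≤ p - 2 - 2 * α ∧ α * y + η + s₁ = Y ∧ α * z + C / 2 * η + s₂ = Z ∧ (p : ℤ) ∣ Y ∧ (p : ℤ) ∣ Z + 1

/-- [R2] Proof. `x = 2`: nothing to do. `x ≥ 3`: `s = 1/(x-1) ∈ (0, 1/2]`. For `u, w ∈ [0,1]` the point `(1-s)(1, u, w) + s (x, y, z) = (2, (1-s) u + s y, (1-s) w + s z)` is in `P`. `y' = ⌈y/(x-1)⌉` satisfies `0 ≤ y' - s y ≤ (x-2)/(x-1) = 1 - s` (`y/(x-1)` is a multiple of `1/(x-1)`; as in `[row]`), so `u = (y' - s y)/(1-s) ∈ [0,1]`; the same for `z'`. -/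
def SI_R2 : Prop := ∀ (P : Set (ℝ × ℝ × ℝ)) (x y z : ℤ), Convex ℝ P → ip (1, 0, 0) ∈ P → ip (1, 0, 1) ∈ P → ip (1, 1, 0) ∈ P → ip (1, 1, 1) ∈ P → 2 ≤ x → ip (x, y, z) ∈ P →
  ∃ y' z' : ℤ, ip (2, y', z') ∈ P

/-! ## K. No points at the levels `≤ -1` for hollow polytopes -/

/-- [int] Proof. Let `δ > 0` be small and `|x'|, |y' - y₀|, |z' - z₀| < δ`. If `x' ≥ 0`: `t = x'/u.1`, `(x', y', z') = (1-t) (0, y'', z'') + t u` with `y'' = (y' - t u.2.1)/(1-t)`, which is within `ε` of `y₀` if `δ` is small (e.g. `t ≤ 1/2` and `|y'' - y₀| ≤ 2 (δ + t (|y₀| + |u.2.1|))`); convexity. If `x' < 0` use `w`. So a neighbourhood is in `P`. -/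
def SI_int : Prop := ∀ (P : Set (ℝ × ℝ × ℝ)) (u w : ℝ × ℝ × ℝ) (y₀ z₀ ε : ℝ), Convex ℝ P → u ∈ P → 0 < u.1 → w ∈ P → w.1 < 0 → 0 < ε →
  (∀ y z : ℝ, |y - y₀| ≤ ε → |z - z₀| ≤ ε → (0, y, z) ∈ P) → (0, y₀, z₀) ∈ interior P

/-- [cone] A point beyond a corner of the unit square makes this corner an inner point. Proof. By the symmetries `(x,y) ↦ (1-x, y)`, `(x, 1-y)` consider `μ > 1`, `ν > 1` and the corner `(1,1)`. The set `F` contains the hull of `[0,1]²` and `(μ, ν)`. The corner is in the interior of the triangle `(1,0), (0,1), (μ,ν)`: its coordinates there are: `(1,1) = w₁ (1,0) + w₂ (0,1) + w₃ (μ,ν)` with `w₃ = 1/(μ+ν-1)`,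
`w₁ = (ν - 1)/(μ+ν-1)... ` precisely `w₁ = 1 - w₃ μ = (ν-1)/(μ+ν-1)`, `w₂ = 1 - w₃ ν = (μ-1)/(μ+ν-1)`, all positive, sum `1`; for `(y, z)` near `(1,1)` the weights `w₃ = (y+z-1)/(μ+ν-1)`, `w₁ = y - w₃ μ`, `w₂ = z - w₃ ν` are still positive. -/
def SI_cone : Prop := ∀ (F : Set (ℝ × ℝ)) (μ ν : ℝ), Convex ℝ F → S4 F → (μ, ν) ∈ F →
  ((1 < μ ∧ 1 < ν) ∨ (1 < μ ∧ ν < 0) ∨ (μ < 0 ∧ 1 < ν) ∨ (μ < 0 ∧ ν < 0)) →
  ∃ (i j : ℤ) (ε : ℝ), 0 < ε ∧ ∀ y z : ℝ, |y - i| ≤ ε → |z - j| ≤ ε → (y, z) ∈ F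

/-- [cross] A long segment of direction about `(1,-1)` enters one of the four cones. Proof for `s ≥ 6`: `Δ = lam (s+1) ≥ 7/2`, `Δ' = lam s ≥ 3`; the point at `t` is `(μ + t Δ, ν - t Δ')`. Suppose `t = 0` and `t = 1` are in no cone, i.e. `μ ∈ [0,1]` or `ν ∈ [0,1]`, and the same for the end. If `μ ∈ [0,1]`: the end has first coordinate `> 1`, so `ν - Δ' ∈ [0,1]`, `ν ≥ 3`;
`t = (3/2 - μ)/Δ ≤ 1`: the point is `(3/2, ν - (3/2 - μ) s/(s+1))`, second coordinate `≥ 3/2 > 1`. If `μ > 1`, `ν ∈ [0,1]`: `t = 1` gives `(> 1, < 0)`. If `μ < 0`, `ν ∈ [0,1]`: the end has second coordinate `≤ -2`, so its first coordinate is in `[0,1]`; `t = 1/2`: first coordinate `≤ 1 - Δ/2 < 0`, second `≤ 1 - 3/2 < 0`.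
`s ≤ -7`: exchange the two coordinates: with `s' = -s - 1 ≥ 6` the second coordinate increases by `lam (s' + 1)` and the first decreases by `lam s'`. -/
def SI_cross : Prop := ∀ μ ν lam s : ℝ, 1 / 2 ≤ lam → lam ≤ 1 → (6 ≤ s ∨ s ≤ -7) → ∃ t : ℝ, 0 ≤ t ∧ t ≤ 1 ∧
  ((1 < μ + t * (lam * (s + 1)) ∧ 1 < ν - t * (lam * s)) ∨ (1 < μ + t * (lam * (s + 1)) ∧ ν - t * (lam * s) < 0) ∨
    (μ + t * (lam * (s + 1)) < 0 ∧ 1 < ν - t * (lam * s)) ∨ (μ + t * (lam * (s + 1)) < 0 ∧ ν - t * (lam * s) < 0))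

/-- [negZ] Middle section with the parallelogram. Proof. Let `F = slice P 0` and `G = {(μ, ν) | (μ + ν, s₀ μ + (s₀+1) ν) ∈ F}`, convex, `S4 G` (the four points `(0,0), (1,s₀), (1,s₀+1), (2, 2s₀+1)` of `F`). Let `j = -x ≥ 1`, `lam = j/(j+1) ∈ [1/2, 1]`. For `t ∈ [0,1]` the point `(1/(j+1)) (x, y, z) + (j/(j+1)) (1, t, 0)` of `P` has first coordinate `0`, so
`(y/(j+1) + t lam, z/(j+1)) ∈ F`; its `(μ, ν)`, with `ν = Z - s₀ Y`, `μ = (s₀+1) Y - Z` for `(Y, Z) ∈ F`, is `(μ₀ + t lam (s₀+1), ν₀ - t lam s₀)`. `[cross]` (`s₀ ≥ 6` or `s₀ ≤ -7`) and `[cone]` give an integer point `(i, j')` and `ε` with the `ε`-neighbourhood in `G`; so a neighbourhood of the integer point `(i + j', s₀ i + (s₀+1) j')` is in `F` (`ε' = ε/(2|s₀| + 2)`).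
`[int]` with `u = (1,0,0)`, `w = (x,y,z)`. -/
def SI_negZ : Prop := ∀ (P : Set (ℝ × ℝ × ℝ)) (s₀ x y z : ℤ), Convex ℝ P → Six P (2 * s₀ + 1) → (6 ≤ s₀ ∨ s₀ ≤ -7) → ip (0, 1, s₀) ∈ P → ip (0, 1, s₀ + 1) ∈ P →
  x ≤ -1 → ip (x, y, z) ∈ P → ¬ Hollow P

/-- [negW] Middle section with a triangle. Proof. First `3 ≤ 2e - C`. The triangle `(0,0), (2,C), (1,e)` in `slice P 0` contains all `(y, z)` with `|y - 1| ≤ ε`, `|z - (e-1)| ≤ ε`, `ε = 1/(8 (|C| + |e| + 1))`: the three affine functions `z - (C/2) y`, `e y - z`, `(C - e)(y - 1) + e - z`, nonnegative exactly on the triangle, are at `(1, e-1)` equal to `e - 1 - C/2 ≥ 1/2`, `1`, `1`. (Weights: with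
`D = e - C/2 > 0`, the weight of `(1,e)` is `(z - (C/2) y)/D`, of `(0,0)` `((C - e)(y-1) + e - z)/(2D)`, of `(2, C)` `(e y - z)/(2D)`.) `[int]` with `u = (1,0,0)`, `w = (x,y,z)`: `(0, 1, e-1)` is in the interior. If `2e - C ≤ -3`: the same with `(1, e+1)`. -/
def SI_negW : Prop := ∀ (P : Set (ℝ × ℝ × ℝ)) (C e x y z : ℤ), Convex ℝ P → Six P C → ip (0, 1, e) ∈ P → 3 ≤ |2 * e - C| → x ≤ -1 → ip (x, y, z) ∈ P → ¬ Hollow P

/-- [WID] Proof. `P₀ = convexHull (ip '' V₀) ⊆ P` (`P` is convex), `IsLP3`, `PC3`, levels in `[0,1]`; `Crit3 P₀ p a b c` (`[cres]`). `[I]` for `P₀` gives `g`, `C`, `s`, `t`, `(a',b',c')`. Let `P' = g '' P ⊇ fam C s t`: `IsLP3`, convex (`[u3b]`), `Crit3 P' p a' b' c'` (`[u3c]`), hollow (`[u3e]`), `PC3` (it contains `g '' P₀`, `PC3` by `[u3b]`), `Six P' C`; `C ≠ 0` odd, `p ∣ C`, so `|C| ≥ 13`, `C = 2s₀ + 1` with `s₀ ≥ 6` or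 `s₀ ≤ -7`.
The integer points of `fam C s t` of the classes `(0,1,0)`, `(0,1,1)` modulo 2 have the first coordinate `0` and the second `1` (`0 ≤ x ≤ 1`, `0 ≤ y ≤ 2 - x` on `fam C s t`): two integers `d₁, d₂` of different parity with `ip (0,1,d_i) ∈ P'`. Also `(0, 1, C/2) ∈ P'` (midpoint). So either `s₀` and `s₀ + 1` are both in the column over `(0,1)` (if `d₁ ≤ s₀ < s₀ + 1 ≤ d₂` or conversely, by convexity; or if one of them is `s₀` and ...), or some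
`e` in the column has `|2e - C| ≥ 3` (if `d₁, d₂ ≥ s₀ + 1`, the larger one is `≥ s₀ + 2`; if `d₁, d₂ ≤ s₀`, the smaller one is `≤ s₀ - 1`). Let `w` be an integer vector with `ip w ∈ P'`. `w.1 ≥ 2`: `[R2]`, `[cas]`, `[hit]`: contradiction. `w.1 ≤ -1`: `[negZ]` or `[negW]`: contradiction to hollow. So the levels of `P'` (a hull of integer points) are in `[0,1]`; `[I]` for `P'` and `[u3d]` give
`ZEq P' (fam C' s' t')`, and `ZEq P P'`; `[zeq]`. -/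
def SI_WID : Prop := ∀ (P : Set (ℝ × ℝ × ℝ)) (p : ℕ) (V₀ : Finset (ℤ × ℤ × ℤ)), p.Prime → 13 ≤ p → IsLP3 P → (∃ a b c : ℤ, Crit3 P p a b c) → Hollow P →
  (∀ v ∈ V₀, ip v ∈ P) → PC3 (convexHull ℝ (ip '' (V₀ : Set (ℤ × ℤ × ℤ)))) → (∀ v ∈ V₀, v.1 = 0 ∨ v.1 = 1) →
  ∃ C s t : ℤ, Odd C ∧ (p : ℤ) ∣ C ∧ s ≤ t ∧ ZEq P (fam C s t)

end Pool.Agent.Lib.MP_0bc52e_nt.LC
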