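import Pool.Agent.Lib.MP_0bc52e_nt.T.I.All
import Pool.Agent.Lib.MP_0bc52e_nt.T.P.A
import Pool.Agent.Lib.MP_0bc52e_nt.T.P.A0
import Pool.Agent.Lib.MP_0bc52e_nt.T.P.B
import Pool.Agent.Lib.MP_0bc52e_nt.T.P.C
import Pool.Agent.Lib.MP_0bc52e_nt.T.P.CH
import Pool.Agent.Lib.MP_0bc52e_nt.T.P.H
import Pool.Agent.Lib.MP_0bc52e_nt.T.P.H1
import Pool.Agent.Lib.MP_0bc52e_nt.T.P.H2
import Pool.Agent.Lib.MP_0bc52e_nt.T.P.HW
import Pool.Agent.Lib.MP_0bc52e_nt.T.P.J1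
import Pool.Agent.Lib.MP_0bc52e_nt.T.P.J2
import Pool.Agent.Lib.MP_0bc52e_nt.T.P.MHv
import Pool.Agent.Lib.MP_0bc52e_nt.T.P.ML
import Pool.Agent.Lib.MP_0bc52e_nt.T.P.MZ
import Pool.Agent.Lib.MP_0bc52e_nt.T.P.Mh
import Pool.Agent.Lib.MP_0bc52e_nt.T.P.N
import Pool.Agent.Lib.MP_0bc52e_nt.T.P.NoOpp
import Pool.Agent.Lib.MP_0bc52e_nt.T.P.PL3
import Pool.Agent.Lib.MP_0bc52e_nt.T.P.PLD
import Pool.Agent.Lib.MP_0bc52e_nt.T.P.PLT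
import Pool.Agent.Lib.MP_0bc52e_nt.T.P.PLW
import Pool.Agent.Lib.MP_0bc52e_nt.T.P.SX
import Pool.Agent.Lib.MP_0bc52e_nt.T.P.T
import Pool.Agent.Lib.MP_0bc52e_nt.T.P.TH
import Pool.Agent.Lib.MP_0bc52e_nt.T.P.W0
import Pool.Agent.Lib.MP_0bc52e_nt.T.P.W8
import Pool.Agent.Lib.MP_0bc52e_nt.T.P.W8n
import Pool.Agent.Lib.MP_0bc52e_nt.T.P.WE
import Pool.Agent.Lib.MP_0bc52e_nt.T.P.WMH
import Pool.Agent.Lib.MP_0bc52e_nt.T.P.WT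
import Pool.Agent.Lib.MP_0bc52e_nt.T.P.Wh
import Pool.Agent.Lib.MP_0bc52e_nt.T.P.Zpyr
import Pool.Agent.Lib.MP_0bc52e_nt.T.P.arith3
import Pool.Agent.Lib.MP_0bc52e_nt.T.P.circ
import Pool.Agent.Lib.MP_0bc52e_nt.T.P.circ2
import Pool.Agent.Lib.MP_0bc52e_nt.T.P.cov1
import Pool.Agent.Lib.MP_0bc52e_nt.T.P.cov2
import Pool.Agent.Lib.MP_0bc52e_nt.T.P.det2s
import Pool.Agent.Lib.MP_0bc52e_nt.T.P.emp2
import Pool.Agent.Lib.MP_0bc52e_nt.T.P.floor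
import Pool.Agent.Lib.MP_0bc52e_nt.T.P.fr1
import Pool.Agent.Lib.MP_0bc52e_nt.T.P.fr2
import Pool.Agent.Lib.MP_0bc52e_nt.T.P.frM
import Pool.Agent.Lib.MP_0bc52e_nt.T.P.gam
import Pool.Agent.Lib.MP_0bc52e_nt.T.P.gap
import Pool.Agent.Lib.MP_0bc52e_nt.T.P.h3
import Pool.Agent.Lib.MP_0bc52e_nt.T.P.holeD
import Pool.Agent.Lib.MP_0bc52e_nt.T.P.holeT
import Pool.Agent.Lib.MP_0bc52e_nt.T.P.holeW
import Pool.Agent.Lib.MP_0bc52e_nt.T.P.lev1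
import Pool.Agent.Lib.MP_0bc52e_nt.T.P.nrm3
import Pool.Agent.Lib.MP_0bc52e_nt.T.P.opp2
import Pool.Agent.Lib.MP_0bc52e_nt.T.P.pln
import Pool.Agent.Lib.MP_0bc52e_nt.T.P.prim
import Pool.Agent.Lib.MP_0bc52e_nt.T.P.quad0
import Pool.Agent.Lib.MP_0bc52e_nt.T.P.quadX
import Pool.Agent.Lib.MP_0bc52e_nt.T.P.reg
import Pool.Agent.Lib.MP_0bc52e_nt.T.P.segM
import Pool.Agent.Lib.MP_0bc52e_nt.T.P.short
import Pool.Agent.Lib.MP_0bc52e_nt.T.P.sides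
import Pool.Agent.Lib.MP_0bc52e_nt.T.P.tri2
import Pool.Agent.Lib.MP_0bc52e_nt.T.P.triM
import Pool.Agent.Lib.MP_0bc52e_nt.T.P.two3
import Pool.Agent.Lib.MP_0bc52e_nt.T.P.uni
import Pool.Agent.Lib.MP_0bc52e_nt.T.P.white
import Pool.Agent.Lib.MP_0bc52e_nt.T.P.wid

/-!
Assembly: an integer polytope that meets all classes modulo `2` and satisfies the criterion for a
prime `p ≥ 163` is in the family (`q_T`); hollow ones for `p ≥ 13` (`q_TH`).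
-/

namespace Pool.Agent.Lib.MP_0bc52e_nt.T

open Pool.Agent.Lib.MP_0bc52e_nt.LC

lemma q_prim : S_prim := p_prim
lemma q_pln : S_pln := p_pln q_prim
lemma q_J1 : S_J1 := p_J1
lemma q_emp2 : S_emp2 := p_emp2
lemma q_J2 : S_J2 := p_J2 q_J1 q_emp2
lemma q_short : S_short := p_short
lemma q_holeW : S_holeW := p_holeW
lemma q_PLW : S_PLW := p_PLW q_short q_holeW
lemma q_holeD : S_holeD := p_holeD
lemma q_PLD : S_PLD := p_PLD q_short q_holeD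
lemma q_holeT : S_holeT := p_holeT
lemma q_PLT : S_PLT := p_PLT q_short q_holeT
lemma q_fr1 : S_fr1 := p_fr1
lemma q_fr2 : S_fr2 := p_fr2 q_fr1
lemma q_PL3 : S_PL3 := p_PL3 q_J2 q_PLW q_PLD q_PLT q_fr1 q_fr2
lemma q_sides : S_sides := p_sides
lemma q_NoOpp : S_NoOpp := p_NoOpp q_pln q_PL3 q_sides q_fr1 q_fr2
lemma q_ML : S_ML := p_ML
lemma q_CH : S_CH := p_CH q_ML
lemma q_A0 : S_A0 := p_A0
lemma q_arith3 : S_arith3 := p_arith3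
lemma q_circ2 : S_circ2 := p_circ2
lemma q_A : S_A := p_A q_prim q_NoOpp q_CH q_A0 q_arith3 q_circ2 q_fr1 q_fr2
lemma q_B : S_B := p_B q_pln q_PL3 q_sides q_fr1 q_fr2
lemma q_MZ : S_MZ := p_MZ
lemma q_gam : S_gam := p_gam
lemma q_SX : S_SX := p_SX q_MZ q_gam
lemma q_opp2 : S_opp2 := p_opp2 q_prim
lemma q_quad0 : S_quad0 := p_quad0 q_opp2
lemma q_quadX : S_quadX := p_quadX q_quad0
lemma q_floor : S_floor := p_floor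
lemma q_WT : S_WT := p_WT
lemma q_C : S_C := p_C q_SX q_quadX q_floor q_WT
lemma q_H1 : S_H1 := p_H1
lemma q_segM : S_segM := p_segM q_prim
lemma q_tri2 : S_tri2 := p_tri2 q_emp2
lemma q_triM : S_triM := p_triM q_pln q_tri2
lemma q_H2 : S_H2 := p_H2 q_segM q_triM
lemma q_frM : S_frM := p_frM q_fr1 q_fr2
lemma q_W0 : S_W0 := p_W0
lemma q_WE : S_WE := p_WE q_segM q_triM
lemma q_h3 : S_h3 := p_h3 q_holeW
lemma q_Wh : S_Wh := p_Wh q_W0 q_WE q_h3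
lemma q_nrm3 : S_nrm3 := p_nrm3
lemma q_reg : S_reg := p_reg
lemma q_two3 : S_two3 := p_two3 q_reg
lemma q_lev1 : S_lev1 := p_lev1
lemma q_WMH : S_WMH := p_WMH q_Wh q_W0 q_two3 q_reg q_lev1
lemma q_HW : S_HW := p_HW q_H2 q_frM q_fr1 q_fr2 q_W0 q_Wh q_nrm3 q_WMH
lemma q_det2s : S_det2s := p_det2s
lemma q_uni : S_uni := p_uni q_pln q_emp2
lemma q_gap : S_gap := p_gap
lemma q_white : S_white := p_white q_gap
lemma q_W8n : S_W8n := p_W8n q_uni q_white q_fr1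
lemma q_Zpyr : S_Zpyr := p_Zpyr q_uni q_fr1
lemma q_W8 : S_W8 := p_W8 q_det2s q_W8n q_Zpyr q_frM q_fr1 q_fr2
lemma q_MHv : S_MHv := p_MHv
lemma q_cov1 : S_cov1 := p_cov1
lemma q_cov2 : S_cov2 := p_cov2
lemma q_Mh : S_Mh := p_Mh q_MHv q_cov1 q_cov2
lemma q_H : S_H := p_H q_H1 q_HW q_W8 q_Mh q_fr1 q_fr2 q_frM
lemma q_circ : S_circ := p_circ q_opp2
lemma q_N : S_N := p_N q_A q_B q_C q_circ q_fr1 q_fr2
lemma q_wid : S_wid := p_wid qI_WID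
lemma q_T : S_T := p_T q_N q_H q_wid q_fr2
lemma q_TH : S_TH := p_TH q_H q_wid q_fr2

end Pool.Agent.Lib.MP_0bc52e_nt.T
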