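import Pool.Agent.Lib.MP_0bc52e_nt.LC.Defs

/-!
Definitions for the theorem (T163) on three-dimensional faces of sails (MP_0bc52e_nt): an integer
polytope that meets all classes modulo `2` and satisfies the criterion for a prime `p ≥ 163` is in
the family `P(c; s, t)`.
-/

namespace Pool.Agent.Lib.MP_0bc52e_nt.T

open Pool.Agent.Lib.MP_0bc52e_nt.LC

/-- `q` is an inner point of `P`: from `q` one can move a little in every direction inside `P`. -/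
def Inn (P : Set (ℝ × ℝ × ℝ)) (q : ℝ × ℝ × ℝ) : Prop :=
  ∀ d : ℝ × ℝ × ℝ, ∃ ε : ℝ, 0 < ε ∧ q + ε • d ∈ P

/-- `P` has no inner integer point. -/
def Hollow (P : Set (ℝ × ℝ × ℝ)) : Prop := ∀ v : ℤ × ℤ × ℤ, ¬ Inn P (ip v)

/-- The determinant of three integer vectors. -/
def det3 (a b c : ℤ × ℤ × ℤ) : ℤ :=
  a.1 * (b.2.1 * c.2.2 - b.2.2 * c.2.1) - a.2.1 * (b.1 * c.2.2 - b.2.2 * c.1) +
    a.2.2 * (b.1 * c.2.1 - b.2.1 * c.1)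

/-- The vector product of two integer vectors. -/
def cr (a b : ℤ × ℤ × ℤ) : ℤ × ℤ × ℤ :=
  (a.2.1 * b.2.2 - a.2.2 * b.2.1, a.2.2 * b.1 - a.1 * b.2.2, a.1 * b.2.1 - a.2.1 * b.1)

/-- The determinant of two integer vectors of the plane. -/
def det2 (a b : ℤ × ℤ) : ℤ := a.1 * b.2 - a.2 * b.1

/-- The map `(x, y, z) ↦ O + x a + y b + z c`. -/
def fr (O a b c : ℤ × ℤ × ℤ) (v : ℝ × ℝ × ℝ) : ℝ × ℝ × ℝ :=
  (O.1 + v.1 * a.1 + v.2.1 * b.1 + v.2.2 * c.1,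
    O.2.1 + v.1 * a.2.1 + v.2.1 * b.2.1 + v.2.2 * c.2.1,
    O.2.2 + v.1 * a.2.2 + v.2.1 * b.2.2 + v.2.2 * c.2.2)

/-- An affine map of space given by an integer matrix of determinant `±1` and an integer
translation. -/
def IsFr (f : ℝ × ℝ × ℝ → ℝ × ℝ × ℝ) : Prop :=
  ∃ O a b c : ℤ × ℤ × ℤ, (det3 a b c = 1 ∨ det3 a b c = -1) ∧ ∀ v, f v = fr O a b c v

/-- `Crit3` for some residue class. -/
def Cr (P : Set (ℝ × ℝ × ℝ)) (p : ℕ) : Prop := ∃ a b c : ℤ, Crit3 P p a b c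

/-- The integer polytope with the given vertices. -/
def hull (V : Finset (ℤ × ℤ × ℤ)) : Set (ℝ × ℝ × ℝ) := convexHull ℝ (ip '' (V : Set (ℤ × ℤ × ℤ)))

/-- The integer points of `Q` have an integer point `O` in the interior of their hull, in one of two ways: `O` is inside a triangle
`A B C`, or `O` is the midpoint of two of them and there are two others on the two sides of the line. -/
def J (Q : Set (ℝ × ℝ)) : Prop :=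
  (∃ O A B C : ℤ × ℤ, ip2 A ∈ Q ∧ ip2 B ∈ Q ∧ ip2 C ∈ Q ∧ 0 < det2 (A - O) (B - O) ∧
    0 < det2 (B - O) (C - O) ∧ 0 < det2 (C - O) (A - O)) ∨
  (∃ O t C D : ℤ × ℤ, ip2 (O + t) ∈ Q ∧ ip2 (O - t) ∈ Q ∧ ip2 C ∈ Q ∧ ip2 D ∈ Q ∧
    0 < det2 t (C - O) ∧ det2 t (D - O) < 0)

/-- The square with vertices `(±1, 0), (0, ±1)`. -/
def D4 (Q : Set (ℝ × ℝ)) : Prop :=
  ((1 : ℝ), (0 : ℝ)) ∈ Q ∧ ((-1 : ℝ), (0 : ℝ)) ∈ Q ∧ ((0 : ℝ), (1 : ℝ)) ∈ Q ∧ ((0 : ℝ), (-1 : ℝ)) ∈ Q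

/-- The triangle with vertices `(1, 1), (-1, 1), (0, -1)`. -/
def T4 (Q : Set (ℝ × ℝ)) : Prop :=
  ((1 : ℝ), (1 : ℝ)) ∈ Q ∧ ((-1 : ℝ), (1 : ℝ)) ∈ Q ∧ ((0 : ℝ), (-1 : ℝ)) ∈ Q

/-- `V` is a minimal configuration: every point is a vertex of the hull, and no other integer point of the hull is congruent to it
modulo `2`; the hull meets all classes modulo `2`. -/
structure Mini (V : Finset (ℤ × ℤ × ℤ)) : Prop where
  pc : PC3 (hull V)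
  ext : ∀ v ∈ V, ip v ∉ hull (V.erase v)
  alone : ∀ v ∈ V, ∀ x : ℤ × ℤ × ℤ, ip x ∈ hull V → (2 : ℤ) ∣ x.1 - v.1 → (2 : ℤ) ∣ x.2.1 - v.2.1 →
    (2 : ℤ) ∣ x.2.2 - v.2.2 → x = v

/-- The exceptional polytope (seven vertices, eight integer points). -/
def MH : Finset (ℤ × ℤ × ℤ) :=
  {(1, 0, 0), (0, 1, 0), (-1, -1, 0), (0, -1, 1), (0, 0, 1), (1, 0, 1), (1, -1, 3)}

/-- `P` contains two opposite nonzero integer points. -/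
def Opp (P : Set (ℝ × ℝ × ℝ)) : Prop := ∃ t : ℤ × ℤ × ℤ, t ≠ 0 ∧ ip t ∈ P ∧ ip (-t) ∈ P

/-- The origin is inside a triangle formed by three integer points of `P` (inside in the plane of the triangle). -/
def Tri3 (P : Set (ℝ × ℝ × ℝ)) : Prop :=
  ∃ r s t : ℤ × ℤ × ℤ, ∃ α β γ : ℝ, 0 < α ∧ 0 < β ∧ 0 < γ ∧ ip r ∈ P ∧ ip s ∈ P ∧ ip t ∈ P ∧ cr r s ≠ 0 ∧
    α • ip r + β • ip s + γ • ip t = 0

/-- The origin is inside the tetrahedron `v₀ v₁ v₂ v₃`, with weights proportional to `d₀, d₁, d₂, d₃`. -/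
def QD (v₀ v₁ v₂ v₃ : ℤ × ℤ × ℤ) (d₀ d₁ d₂ d₃ : ℤ) : Prop :=
  d₀ = det3 v₁ v₂ v₃ ∧ d₁ = -det3 v₀ v₂ v₃ ∧ d₂ = det3 v₀ v₁ v₃ ∧ d₃ = -det3 v₀ v₁ v₂ ∧
    0 < d₀ ∧ 0 < d₁ ∧ 0 < d₂ ∧ 0 < d₃

/-- The four points are in `P`. -/
def In4 (P : Set (ℝ × ℝ × ℝ)) (v₀ v₁ v₂ v₃ : ℤ × ℤ × ℤ) : Prop := ip v₀ ∈ P ∧ ip v₁ ∈ P ∧ ip v₂ ∈ P ∧ ip v₃ ∈ P

/-- `(x, y)` is in the dilate `r • W` of the triangle `W` with vertices `(1, 0), (0, 1), (-1, -1)`. -/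
def inW (x y r : ℝ) : Prop := x + y ≤ r ∧ x - 2 * y ≤ r ∧ y - 2 * x ≤ r

/-- The finite set `V` consists of the integer points of its hull, each of them a vertex. -/
structure Emp (V : Finset (ℤ × ℤ × ℤ)) : Prop where
  all : ∀ x : ℤ × ℤ × ℤ, ip x ∈ hull V → x ∈ V
  ext : ∀ v ∈ V, ip v ∉ hull (V.erase v)

/-- The facet inequalities of the dilate `N • hull MH`. -/
def inMH (N x y z : ℤ) : Prop :=
  0 * N ≤ 0 * x + 0 * y + 1 * z ∧ -1 * N ≤ -1 * x + -1 * y + 0 * z ∧ -1 * N ≤ -1 * x + 2 * y + 1 * z ∧ -2 * N ≤ -2 * x + 3 * y + 1 * z ∧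
  -1 * N ≤ -1 * x + 0 * y + 0 * z ∧ -1 * N ≤ 2 * x + -1 * y + -1 * z ∧ -1 * N ≤ 1 * x + -1 * y + -1 * z ∧ -2 * N ≤ -1 * x + -2 * y + -1 * z ∧
  -1 * N ≤ 0 * x + 1 * y + 0 * z ∧ -2 * N ≤ 3 * x + -1 * y + -2 * z

/-- The triangle `W` at level `0`. -/
def WIn (V : Finset (ℤ × ℤ × ℤ)) : Prop := (1, 0, 0) ∈ V ∧ (0, 1, 0) ∈ V ∧ (-1, -1, 0) ∈ V

end Pool.Agent.Lib.MP_0bc52e_nt.T
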