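import Pool.Agent.Lib.MP_0bc52e_nt.LC.Defs

/-!
Definitions for polytopes of width one (MP_0bc52e_nt, conjecture (T), part I).
Planar sets `A`, `B` are the sections of a polytope at the levels `x = 0` and `x = 1`.
-/

namespace Pool.Agent.Lib.MP_0bc52e_nt.LC

/-- The point `(X, Y)` lies in `m A + n B`. -/
def Pt (A B : Set (ℝ × ℝ)) (m n : ℕ) (X Y : ℝ) : Prop :=
  ∃ a ∈ A, ∃ b ∈ B, X = m * a.1 + n * b.1 ∧ Y = m * a.2 + n * b.2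

/-- `m A + n B` contains no integer point congruent to `(y, z)` modulo `p`. -/
def Avd (A B : Set (ℝ × ℝ)) (p m n : ℕ) (y z : ℤ) : Prop :=
  ∀ Y Z : ℤ, (p : ℤ) ∣ Y - y → (p : ℤ) ∣ Z - z → ¬ Pt A B m n Y Z

/-- The section of `P` at the level `i` of the first coordinate. -/
def slice (P : Set (ℝ × ℝ × ℝ)) (i : ℝ) : Set (ℝ × ℝ) := {v | (i, v.1, v.2) ∈ P}

/-- The affine map of the plane with integer matrix `(a, b; c, d)` and translation `(e, f)`. -/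
def umap (a b c d e f : ℤ) (v : ℝ × ℝ) : ℝ × ℝ := (a * v.1 + b * v.2 + e, c * v.1 + d * v.2 + f)

/-- The map of space that keeps the level `x` and acts by `umap a b c d e f` at the level `0` and by
`umap a b c d e' f'` at the level `1`. -/
def lv (a b c d e f e' f' : ℤ) (v : ℝ × ℝ × ℝ) : ℝ × ℝ × ℝ :=
  (v.1, a * v.2.1 + b * v.2.2 + (1 - v.1) * e + v.1 * e', c * v.2.1 + d * v.2.2 + (1 - v.1) * f + v.1 * f')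

/-- The map that exchanges the levels `0` and `1`. -/
def fl (v : ℝ × ℝ × ℝ) : ℝ × ℝ × ℝ := (1 - v.1, v.2.1, v.2.2)

/-- `B` contains the vertices of the parallelogram with corner `(x₀, y₀)` and sides `(a, b)`, `(c, d)`. -/
def Zt (B : Set (ℝ × ℝ)) (x₀ y₀ a b c d : ℤ) : Prop :=
  ip2 (x₀, y₀) ∈ B ∧ ip2 (x₀ + a, y₀ + b) ∈ B ∧ ip2 (x₀ + c, y₀ + d) ∈ B ∧
    ip2 (x₀ + a + c, y₀ + b + d) ∈ B

/-- `B` contains the vertices of the triangle with centroid `(x₀, y₀)` and vertices at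
`(a, b)`, `(c, d)`, `(-a-c, -b-d)` from it. -/
def Wt (B : Set (ℝ × ℝ)) (x₀ y₀ a b c d : ℤ) : Prop :=
  ip2 (x₀ + a, y₀ + b) ∈ B ∧ ip2 (x₀ + c, y₀ + d) ∈ B ∧ ip2 (x₀ - a - c, y₀ - b - d) ∈ B

/-- `Q` holds after applying a unimodular map (the same matrix at both levels). -/
def Up (Q : Set (ℝ × ℝ) → Set (ℝ × ℝ) → ℤ → ℤ → Prop) (A B : Set (ℝ × ℝ)) (m n : ℕ) (y z : ℤ) : Prop :=
  ∃ a b c d e f e' f' : ℤ, (a * d - b * c = 1 ∨ a * d - b * c = -1) ∧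
    Q (umap a b c d e f '' A) (umap a b c d e' f' '' B)
      (a * y + b * z + m * e + n * e') (c * y + d * z + m * f + n * f')

/-! ### Square obstacles -/

/-- `n t - c` lies in one of the open intervals `(k p, k p + n + 1)`. -/
def Vf (p n : ℕ) (c : ℤ) (t : ℝ) : Prop := ∃ k : ℤ, (k : ℝ) * p < n * t - c ∧ n * t - c < k * p + n + 1

/-- Every point of `B` lies in a free vertical or horizontal corridor. -/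
def Qc (p n : ℕ) (c d : ℤ) (B : Set (ℝ × ℝ)) : Prop := ∀ v ∈ B, Vf p n c v.1 ∨ Vf p n d v.2

/-- Signed permutation matrices. -/
def SqM (a b c d : ℤ) : Prop :=
  ((a = 1 ∨ a = -1) ∧ b = 0 ∧ c = 0 ∧ (d = 1 ∨ d = -1)) ∨
  (a = 0 ∧ (b = 1 ∨ b = -1) ∧ (c = 1 ∨ c = -1) ∧ d = 0)

/-- Two adjacent rows of `B` with two consecutive integer points each. -/
def Thin (B : Set (ℝ × ℝ)) : Prop := ∃ x₀ x₁ y₀ : ℤ, ip2 (x₀, y₀) ∈ B ∧ ip2 (x₀ + 1, y₀) ∈ B ∧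
  ip2 (x₁, y₀ + 1) ∈ B ∧ ip2 (x₁ + 1, y₀ + 1) ∈ B

/-- Normal form of the sides. -/
def Nf (a b c d : ℤ) : Prop := 0 ≤ a ∧ 0 ≤ b ∧ 0 ≤ c ∧ 0 ≤ d ∧ a * d - b * c = 1 ∧ b + d < a + c

/-- The core of a member of the family: multiplicities `p - 2` and `1`. -/
def Core (p : ℕ) (A B : Set (ℝ × ℝ)) (y z : ℤ) : Prop :=
  S4 A ∧ (∃ k q : ℤ, 2 * q + 1 = k * p ∧ 0 < k ∧ ip2 (0, -1) ∈ B ∧ ip2 (k * p, 1) ∈ B ∧
    (ip2 (q, 0) ∈ B ∨ ip2 (q + 1, 0) ∈ B)) ∧ (p : ℤ) ∣ y + 1 ∧ (p : ℤ) ∣ z + 1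

/-- `A` has height one and `B` has height two. -/
def Good (p : ℕ) (A B : Set (ℝ × ℝ)) (_y z : ℤ) : Prop :=
  (∀ v ∈ A, 0 ≤ v.2 ∧ v.2 ≤ 1) ∧ (∀ v ∈ B, -1 ≤ v.2 ∧ v.2 ≤ 1) ∧
  ip2 (0, 0) ∈ A ∧ ip2 (0, 1) ∈ A ∧ (∃ t : ℤ, ip2 (t, -1) ∈ B) ∧ (∃ t : ℤ, ip2 (t, 1) ∈ B) ∧
  (p : ℤ) ∣ z + 1

/-! ### Triangular obstacles -/

/-- The real point `(x, y)` lies in no translate of `m W` by a vector of `p ℤ²`, where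
`W = {x + y ≤ 1, -2x + y ≤ 1, x - 2y ≤ 1}`. -/
def FR (p m x y : ℝ) : Prop := ∀ i j : ℤ,
  ¬ ((x - i * p) + (y - j * p) ≤ m ∧ -2 * (x - i * p) + (y - j * p) ≤ m ∧ (x - i * p) - 2 * (y - j * p) ≤ m)

/-- The symmetries of the triangle `W`. -/
def WS (a b c d : ℤ) : Prop :=
  (a = 1 ∧ b = 0 ∧ c = 0 ∧ d = 1) ∨ (a = 0 ∧ b = 1 ∧ c = 1 ∧ d = 0) ∨ (a = 0 ∧ b = -1 ∧ c = 1 ∧ d = -1) ∨
  (a = -1 ∧ b = 1 ∧ c = -1 ∧ d = 0) ∨ (a = 1 ∧ b = -1 ∧ c = 0 ∧ d = -1) ∨ (a = -1 ∧ b = 0 ∧ c = -1 ∧ d = 1)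

/-- Differences of integer points of `B` are at most `4` in `x`, `y` and `x - y`. -/
def Bd (B : Set (ℝ × ℝ)) : Prop := ∀ x y x' y' : ℤ, ip2 (x, y) ∈ B → ip2 (x', y') ∈ B →
  |x - x'| ≤ 4 ∧ |y - y'| ≤ 4 ∧ |(x - y) - (x' - y')| ≤ 4

/-- The six shapes. -/
def Can (C : Set (ℝ × ℝ)) : Prop :=
  Zt C 0 0 1 0 0 1 ∨ Zt C 0 0 0 1 1 (-1) ∨ Zt C 0 0 0 1 1 (-2) ∨
  Wt C 0 0 1 0 0 1 ∨ Wt C 0 0 (-1) 0 0 (-1) ∨ Wt C 0 0 1 0 1 1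

/-- The hypotheses on the numbers in the middle range. -/
def Mid (p m n : ℕ) : Prop := m + n + 1 = p ∧ n + 2 ≤ m ∧ 3 * m < 2 * p ∧ 4 ≤ n

/-! ### Space -/

/-- An affine map of space with integer coefficients. -/
def IsAff3 (g : ℝ × ℝ × ℝ → ℝ × ℝ × ℝ) : Prop :=
  ∃ a₁ a₂ a₃ a₄ b₁ b₂ b₃ b₄ c₁ c₂ c₃ c₄ : ℤ, ∀ v : ℝ × ℝ × ℝ, g v =
    (a₁ * v.1 + a₂ * v.2.1 + a₃ * v.2.2 + a₄, b₁ * v.1 + b₂ * v.2.1 + b₃ * v.2.2 + b₄,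
      c₁ * v.1 + c₂ * v.2.1 + c₃ * v.2.2 + c₄)

/-- An affine automorphism of the integer lattice. -/
def IsU3 (g : ℝ × ℝ × ℝ → ℝ × ℝ × ℝ) : Prop :=
  IsAff3 g ∧ ∃ g' : ℝ × ℝ × ℝ → ℝ × ℝ × ℝ, IsAff3 g' ∧ (∀ v, g' (g v) = v) ∧ (∀ v, g (g' v) = v)

/-- No integer point in the interior. -/
def Hollow (P : Set (ℝ × ℝ × ℝ)) : Prop := ∀ x y z : ℤ, ip (x, y, z) ∉ interior P

/-- Six points of a member of the family. -/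
def Six (P : Set (ℝ × ℝ × ℝ)) (C : ℤ) : Prop :=
  ip (0, 0, 0) ∈ P ∧ ip (0, 2, C) ∈ P ∧ ip (1, 0, 0) ∈ P ∧ ip (1, 0, 1) ∈ P ∧ ip (1, 1, 0) ∈ P ∧ ip (1, 1, 1) ∈ P

end Pool.Agent.Lib.MP_0bc52e_nt.LC
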