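import Pool.Agent.Lib.MP_0bc52e_nt.T.DefsI
import Pool.Agent.Lib.MP_0bc52e_nt.LC.StmA

/-!
# Polytopes of width one, part 1: tools and triangular obstacles (MP_0bc52e_nt, `T/StmI1`)

`A`, `B` are convex sets of the plane, `m, n` multiplicities with `m + n + 1 = p` (mostly), and `Avd A B p m n y z`
says that `m A + n B` contains no integer point congruent to `(y, z)` modulo `p`. The triangle `W` has the vertices
`(1,0), (0,1), (-1,-1)`; with `g₁ = x + y`, `g₂ = -2x + y`, `g₃ = x - 2y` (sum zero) it is `{g₁, g₂, g₃ ≤ 1}`. Its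
symmetries permute the `g_i`. Every statement is one piece; the pieces it needs are hypotheses of the theorem to prove.
-/

namespace Pool.Agent.Lib.MP_0bc52e_nt.LC

/-! ## A. Tools -/

/-- [ptconv] Proof: if `Y₁ = Y₂` nothing to do. Otherwise `t = (Y - Y₁)/(Y₂ - Y₁) ∈ [0,1]`, and with `X = m a₁ + n b₁ = m a₁' + n b₁'`
take `(1-t) a + t a' ∈ A`, `(1-t) b + t b' ∈ B`. -/
def SI_ptconv : Prop := ∀ (A B : Set (ℝ × ℝ)) (m n : ℕ) (X Y₁ Y₂ Y : ℝ), Convex ℝ A → Convex ℝ B →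
  Pt A B m n X Y₁ → Pt A B m n X Y₂ → Y₁ ≤ Y → Y ≤ Y₂ → Pt A B m n X Y

/-- [avdres] `Avd` depends only on the residues, and is symmetric. Proof: `Y - y' = (Y - y) + (y - y')`; exchange the roles of `a`, `b`. -/
def SI_avdres : Prop := (∀ (A B : Set (ℝ × ℝ)) (p m n : ℕ) (y z y' z' : ℤ), (p : ℤ) ∣ y' - y → (p : ℤ) ∣ z' - z →
    Avd A B p m n y z → Avd A B p m n y' z') ∧
  (∀ (A B : Set (ℝ × ℝ)) (p m n : ℕ) (y z : ℤ), Avd A B p m n y z → Avd B A p n m y z)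

/-- [colm] One column. Proof. First alternative: by `[res]` there is an integer `Z ≡ z` with `lo ≤ Z < lo + p ≤ hi`. Second: let `Z ≡ z` be an
integer with `H - p < Z ≤ H` (`[res]` with `α = H - p + 1`), so `Z ≥ H - p + 1 ≥ lo` (here `hi = H`). Third: `Z ≡ z` with `L ≤ Z < L + p`, so
`Z ≤ L + p - 1 ≤ hi`. By `[ptconv]` `(X, Z)` is a point of `m A + n B`; contradiction. -/
def SI_colm : Prop := ∀ (A B : Set (ℝ × ℝ)) (p m n : ℕ) (y z X : ℤ) (lo hi : ℝ), Convex ℝ A → Convex ℝ B → 0 < p →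
  Avd A B p m n y z → (p : ℤ) ∣ X - y → Pt A B m n X lo → Pt A B m n X hi →
  ((p : ℝ) ≤ hi - lo ∨ (∃ H : ℤ, hi = H ∧ (p : ℝ) - 1 ≤ hi - lo) ∨ (∃ L : ℤ, lo = L ∧ (p : ℝ) - 1 ≤ hi - lo)) → False

/-- [colm2] Two columns `X ≡ X' ≡ y`; the heights `[lo, H]` in the first and `[lo', H']` in the second fit together. Proof. Let `Z ≡ z` be the integer
with `H' - p < Z ≤ H'` (`[res]`), so `Z ≥ H' - p + 1 ≥ lo`. If `Z ≤ H`, then `(X, Z)` is a point of `m A + n B` (`[ptconv]`); otherwise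
`Z ≥ H + 1 ≥ lo'` and `Z ≤ H'`, so `(X', Z)` is. -/
def SI_colm2 : Prop := ∀ (A B : Set (ℝ × ℝ)) (p m n : ℕ) (y z X X' H H' : ℤ) (lo lo' : ℝ), Convex ℝ A → Convex ℝ B → 0 < p →
  Avd A B p m n y z → (p : ℤ) ∣ X - y → (p : ℤ) ∣ X' - y → Pt A B m n X lo → Pt A B m n X H → Pt A B m n X' lo' → Pt A B m n X' H' →
  lo' ≤ H + 1 → (p : ℝ) - 1 ≤ H' - lo → False

/-- [wpt] Points of `m A` when `A` contains `W`. Proof: `(x/m, y/m) = w₁ (-1,-1) + w₂ (1,0) + w₃ (0,1)` with `w₁ = (1 - (x+y)/m)/3`,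
`w₂ = (1 - (-2x+y)/m)/3`, `w₃ = (1 - (x-2y)/m)/3`, all `≥ 0`, sum `1`. -/
def SI_wpt : Prop := ∀ (A : Set (ℝ × ℝ)) (m x y : ℝ), Convex ℝ A → W3 A → 0 < m → x + y ≤ m → -2 * x + y ≤ m → x - 2 * y ≤ m →
  ∃ a ∈ A, m * a.1 = x ∧ m * a.2 = y

/-- [spt] Points of `m A` when `A` contains the unit square. Proof: `(x/m, y/m) ∈ [0,1]²` is a convex combination of the four vertices. -/
def SI_spt : Prop := ∀ (A : Set (ℝ × ℝ)) (m x y : ℝ), Convex ℝ A → S4 A → 0 < m → 0 ≤ x → x ≤ m → 0 ≤ y → y ≤ m →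
  ∃ a ∈ A, m * a.1 = x ∧ m * a.2 = y

/-- [pcmin] Proof. `[SW]` gives `g` (`IsUM`) with `W3 (g '' B)` or `S4 (g '' B)`; let `g'` be its inverse (`[um]`), `g' v = (a v₁ + c v₂ + x₀, b v₁ + d v₂ + y₀)`,
`a d - b c = ±1`. The points of `B` that `g` maps to `(0,0), (1,0), (0,1), (1,1)`, resp. `(1,0), (0,1), (-1,-1)`, are `(x₀, y₀)`, `(x₀ + a, y₀ + b)`, `(x₀ + c, y₀ + d)`, ...
If the determinant is `-1`, exchange `(a,b)` and `(c,d)` (both `Zt` and `Wt` are symmetric in them, up to `ring`). -/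
def SI_pcmin : Prop := ∀ B : Set (ℝ × ℝ), Convex ℝ B → PC2 B →
  ∃ x₀ y₀ a b c d : ℤ, a * d - b * c = 1 ∧ (Zt B x₀ y₀ a b c d ∨ Wt B x₀ y₀ a b c d)

/-- [avdmap] Proof. Let `D = a d - b c = ±1`. Suppose `Y, Z` are integers, congruent to the new targets, with `Y = a X₀ + b Y₀ + m e + n e'`,
`Z = c X₀ + d Y₀ + m f + n f'`, where `X₀ = m α₁ + n β₁`, `Y₀ = m α₂ + n β₂`, `α ∈ A`, `β ∈ B`. Then `X₀ = D (d Y' - b Z')`, `Y₀ = D (-c Y' + a Z')` with the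
integers `Y' = Y - m e - n e'`, `Z' = Z - m f - n f'`; so `X₀, Y₀` are integers, congruent to `y`, `z`. Contradiction. -/
def SI_avdmap : Prop := ∀ (A B : Set (ℝ × ℝ)) (p m n : ℕ) (y z a b c d e f e' f' : ℤ), (a * d - b * c = 1 ∨ a * d - b * c = -1) →
  Avd A B p m n y z → Avd (umap a b c d e f '' A) (umap a b c d e' f' '' B) p m n
    (a * y + b * z + m * e + n * e') (c * y + d * z + m * f + n * f')

/-- [umim] Images under `umap`. Proof: `umap a b c d e f` satisfies `IsUM`; use `[umconv]`; images are monotone, for `mono`. -/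
def SI_umim : Prop := ∀ (a b c d e f : ℤ), (a * d - b * c = 1 ∨ a * d - b * c = -1) → IsUM (umap a b c d e f) ∧
  ∀ A : Set (ℝ × ℝ), (Convex ℝ A → Convex ℝ (umap a b c d e f '' A)) ∧ (IsLP2 A → IsLP2 (umap a b c d e f '' A)) ∧
    (PC2 A → PC2 (umap a b c d e f '' A)) ∧
    ∀ x y : ℤ, ip2 (x, y) ∈ A → ip2 (a * x + b * y + e, c * x + d * y + f) ∈ umap a b c d e f '' A

/-- [upc] Composition. Proof: `umap a₁ b₁ c₁ d₁ e₁ f₁ (umap a b c d e f v) = umap (a₁ a + b₁ c) (a₁ b + b₁ d) (c₁ a + d₁ c) (c₁ b + d₁ d) (a₁ e + b₁ f + e₁) (c₁ e + d₁ f + f₁) v`,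
determinants multiply, `Set.image_image`, and the targets agree by `ring`. -/
def SI_upc : Prop := ∀ (Q : Set (ℝ × ℝ) → Set (ℝ × ℝ) → ℤ → ℤ → Prop) (A B : Set (ℝ × ℝ)) (m n : ℕ) (y z a b c d e f e' f' : ℤ),
  (a * d - b * c = 1 ∨ a * d - b * c = -1) →
  Up Q (umap a b c d e f '' A) (umap a b c d e' f' '' B) m n (a * y + b * z + m * e + n * e') (c * y + d * z + m * f + n * f') →
  Up Q A B m n y z

/-- [fra] If `A` contains `W`, then `(y, z) - n b` is free for every `b ∈ B`. Proof: let `i, j` be integers and suppose `(x', y') = (y - n b₁ - i p, z - n b₂ - j p)` satisfies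
the three inequalities; by `[wpt]` it is `m a` with `a ∈ A`; then `(y - i p, z - j p) = m a + n b` contradicts `Avd`. -/
def SI_fra : Prop := ∀ (A B : Set (ℝ × ℝ)) (p m n : ℕ) (y z : ℤ), Convex ℝ A → W3 A → 0 < m → Avd A B p m n y z →
  ∀ b ∈ B, FR p m (y - n * b.1) (z - n * b.2)

/-! ## B. The range `m ≥ 2p/3`: the holes are disjoint -/

/-- [hole] An integer point is in an obstacle or in a hole (of one of two kinds). Proof: take `i = x / p`, `j = y / p`, so `X = x % p`, `Y = y % p`, `0 ≤ X, Y < p`. If one of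
`(X, Y)`, `(X - p, Y - p)`, `(X - p, Y)`, `(X, Y - p)` satisfies the three inequalities of the first alternative, take it. Otherwise all four fail and `omega` gives one of
the other alternatives for `(X, Y)`. (Checked by computer for all `p ≤ 40`.) -/
def SI_hole : Prop := ∀ p m : ℤ, 0 < m → m < p → 2 * p ≤ 3 * m → ∀ x y : ℤ, ∃ i j : ℤ,
  ((x - i * p) + (y - j * p) ≤ m ∧ -2 * (x - i * p) + (y - j * p) ≤ m ∧ (x - i * p) - 2 * (y - j * p) ≤ m) ∨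
  (m < (x - i * p) + (y - j * p) ∧ m - p < (x - i * p) - 2 * (y - j * p) ∧ m - 2 * p < -2 * (x - i * p) + (y - j * p)) ∨
  (m < (x - i * p) + (y - j * p) ∧ m - p < -2 * (x - i * p) + (y - j * p) ∧ m - 2 * p < (x - i * p) - 2 * (y - j * p))

/-- [exit] A free segment that starts in a hole stays in it. Proof. Let `e₁ = x + y - m`, `e₃ = x - 2y - (m - p)`, `e₂ = -2x + y - (m - 2p)`; they sum to `3(p - m)` identically, and
all are `> 0` at the start. Suppose that one of them is `≤ 0` at the end. The function `s ↦ min (e₁, e₂, e₃)` along the segment is continuous, `> 0` at `0`, `≤ 0` at `1`; so at some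
`s` (`intermediate_value_Icc'`) it is `0`: all `e_i ≥ 0`, one is `0`, hence the others are `≤ 3(p-m)`. Then the point is in an obstacle. Case `e₁ = 0`: `i = j = 0`:
`x + y = m`; `-2x + y = m - 2p + e₂ ≤ m - 2p + 3(p-m) = p - 2m ≤ m`; `x - 2y = m - p + e₃ ≤ 2p - 2m ≤ m` (as `2p ≤ 3m`). Case `e₂ = 0`: take `(i, j) = (1, 0)`, so `X = x - p`, `Y = y`: `X + Y = m - p + e₁ ≤ 2p - 2m ≤ m`,
`-2X + Y = m`, `X - 2Y = m - 2p + e₃ ≤ p - 2m ≤ m`. Case `e₃ = 0`: `(i, j) = (1, 1)`: `X + Y = m + e₁ - 2p ≤ p - 2m ≤ m`, `-2X + Y = m - 2p + e₂ + p ≤ 2p - 2m ≤ m`,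
`X - 2Y = m - p + p = m`. This contradicts `FR`. -/
def SI_exit : Prop := ∀ p m x₀ y₀ x₁ y₁ : ℝ, 0 < p → m ≤ p → 2 * p ≤ 3 * m →
  (∀ s : ℝ, 0 ≤ s → s ≤ 1 → FR p m ((1 - s) * x₀ + s * x₁) ((1 - s) * y₀ + s * y₁)) →
  m < x₀ + y₀ → m - p < x₀ - 2 * y₀ → m - 2 * p < -2 * x₀ + y₀ →
  m < x₁ + y₁ ∧ m - p < x₁ - 2 * y₁ ∧ m - 2 * p < -2 * x₁ + y₁

/-- [slack] Proof. `e₁ = X + Y - m`, `e₃ = X - 2Y - m + p`, `e₂ = -2X + Y - m + 2p` are integers `≥ 1` with sum `3(p - m) = 3(n+1)`; so each is `≤ 3n + 1`; the same for `X' = X + n s`,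
`Y' = Y + n t`, and `e_i' - e_i = n g_i(s,t)`. If `|g_i(s,t)| ≥ 3`, then `|e_i' - e_i| ≥ 3n`, so one of `e_i, e_i'` is `3n + 1` and the other is `1`; at the point where `e_i = 3n+1` the other
two are `1`. But `e₁ - e₃ = 3Y - p`, `e₂ - e₁ = 2p - 3X`, `e₂ - e₃ = 3Y - 3X + p` are not divisible by `3`, in particular not `0`. (Nonlinear terms `n * s` are to be treated as atoms:
first show `n * |g| ≥ 3 n`.) -/
def SI_slack : Prop := ∀ p m n X Y s t : ℤ, m + n + 1 = p → 1 ≤ n → ¬ (3 : ℤ) ∣ p →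
  (m < X + Y ∧ m - p < X - 2 * Y ∧ m - 2 * p < -2 * X + Y) →
  (m < (X + n * s) + (Y + n * t) ∧ m - p < (X + n * s) - 2 * (Y + n * t) ∧ m - 2 * p < -2 * (X + n * s) + (Y + n * t)) →
  (3 ≤ |s + t| ∨ 3 ≤ |-2 * s + t| ∨ 3 ≤ |s - 2 * t|) → False

/-- [diff3] Proof. Take integer points `b₀, b₁, b₂, b₃` of `B` of the classes `(0,0), (1,0), (0,1), (1,1)`. Suppose all differences `(s,t)` of two of them have `|s + t|, |-2s + t|, |s - 2t| ≤ 2`. These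
three numbers are congruent modulo 3 and sum to zero, so `(s, t) ∈ {±(1,0), ±(0,1), ±(1,1)}` (as `(s,t) ≠ 0`). By the classes, `b₁ - b₀ = ±(1,0)`, `b₂ - b₀ = ±(0,1)`, `b₃ - b₀ = ±(1,1)`,
`b₁ - b₂ = ±(1,1)`, `b₃ - b₁ = ±(0,1)`, `b₃ - b₂ = ±(1,0)`; this is contradictory (`omega`). -/
def SI_diff3 : Prop := ∀ B : Set (ℝ × ℝ), PC2 B → ∃ x y s t : ℤ, ip2 (x, y) ∈ B ∧ ip2 (x + s, y + t) ∈ B ∧
  (3 ≤ |s + t| ∨ 3 ≤ |-2 * s + t| ∨ 3 ≤ |s - 2 * t|)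

/-- [WL1] Proof. Let `b₀ = (x, y)`, `b₁ = (x + s, y + t)` be as in `[diff3]`. By `[fra]` all points `(y_t, z_t) - n b`, `b` on the segment `b₀ b₁`, are free (`FR`); here `(y_t, z_t)` is the target. The point
`τ₀ = target - n b₀` is an integer point; by `[hole]` some translate by `p ℤ²` is in an obstacle (excluded by `FR`) or in a hole of the first or second kind. `FR` is invariant under translations by `p ℤ²`, so
translate. First kind: `[exit]` for the segment from `τ₀` to `τ₁ = τ₀ - n (s, t)`: `τ₁` is in the same hole, and `[slack]` with `(-s, -t)` gives a contradiction. Second kind: exchange the coordinates (`FR p m x y ↔ FR p m y x`,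
exchange `i, j`), which exchanges the two kinds of holes and the functionals `-2s + t`, `s - 2t`. -/
def SI_WL1 : Prop := ∀ (A B : Set (ℝ × ℝ)) (p m n : ℕ) (y z : ℤ), Convex ℝ A → Convex ℝ B → W3 A → PC2 B → m + n + 1 = p → 1 ≤ n →
  2 * p ≤ 3 * m → ¬ 3 ∣ p → Avd A B p m n y z → False

/-- [Wfull] `(p-1) W` meets all classes modulo `p` if `3 ∤ p`. Proof: `X = x % p`, `Y = y % p`. Suppose none of `(X,Y)`, `(X-p,Y-p)`, `(X-p,Y)`, `(X,Y-p)` satisfies the three inequalities. Then `omega` shows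
(with `m = p - 1` in `[hole]`) that `X + Y ≥ p`, `X - 2Y ≥ 0`, `-2X + Y ≥ -p` or the mirror image; these three numbers sum to `0 = p + 0 - p`, so equality holds: `X = 2Y`, `3Y = p`; contradiction. -/
def SI_Wfull : Prop := ∀ p : ℕ, 0 < p → ¬ 3 ∣ p → ∀ x y : ℤ, ∃ X Y : ℤ, (p : ℤ) ∣ X - x ∧ (p : ℤ) ∣ Y - y ∧
  X + Y ≤ p - 1 ∧ -2 * X + Y ≤ p - 1 ∧ X - 2 * Y ≤ p - 1

/-! ## C. The range `p/2 ≤ m ≤ 2p/3`: free segments are short -/

/-- [frsym] Invariance of `FR`. Proof: the three inequalities are permuted. Translation: replace `(i, j)` by `(i - k, j - l)`. Swap: `(j, i)`. The map `(x,y) ↦ (-x, y - x)`: use `(-i, j - i)`; with `X = x - i p`, `Y = y - j p` the new point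
is `(-X, Y - X)` and `g₁, g₂, g₃` become `-2X + Y`, `X + Y`, `X - 2Y`. -/
def SI_frsym : Prop := ∀ p m x y : ℝ, (∀ k l : ℤ, FR p m x y ↔ FR p m (x - k * p) (y - l * p)) ∧ (FR p m x y ↔ FR p m y x) ∧
  (FR p m x y ↔ FR p m (-x) (y - x))

/-- [gap0] Free points on a column line. Proof: `j = ⌊(y + m/2)/p⌋`, so `-m/2 ≤ y - j p < p - m/2`. If `y - j p ≤ m`, then the translate `(i, j)` shows that the point is in an obstacle (`X = 0`, `Y = y - j p`: `Y ≤ m`, `Y ≤ m`, `-2Y ≤ m`). -/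
def SI_gap0 : Prop := ∀ (p m y : ℝ) (i : ℤ), 0 < p → FR p m (i * p) y → ∃ j : ℤ, m < y - j * p ∧ y - j * p < p - m / 2

/-- [E1] Proof. The points `(x, p - m/2 + x/2)`, `-m ≤ x ≤ m`, are in the obstacle with `(i,j) = (0,1)`: `X = x`, `Y = -m/2 + x/2`: `X + Y = 3x/2 - m/2 ≤ m`, `-2X + Y = -3x/2 - m/2 ≤ m`, `X - 2Y = m`. The linear function
`φ(x) = y₀ + σ x - (p - m/2 + x/2)` is negative at `0`; if it were `≥ 0` at `x₁`, it would vanish at some point of `[0, x₁]` (`x = x₁ φ(0)/(φ(0) - φ(x₁))`), where `FR` fails. -/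
def SI_E1 : Prop := ∀ p m y₀ σ x₁ : ℝ, 0 < m → 0 ≤ x₁ → x₁ ≤ m → (∀ x : ℝ, 0 ≤ x → x ≤ x₁ → FR p m x (y₀ + σ * x)) →
  y₀ < p - m / 2 → y₀ + σ * x₁ < p - m / 2 + x₁ / 2

/-- [E2] Proof: as `[E1]` with the points `(x, 2x - p + m)`, `p - m ≤ x ≤ p`, of the obstacle `(i,j) = (1,1)`: `X = x - p ∈ [-m, 0]`, `Y = 2X + m`: `X + Y = 3X + m ≤ m`, `-2X + Y = m`, `X - 2Y = -3X - 2m ≤ m`.
`φ(x) = y₀ + σ x - (2x - p + m)` is positive at `p - m` (the value there is `y₀ + σ (p-m) - (p - m)`). -/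
def SI_E2 : Prop := ∀ p m y₀ σ x₁ : ℝ, 0 < m → p - m ≤ x₁ → x₁ ≤ p → (∀ x : ℝ, p - m ≤ x → x ≤ x₁ → FR p m x (y₀ + σ * x)) →
  p - m < y₀ + σ * (p - m) → 2 * x₁ - p + m < y₀ + σ * x₁

/-- [E3] Proof: as `[E1]` with the points `(x, m - p - x)`, `-p ≤ x ≤ m - p`, of the obstacle `(i,j) = (-1,0)`: `X = x + p ∈ [0, m]`, `Y = m - X`: `X + Y = m`, `-2X + Y = m - 3X ≤ m`, `X - 2Y = 3X - 2m ≤ m`.
`φ(x) = y₀ + σ x - (m - p - x)` is positive at `m - p`. -/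
def SI_E3 : Prop := ∀ p m y₀ σ x₁ : ℝ, 0 < m → -p ≤ x₁ → x₁ ≤ m - p → (∀ x : ℝ, x₁ ≤ x → x ≤ m - p → FR p m x (y₀ + σ * x)) →
  0 < y₀ + σ * (m - p) → m - p - x₁ < y₀ + σ * x₁

/-- [E4] Proof: as `[E1]` with the points `(x, (k+1) p - m/2 + (x - p)/2)`, `p - m ≤ x ≤ p`, of the obstacle `(i,j) = (1, k+1)` (`X = x - p ∈ [-m,0]`, `Y = -m/2 + X/2`); `φ(x) = y₀ + σ x -` that is negative at `x = p`, and
at `x = p - m` the obstacle point is `(p - m, (k+1) p - m)`. -/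
def SI_E4 : Prop := ∀ (p m y₀ σ : ℝ) (k : ℤ), 0 < m → (∀ x : ℝ, p - m ≤ x → x ≤ p → FR p m x (y₀ + σ * x)) →
  y₀ + σ * p < (k + 1) * p - m / 2 → y₀ + σ * (p - m) < (k + 1) * p - m

/-- [X] No free segment joins the column lines `x = 0` and `x = p`. Proof. By `[gap0]` at `x = 0` there is `j` with `m < y₀ - j p < p - m/2`; translate (`[frsym]`), so assume `j = 0` (replace `y₀` by `y₀ - j p`). By `[gap0]` at `x = p` (`i = 1`) there is `k` with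
`k p + m < y₀ + σ p < (k+1) p - m/2`. `[E1]` with `x₁ = m`: `y₀ + σ m < p`. `[E4]`: `y₀ + σ (p - m) < (k+1) p - m`.
(i) `p (y₀ + σ m) = (p - m) y₀ + m (y₀ + σ p) > (p - m) m + m (k p + m) = m p (k + 1)`, so `m (k+1) < p ≤ 2m`, `k < 1`, `k ≤ 0`.
(ii) `p (y₀ + σ (p-m)) = m y₀ + (p - m)(y₀ + σ p) > m² + (p-m)(k p + m) = p (m + (p-m) k)`, so `m + (p - m) k < (k+1) p - m`, i.e. `2m - p < k m`; as `2m ≥ p`, `k > 0`. Contradiction. -/
def SI_X : Prop := ∀ p m y₀ σ : ℝ, 0 < p → p ≤ 2 * m → 3 * m ≤ 2 * p → (∀ x : ℝ, 0 ≤ x → x ≤ p → FR p m x (y₀ + σ * x)) → False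

/-- [segh] The main estimate, slope at least `1/2`. Proof. Let `L = -ξ₀`, `R = ξ₁`, so `0 ≤ L, R < p`.
Fact A: if `R ≥ m`, then `y₀ + σ m < p` (`[E1]` with `x₁ = m`). Fact B: if `σ < 2`, then `(2 - σ) R < y₀ + p - m`: if `R ≥ p - m`, then `y₀ + σ (p - m) > m + (p-m)/2 > p - m` (as `3m > p`) and `[E2]` with `x₁ = R` gives it; if
`R < p - m`, then `(2-σ) R ≤ (3/2)(p - m) ≤ p < y₀ + p - m`.
Case 1, `L < p - m`: `L + R < 2p - m ≤ (8p - 6m)/3`.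
Case 2, `L ≥ p - m`. Then `y₀ + σ (m - p) ≠ 0`, because `(m - p, 0)` is in the obstacle `(i,j) = (-1, 0)` (`X = m`, `Y = 0`).
2a, `y₀ + σ (m-p) > 0`: `[E3]` with `x₁ = ξ₀`: `(1 + σ) L < y₀ + p - m`. If `R < m`: `L < (2/3)(y₀ + p - m) < (2/3)(2p - 3m/2) = 4p/3 - m`, so `L + R < 4p/3 ≤ (8p - 6m)/3`. If `R ≥ m`: Fact A gives `σ m < p - y₀ < p - m ≤ m`, so `σ < 1`,
and `S := y₀ + p - m < 2p - (1+σ) m`. `(1+σ) L < S`, `(2-σ) R < S`, so `L + R < 3S/((1+σ)(2-σ))`. With `η = σ - 1/2 ∈ [0, 1/2)`: `(1+σ)(2-σ) = 9/4 - η²` and `9 S < 18p - (27/2) m - 9 η m ≤ (8p - 6m)(9/4 - η²)`, because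
`η² (8p - 6m) ≤ 9 η m`, as `η (8p - 6m) ≤ 4p - 3m ≤ 9m`.
2b, `y₀ + σ (m-p) < 0`: `σ (p - m) > y₀ > m`, so `σ > m/(p-m) ≥ 1`. Then `R < m` (otherwise Fact A gives `σ m < p - m ≤ m`). `[E1]` with `x₁ = R`: `(σ - 1/2) R < p - m/2 - y₀ < p - 3m/2`. `(σ - 1/2) > m/(p-m) - 1/2 = (3m - p)/(2(p-m))`, so
`R (3m - p) < (2p - 3m)(p - m)` (if `R > 0`; if `R = 0` the claim `3L < 3p ≤ 8p - 6m + ...` is easier: `3p < 8p - 6m`). And `3 (2p-3m)(p-m) ≤ (5p - 6m)(3m - p)`, since the difference right minus left is `-(11p² - 36pm + 27m²) = (9/2)(2m-p)(2p-3m) + p (9m/2 - 2p) ≥ 0`. So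
`3R < 5p - 6m`, `3L < 3p`. -/
def SI_segh : Prop := ∀ p m y₀ σ ξ₀ ξ₁ : ℝ, 0 < p → p ≤ 2 * m → 3 * m ≤ 2 * p → ξ₀ ≤ 0 → 0 ≤ ξ₁ → -p < ξ₀ → ξ₁ < p →
  (∀ x : ℝ, ξ₀ ≤ x → x ≤ ξ₁ → FR p m x (y₀ + σ * x)) → m < y₀ → y₀ < p - m / 2 → 1 / 2 ≤ σ → 3 * (ξ₁ - ξ₀) < 8 * p - 6 * m

/-- [seg1] The horizontal extent of a free segment. Proof. We may assume `x₀ ≤ x₁` (reverse the segment: `s ↦ 1 - s`). If `x₁ - x₀ < p` we are done: `3p ≤ 8p - 6m - ...` precisely `3 (x₁ - x₀) < 3p < 4p ≤ 8p - 6m`. Otherwise the interval `[x₀, x₁]` contains `k p` for some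
integer `k` (`k = ⌈x₀/p⌉`). With `σ = (y₁ - y₀)/(x₁ - x₀)` all points `(x, y₀ + σ (x - x₀))`, `x₀ ≤ x ≤ x₁`, are free. Translate by `(k p, j p)` (`[frsym]`, `j` from `[gap0]`): the points `(x, y' + σ x)`, `ξ₀ = x₀ - k p ≤ x ≤ ξ₁ = x₁ - k p`, are free and `m < y' < p - m/2`.
`[X]` gives `ξ₁ < p` and (for the translate by `p` in `x`) `ξ₀ > -p`. If `σ ≥ 1/2` use `[segh]`. If `σ < 1/2` use the symmetry `(x,y) ↦ (-x, y - x)` of `[frsym]`: the points `(x, y' + (1-σ) x)`, `-ξ₁ ≤ x ≤ -ξ₀`, are free, with the same `y'`; apply `[segh]`. -/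
def SI_seg1 : Prop := ∀ p m x₀ y₀ x₁ y₁ : ℝ, 0 < p → p ≤ 2 * m → 3 * m ≤ 2 * p →
  (∀ s : ℝ, 0 ≤ s → s ≤ 1 → FR p m ((1 - s) * x₀ + s * x₁) ((1 - s) * y₀ + s * y₁)) → 3 * |x₁ - x₀| < 8 * p - 6 * m

/-- [bd] Proof. Let `(x, y), (x', y')` be integer points of `B`. By `[fra]` (`B` is convex) the segment from `target - n (x,y)` to `target - n (x',y')` is free, so `[seg1]` gives `3 n |x - x'| < 8p - 6m`. By the symmetries of `[frsym]` (swap; and `(x,y) ↦ (-x, y-x)` followed by the swap, whose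
first coordinate is `y - x`) the same bound holds for `3 n |y - y'|` and `3 n |(x-y) - (x'-y')|`. As `8p - 6m = 2m + 8n + 8` and `m ≤ 2n + 1` (from `3m < 2p`), `8p - 6m ≤ 12 n + 10 < 15 n` (`n ≥ 4`), so each of the three integers is `< 5`. (`p ≤ 2m` because `m ≥ n + 2`.) -/
def SI_bd : Prop := ∀ (A B : Set (ℝ × ℝ)) (p m n : ℕ) (y z : ℤ), Convex ℝ A → Convex ℝ B → W3 A → Mid p m n → Avd A B p m n y z → Bd B

/-! ## D. The remaining shapes -/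

/-- [shape] Finite check. Proof. All differences of the points of `Zt`, resp. of `Wt` together with the centroid `(x₀, y₀)` (in `B` by convexity), satisfy the bounds of `Bd`. So `|a|,|b|,|c|,|d| ≤ 4`, `|a - b| ≤ 4`, `|c - d| ≤ 4`, the same for the sum and the difference of the
two sides, and for `Wt` also for `(2a + c, 2b + d)` and `(a + 2c, b + 2d)`. Finitely many `(a,b,c,d)` with `ad - bc = 1`; for each one a symmetry of `W` (`WS`) and a translation give one of the six shapes (checked by computer). Suggestion: prove by `decide` the purely integer statement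
(with the vertices as lists), e.g. for `a b c d : Fin 9` shifted by `4`, or first a list of all solutions. -/
def SI_shape : Prop := ∀ (B : Set (ℝ × ℝ)) (x₀ y₀ a b c d : ℤ), Convex ℝ B → Bd B → a * d - b * c = 1 →
  (Zt B x₀ y₀ a b c d ∨ Wt B x₀ y₀ a b c d) →
  ∃ a' b' c' d' e f : ℤ, WS a' b' c' d' ∧ Can (umap a' b' c' d' e f '' B)

/-- [W3s] Proof: six cases, the map permutes the three vertices. -/
def SI_W3s : Prop := ∀ (A : Set (ℝ × ℝ)) (a b c d : ℤ), WS a b c d → (a * d - b * c = 1 ∨ a * d - b * c = -1) ∧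
  (W3 A → W3 (umap a b c d 0 0 '' A))

/-- [CW] `B` contains `W`: Proof. `[Wfull]` gives an integer point `(X, Y) ≡ (y, z)` in `(p-1) W = (m + n) W`; by `[wpt]` for the intersection `A ∩ B` (convex, contains `W`) `(X, Y) = (m+n) w`, `w ∈ A ∩ B`, so `Pt A B m n X Y`. -/
def SI_CW : Prop := ∀ (A B : Set (ℝ × ℝ)) (p m n : ℕ) (y z : ℤ), Convex ℝ A → Convex ℝ B → W3 A → Wt B 0 0 1 0 0 1 → m + n + 1 = p → 2 ≤ p → ¬ 3 ∣ p →
  Avd A B p m n y z → False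

/-- [CZ0] `B` contains the unit square. Write `(α₁,α₂)` for a point of `m A` (it suffices `[wpt]`: `α₁+α₂, -2α₁+α₂, α₁-2α₂ ≤ m`) and `(β₁,β₂) ∈ [0,n]²` for a point of `n B` (`[spt]`). From `Mid`: `m ≤ 2n + 1`, `m ≥ n + 2`. Let `X ≡ y` be the integer with `-m ≤ X ≤ n` (`p = m + n + 1` consecutive
integers). (1) `0 ≤ X`: upper point `(0,m) + (X,n)`, lower point `(0,-m/2) + (X,0)`; the difference of heights is `3m/2 + n ≥ p`: `[colm]`. (2) `X = -u`, `1 ≤ u ≤ m`. Column `X`: upper point `(-u, m-2u) + (0,n)` at height `H = m+n-2u`; lower point: if `u ≥ m-n`, `(-m,-m) + (m-u,0)`, height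
`-m`; if `u ≤ m - n`, `(-u-n, (-u-n-m)/2) + (n,0)`, height `-(u+n+m)/2`. Column `X' = p - u`: upper point `(m+1-u, u-1) + (n,n)`, height `H' = u-1+n`; lower point `(m+1-u, (1-u)/2) + (n,0)`, height `lo' = (1-u)/2`. If `u ≤ m - n` and `3u ≤ m + n`: `[colm]` (second alternative) for column `X`: `H - lo = 3(m+n)/2 - 3u/2 ≥ p - 1`.
Otherwise `[colm2]` (first column `X`, second `X'`): `lo' ≤ H + 1` because `3u ≤ 2p - 1`; `H' - lo ≥ p - 1`: for `u ≥ m-n` it is `u - 1 + n + m`, for `u ≤ m-n`, `3u ≥ m+n+1` it is `u - 1 + n + (u+n+m)/2`. -/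
def SI_CZ0 : Prop := ∀ (A B : Set (ℝ × ℝ)) (p m n : ℕ) (y z : ℤ), Convex ℝ A → Convex ℝ B → W3 A → Zt B 0 0 1 0 0 1 → Mid p m n →
  Avd A B p m n y z → False

/-- [CZ2] `B` contains `(0,0), (0,1), (1,-1), (1,0)`. Points of `m A` as in `[CZ0]`; points of `n B`: `(t, s - t)` with `0 ≤ s, t ≤ n`. `m ≤ 2n + 1`, `m ≥ n + 2`. Let `X ≡ y` with `-m ≤ X ≤ n`. (1) `0 ≤ X`: upper `(0,m) + (X, n-X)`, lower `(X-n, (X-n-m)/2) + (n,-n)`: difference
`3m/2 + 5n/2 - 3X/2 ≥ 3m/2 + n ≥ p`: `[colm]`. (2) `X = -u`, `1 ≤ u ≤ m`. Column `X`: upper `(-u, m-2u) + (0,n)`, `H = m+n-2u`. Lower: if `u ≥ m-n`: `(-m,-m) + (m-u,-(m-u))`, height `u - 2m`; if `u ≤ m-n`: `(-u-n, (-u-n-m)/2) + (n,-n)`, height `-(u+n+m)/2 - n`.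
(2a) `u ≤ m-n`: `H - lo = 3m/2 + 5n/2 - 3u/2 ≥ p - 1` (as `3u ≤ 3m - 3n ≤ m + 3n`): `[colm]`. (2b) `u ≥ m-n`, `3u ≤ 2m`: `H - lo = 3m + n - 3u ≥ m + n`: `[colm]`. (2c) Otherwise use the column `X' = p - u`: upper `(m+1-u, u-1) + (n,0)`, `H' = u - 1`; lower `(m+1-u, (1-u)/2) + (n,-n)`,
`lo' = (1-u)/2 - n`. If `3u ≥ 2m+3`: `H' - lo' = 3u/2 - 3/2 + n ≥ m + n`: `[colm]`. If `2m+1 ≤ 3u ≤ 2m+2`: `[colm2]`, first column `X` (`lo = u - 2m`), second `X'`: `lo' ≤ H + 1 = p - 2u` because `3u ≤ 2p + 2n - 1`; `H' - lo = 2m - 1 ≥ m + n`. -/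
def SI_CZ2 : Prop := ∀ (A B : Set (ℝ × ℝ)) (p m n : ℕ) (y z : ℤ), Convex ℝ A → Convex ℝ B → W3 A → Zt B 0 0 0 1 1 (-1) → Mid p m n →
  Avd A B p m n y z → False

/-- [CZ3] `B` contains `(0,0), (0,1), (1,-2), (1,-1)`. Points of `n B`: `(t, s - 2t)`, `0 ≤ s, t ≤ n`. `m ≤ 2n+1`, `m ≥ n + 2`, `n ≥ 4`. Let `h = (m+1)/2` (integer division) and `X ≡ y` with `-h ≤ X ≤ n + m - h`. All upper heights are integers and the difference is `≥ m + n = p - 1`: `[colm]`, second alternative.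
`X = -v`, `0 ≤ v ≤ h`: upper `(-v, m-2v) + (0,n)`; lower if `v ≥ m-n`: `(-m,-m) + (m-v, -2(m-v))`, difference `4m + n - 4v` (`4v ≤ 4h ≤ 2m + 2 ≤ 3m`); if `v ≤ m-n`: `(-v-n, (-v-n-m)/2) + (n,-2n)`, difference `3m/2 + 7n/2 - 3v/2`. `0 ≤ X ≤ m`: upper `(X, m-X) + (0,n)`, lower
`(X-n, (X-n-m)/2) + (n,-2n)`, difference `3m/2 + 7n/2 - 3X/2` (`3X ≤ 3m ≤ m + 5n`). `m ≤ X`: upper `(m,0) + (X-m, n - 2(X-m))`, lower the same as before, difference `7n/2 + 5m/2 - 5X/2 ≥ m + n` because `5 (X - n) ≤ 5 (m - h) ≤ 5m/2 ≤ 3m`. -/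
def SI_CZ3 : Prop := ∀ (A B : Set (ℝ × ℝ)) (p m n : ℕ) (y z : ℤ), Convex ℝ A → Convex ℝ B → W3 A → Zt B 0 0 0 1 1 (-2) → Mid p m n →
  Avd A B p m n y z → False

/-- [CmW] `B` contains `-W`, i.e. `(-1,0), (0,-1), (1,1)`. Here `m + n` is assumed even (`p` odd). Let `X ≡ y` with `|X| ≤ (m+n)/2`. Lower point: `(X, (X-m)/2) + (0,-n)` (`[wpt]`; the vertex `(0,-1)` of `B`). Upper point: `|X| ≤ n`: `(0,m) + (X, (n+X)/2)` (the second is `n` times a point of the edge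
from `(-1,0)` to `(1,1)`), difference `3(m+n)/2 ≥ p`. `X ≥ n`: `(X-n, m-(X-n)) + (n,n)`, difference `3m/2 + 3n - 3X/2`. `X ≤ -n`: `(X+n, m+2(X+n)) + (-n,0)`, difference `3m/2 + 3n + 3X/2`. In both cases it is `≥ 3m/2 + 3n - 3(m+n)/4 = 3m/4 + 9n/4 ≥ m + n + 1 = p` because `m ≤ 2n + 1 ≤ 5n - 4`. `[colm]`, first alternative. -/
def SI_CmW : Prop := ∀ (A B : Set (ℝ × ℝ)) (p m n : ℕ) (y z : ℤ), Convex ℝ A → Convex ℝ B → W3 A → Wt B 0 0 (-1) 0 0 (-1) → Mid p m n → Odd p →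
  Avd A B p m n y z → False

/-- [CX] `B` contains `(1,0), (1,1), (-2,-1)`. `m ≤ 2n+1`, `m ≥ n+2`, `n ≥ 4`. Let `r = (m-2)/3` (integer division; `r ≥ 1`, `3r ≤ m - 2`) and `X ≡ y` with `r - m ≤ X ≤ r + n` (`p` consecutive integers; `r - m ≥ -2n`). Points of `n B` on the edges from `(-2n,-n)`: `E⁺(x) = (x, -n + 2(x+2n)/3)` (to `(n,n)`), `E⁻(x) = (x, -n + (x+2n)/3)` (to `(n,0)`), `-2n ≤ x ≤ n`.
(i) `n-m ≤ X ≤ n`: upper `(0,m) + E⁺(X)`, lower `(X-n, (X-n-m)/2) + (n,0)`: difference `3m/2 + 5n/6 + X/6 ≥ 4m/3 + n ≥ p`. (ii) `n ≤ X ≤ n + r`: upper `(X-n, m-(X-n)) + (n,n)`, the same lower point: difference `3m/2 + 5n/2 - 3X/2 ≥ p` because `3(X-n) ≤ m - 2`.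
(iii) `r - m ≤ X ≤ n - m`: upper `(0,m) + E⁺(X)`, lower `(-m,-m) + E⁻(X+m)` (`r ≤ X + m ≤ n`): difference `2m + (X + 2n - m)/3 ≥ 4m/3 + 2n/3 + r/3 ≥ m + n + 1`, because `m + r ≥ n + 3`. `[colm]`, first alternative. -/
def SI_CX : Prop := ∀ (A B : Set (ℝ × ℝ)) (p m n : ℕ) (y z : ℤ), Convex ℝ A → Convex ℝ B → W3 A → Wt B 0 0 1 0 1 1 → Mid p m n →
  Avd A B p m n y z → False

/-- [WL2] Proof. `[bd]`, `[pcmin]`, `[shape]`: there is a symmetry `M = (a',b';c',d')` of `W` and `(e,f)` with `Can (umap a' b' c' d' e f '' B)`. By `[avdmap]` (translation `0` for `A`), `[W3s]` and `[umim]` (convexity) the pair `(umap M 0 0 '' A, umap M e f '' B)` satisfies `Avd` with a new target; apply `[CZ0]`, `[CZ2]`, `[CZ3]`, `[CW]`, `[CmW]`, `[CX]`. -/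
def SI_WL2 : Prop := ∀ (A B : Set (ℝ × ℝ)) (p m n : ℕ) (y z : ℤ), Convex ℝ A → Convex ℝ B → W3 A → PC2 B → Mid p m n → Odd p → ¬ 3 ∣ p →
  Avd A B p m n y z → False

/-- [WLm] Proof. `p` is odd and not divisible by `3`. If `2p ≤ 3m` use `[WL1]`. Otherwise `3m < 2p`; `m + n = p - 1` is even and `n < m`, so `n + 2 ≤ m`; `3n = 3p - 3 - 3m > p - 3 ≥ 10`, so `n ≥ 4`: `Mid`, `[WL2]`. -/
def SI_WLm : Prop := ∀ (A B : Set (ℝ × ℝ)) (p m n : ℕ) (y z : ℤ), Convex ℝ A → Convex ℝ B → W3 A → PC2 B → p.Prime → 13 ≤ p → 1 ≤ n → n < m → m + n + 1 = p →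
  Avd A B p m n y z → False

/-! ## E. Two triangles, equal multiplicities -/

/-- [WW4] Parity. Proof. Replacing `B` by its translate (and `v` accordingly) let `x₀ = y₀ = 0`. `A` contains `e₀ = (0,0)` (centroid), `e₁ = (1,0)`, `e₂ = (0,1)`, `e₃ = (-1,-1)`, and `B` contains `u₀ = 0` (centroid), `u₁ = (a,b)`, `u₂ = (c,d)`, `u₃ = (-a-c,-b-d)`. Claim: for some class `v` modulo 2 the sixteen
sums `e_i + u_j` contain points of all four classes modulo 4 that are `v` modulo 2. This depends only on `(a,b,c,d)` modulo 4: a finite check over the solutions of `a d - b c = 1` modulo 4 (`decide`, 48 matrices; I proved it also by hand). Given the check: choose `v₁, v₂ ∈ {0,1}`; for `(r, s)` take the sum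
`e_i + u_j ≡ v + 2 (r, s)` modulo 4 and `(X, Y) = (e_i + u_j - v)/2`. -/
def SI_WW4 : Prop := ∀ (A B : Set (ℝ × ℝ)) (x₀ y₀ a b c d : ℤ), Convex ℝ A → Convex ℝ B → W3 A → Wt B x₀ y₀ a b c d → a * d - b * c = 1 →
  ∃ v₁ v₂ : ℤ, ∀ r s : ℤ, ∃ X Y : ℤ, (2 : ℤ) ∣ X - r ∧ (2 : ℤ) ∣ Y - s ∧
    ∃ α ∈ A, ∃ β ∈ B, ((v₁ + 2 * X : ℤ) : ℝ) = α.1 + β.1 ∧ ((v₂ + 2 * Y : ℤ) : ℝ) = α.2 + β.2

/-- [plane2] The plane fact with only two dilates. Proof: as `[plane]` (`S_plane`, see its proof in `LC/P/plane.lean`): by `[SW]` and the transformation of the hypothesis under `IsUM` maps (as in `[crit2map]`, which works for each single `h`) we may assume `W3 F` or `S4 F`. `S4`: `h = p - 1`. `W3`: `[Wr]` with `ε = 0` (`9 ≤ p`), which gives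
`h = p - 1` or `h = p - 3`. -/
def SI_plane2 : Prop := ∀ (F : Set (ℝ × ℝ)) (p : ℕ) (b c : ℤ), Convex ℝ F → PC2 F → p.Prime → 11 ≤ p →
  (∀ h : ℕ, (h = p - 1 ∨ h = p - 3) → ∀ y z : ℤ, ∀ v w : ℝ, (v, w) ∈ F → (y : ℝ) = h * v → (z : ℝ) = h * w →
    (p : ℤ) ∣ y - h * b → (p : ℤ) ∣ z - h * c → False) → False

/-- [WW] Proof. Let `v` be as in `[WW4]` and `F = {q | ∃ α ∈ A, ∃ β ∈ B, v + 2q = α + β}` (convex; `PC2` by `[WW4]`). Apply `[plane2]` with `(b, c) = (-y - (n+1) v₁, -z - (n+1) v₂)`: let `h = 2i`, `i = n` (`h = p - 1`) or `i = n - 1` (`h = p - 3`), and let the integer point `(r, s) = h q`, `q ∈ F`, be congruent to `h (b, c)`. Then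
`(r, s) + i v = i (v + 2q) = i α + i β` is an integer point of `i A + i B`, congruent modulo `p` to `2i (-y - (n+1) v₁) + i v₁ ≡ -2i y` in the first coordinate (as `2(n+1) = p + 1`), the same in the second. For `i = n`: `-2n y = y - p y ≡ y`; for `i = n - 1`: `-(2n - 2) y = 3y - p y ≡ 3y`. This contradicts `Avd`. -/
def SI_WW : Prop := ∀ (A B : Set (ℝ × ℝ)) (p n : ℕ) (y z x₀ y₀ a b c d : ℤ), Convex ℝ A → Convex ℝ B → W3 A → Wt B x₀ y₀ a b c d → a * d - b * c = 1 →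
  p.Prime → 13 ≤ p → 2 * n + 1 = p → Avd A B p n n y z → Avd A B p (n - 1) (n - 1) (3 * y) (3 * z) → False

end Pool.Agent.Lib.MP_0bc52e_nt.LC
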