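import Pool.Agent.Lib.MP_0bc52e_nt.T.StmI1

/-!
# Polytopes of width one, part 2: square obstacles (MP_0bc52e_nt, `T/StmI2`)

`A` contains the unit square and has the larger multiplicity `m`, `B` has multiplicity `n ≤ m`, `m + n + 1 = p`. For `t` real put `f(t) = n t - c` (first coordinate) and `h(t) = n t - d` (second
coordinate). A point of `B` is free only if `f ∈ (k p, k p + n + 1)` for some integer `k` (vertical corridor) or `h ∈ (l p, l p + n + 1)` (horizontal corridor); this is `Qc p n c d B`. Each corridor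
contains exactly one column (row) of integer points, because `f` of consecutive integers differ by `n` and `f ∈ [k p + 1, k p + n]` at integer points.
-/

namespace Pool.Agent.Lib.MP_0bc52e_nt.LC

/-! ## F. Corridors -/

/-- [Q] Proof. Let `v ∈ B` be in no corridor. Put `t = n v₁ - y`. There is an integer `Y ≡ y` with `n v₁ ≤ Y ≤ n v₁ + m`: let `k = ⌊t/p⌋`; `k p < t < k p + n + 1` is false, so `t = k p` (take `Y = y + k p = n v₁`) or `t ≥ k p + n + 1` (take `Y = y + (k+1) p`,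
`0 < Y - n v₁ = (k+1) p - t ≤ p - n - 1 = m`). In the same way `Z ≡ z`, `n v₂ ≤ Z ≤ n v₂ + m`. By `[spt]` `(Y - n v₁, Z - n v₂) = m a`, `a ∈ A`: contradiction to `Avd`. -/
def SI_Q : Prop := ∀ (A B : Set (ℝ × ℝ)) (p m n : ℕ) (y z : ℤ), Convex ℝ A → S4 A → m + n + 1 = p → 1 ≤ m → Avd A B p m n y z → Qc p n y z B

/-- [VC] A segment inside the corridors stays in one corridor. Proof. `f(s) = n ((1-s) x₀ + s x₁) - c` is linear in `s`. Suppose `f(1) ≥ k p + n + 1`. Then `f(s) = k p + n + 1` for some `s ∈ [0,1]`; `Vf` there gives `k'` with `k' p < k p + n + 1 < k' p + n + 1`, so `k' > k`,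
`(k+1) p ≤ k' p < k p + n + 1`, contradiction to `n + 1 ≤ p`. Suppose `f(1) ≤ k p`. Then `f(s) = k p` for some `s`, `k' p < k p < k' p + n + 1`, so `k' ≤ k - 1` and `p < n + 1`, contradiction. -/
def SI_VC : Prop := ∀ (p n : ℕ) (c k : ℤ) (x₀ x₁ : ℝ), n + 1 ≤ p → (∀ s : ℝ, 0 ≤ s → s ≤ 1 → Vf p n c ((1 - s) * x₀ + s * x₁)) →
  (k : ℝ) * p < n * x₀ - c → n * x₀ - c < k * p + n + 1 → (k : ℝ) * p < n * x₁ - c ∧ n * x₁ - c < k * p + n + 1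

/-- [SGd] Equal multiplicities: no steep segment (`p = 2n + 1`). Proof. From `n G < (n+1) F` and `F ≤ G - 1`: `G ≥ n + 2`, and `κ := (G - F)/G < 1/(n+1)`. Along the segment let `f = n (x₀ + s G) - c`, `h = n (y₀ + s F) - d`, `φ = f - h`. `f` increases from `f₀` to `f₀ + n G`; as a function of `f`, `φ` is linear with
slope `κ > 0`. Every integer multiple `f = k p` and every `f = k p + n + 1` in the range is outside the vertical corridors, so there `h ∈ (l p, l p + n + 1)`. Call `k` good if `k p` and `k p + n + 1` are both in `[f₀, f₀ + n G]`. For good `k` there are `l, l'`, `c₁ = k - l`, `c₂ = k - l'`, with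
`φ(k p) ∈ (c₁ p - n - 1, c₁ p)`, `φ(k p + n + 1) ∈ (c₂ p, c₂ p + n + 1)`, and `0 < φ(k p + n + 1) - φ(k p) = (n+1) κ < 1`. So `c₂ ≤ c₁` and `c₁ - c₂ ≤ 1`. If `c₂ = c₁`: then `c₁ p - 1 < φ(k p) < c₁ p < φ(k p + n + 1) < c₁ p + 1`. Since `n G ≥ n (n+2) ≥ 3n + 2`, at least one of
`(k+1) p = k p + 2n + 1` and `k p - n = (k-1) p + n + 1` is in the range. At `f = (k+1) p`: `c₁ p < φ < c₁ p + 2` and `φ ∈ (c₃ p - n - 1, c₃ p)`, so `c₃ ≥ c₁ + 1`, `φ > c₁ p + n`: contradiction (`n ≥ 2`). At `f = k p - n`: `c₁ p - 2 < φ < c₁ p` and `φ ∈ (c₃ p, c₃ p + n + 1)`, so `c₃ ≤ c₁ - 1`,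
`φ < c₁ p - n`: contradiction. So `c₂ = c₁ - 1` and `φ(k p) ∈ (c₁ p - n - 1, c₁ p - n)`, an interval of length `1`. For consecutive good `k, k + 1` the values `φ(k p)`, `φ((k+1) p)` differ by `(2n+1) κ < 2`, and the intervals for different `c₁` have distance `≥ 2n`; so `c₁` is the same for all good `k` (the good `k` form an interval of integers; induction), and
`φ(k' p) - φ(k p) < 1` for all good `k ≤ k'`. Let `k_a = ⌈f₀/p⌉` (`k_a p < f₀ + p`) and `k_b = ⌊(f₀ + n G - n - 1)/p⌋` (`k_b p > f₀ + n G - n - 1 - p`): `(k_b - k_a) p > n G - 5n - 3 > 0`, so both are good and `1 > (k_b - k_a) p κ > (n G - 5n - 3)/G` (as `G - F ≥ 1`), i.e. `(n - 1) G < 5n + 3`; with `G ≥ n + 2`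
this gives `(n-1)(n+2) < 5n + 3`, `(n - 5)(n + 1) < 0`: contradiction to `n ≥ 6`. -/
def SI_SGd : Prop := ∀ (n : ℕ) (c d G F : ℤ) (x₀ y₀ : ℝ), 6 ≤ n → F < G → (n : ℤ) * G < (n + 1) * F →
  (∀ s : ℝ, 0 ≤ s → s ≤ 1 → Vf (2 * n + 1) n c (x₀ + s * G) ∨ Vf (2 * n + 1) n d (y₀ + s * F)) → False

/-- [SG] A free segment between integer points. Proof. `f = n x - c`, `h = n y - d` along the segment, `f₀, h₀` at the start, `f₁ = f₀ + n G`, `h₁ = h₀ + n F` at the end; all four are integers; `G ≥ F + 1 ≥ 3`. (`V`: in a vertical corridor, `H_l`: `l p < h < l p + n + 1`.)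
(a) Not all points are `V`: otherwise `[VC]` gives `n G < n + 1`. So some point is in `H_l`, for some `l`.
(b) If some point is in `H_{l'}`, then `l' = l`: suppose `l < l'` (the other case is the same). `h` is increasing; the points with `h ∈ [l p + n + 1, (l+1) p]` are in no `H`, so they are `V`, and `[VC]` for this part: its `f`-extent `(p - n - 1) G/F = m G/F` is `< n + 1`. If `m ≥ n + 1`, this is false as `G > F`. If `m = n`: `n G < (n+1) F`,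
contradiction to `[SGd]`. Consequence: every point with `h ≤ l p` or `h ≥ l p + n + 1` is `V`.
(c) `h₀ ≤ l p`. Suppose `h₀ > l p`; as some point is in `H_l`, `h₀ < l p + n + 1`, so `h₀ = l p + ρ`, `1 ≤ ρ ≤ n`. The part with `h ≥ l p + n + 1` is `V`, its `f`-extent is `(ρ + n F - n - 1) G/F < n + 1` by `[VC]`. If `n ≥ 2`: `≥ n (F-1) G/F ≥ n (F-1)(F+1)/F ≥ 3n/2 ≥ n + 1`, contradiction. If `n = 1`: `ρ = 1`, `(F - 1) G/F < 2` forces `F = 2`, `G = 3`;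
then `f` on this part goes from `f₀ + 3/2` to `f₀ + 3` inside `(k p, k p + 2)`, impossible for an integer `f₀`.
(d) `h₁ ≥ l p + n + 1`, by the same argument (reverse the segment).
(e) The start is `V`: `f₀ = k p + σ`, `1 ≤ σ ≤ n`; the end is `V`: `f₁ = k' p + σ'`, `1 ≤ σ' ≤ n`. Let `Y` be the integer with `n Y - d = l p + ρ`, `1 ≤ ρ ≤ n` (exists: `n` consecutive integers), so `y₀ < Y < y₀ + F`. Put `j = Y - y₀`, `j' = y₀ + F - Y`, both `≥ 1`; `h₀ = l p + ρ - n j`, `h₁ = l p + ρ + n j'`.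
(f) The part with `h ≤ l p` is `V`; `[VC]`: `σ + (n j - ρ) G/F < n + 1`. If `j ≥ 2`: `n j - ρ ≥ n`, so `n G/F < n`: false. So `j = 1`. The part with `h ≥ l p + n + 1`: `(ρ + n j' - n - 1) G/F < σ'`; if `j' ≥ 2` the left side is `≥ n G/F > n`: false. So `j' = 1`, `F = 2`, `Y = y₀ + 1`. -/
def SI_SG : Prop := ∀ (p m n : ℕ) (c d x₀ y₀ G F : ℤ), m + n + 1 = p → 1 ≤ n → n ≤ m → (m = n → 6 ≤ n) → 2 ≤ F → F < G →
  (∀ s : ℝ, 0 ≤ s → s ≤ 1 → Vf p n c (x₀ + s * G) ∨ Vf p n d (y₀ + s * F)) →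
  F = 2 ∧ ∃ k l k' : ℤ, (k * p + 1 ≤ n * x₀ - c ∧ n * x₀ - c ≤ k * p + n) ∧ (l * p + 1 ≤ n * (y₀ + 1) - d ∧ n * (y₀ + 1) - d ≤ l * p + n) ∧
    (k' * p + 1 ≤ n * (x₀ + G) - c ∧ n * (x₀ + G) - c ≤ k' * p + n)

/-- [IN1] Proof. Let `σ = n x₀ - c - k p`, `ρ = n (y₀+1) - d - l p`, both in `[1, n]`. For `0 ≤ s ≤ (n - ρ)/n` the value `h = n (y₀ + s) - d` is in `[l p + ρ - n, l p] ⊆ [l p - n + 1, l p]`, so in no horizontal corridor (`l' p < h ≤ l p` gives `l' ≤ l - 1`, `h < (l-1) p + n + 1 = l p - m ≤ l p - n`). So these points are in vertical corridors and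
`[VC]` (for the part from `s = 0` to `s = (n-ρ)/n`) gives `σ + (n - ρ) g < n + 1`. -/
def SI_IN1 : Prop := ∀ (p m n : ℕ) (c d x₀ y₀ k l : ℤ) (g : ℝ), m + n + 1 = p → 1 ≤ n → n ≤ m →
  (∀ s : ℝ, 0 ≤ s → s ≤ 1 → Vf p n c (x₀ + s * g) ∨ Vf p n d (y₀ + s)) →
  k * p + 1 ≤ n * x₀ - c → n * x₀ - c ≤ k * p + n → l * p + 1 ≤ n * (y₀ + 1) - d → n * (y₀ + 1) - d ≤ l * p + n →
  g * (n - (n * (y₀ + 1) - d - l * p : ℤ)) < n + 1 - (n * x₀ - c - k * p : ℤ)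

/-- [IN2] Proof. Let `σ' = n x₁ - c - k p`, `ρ = n (y₁ - 1) - d - l p`, both in `[1, n]`. For `0 ≤ s ≤ (ρ - 1)/n` the value `h = n (y₁ - s) - d = l p + ρ + n - n s` is in `[l p + n + 1, l p + 2n]`, so in no horizontal corridor (`h < l' p + n + 1` gives `l' ≥ l + 1`, `h > (l+1) p = l p + m + n + 1 > l p + 2n`). So these points are in vertical
corridors and `[VC]` gives `σ' - (ρ - 1) g > 0`. -/
def SI_IN2 : Prop := ∀ (p m n : ℕ) (c d x₁ y₁ k l : ℤ) (g : ℝ), m + n + 1 = p → 1 ≤ n → n ≤ m →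
  (∀ s : ℝ, 0 ≤ s → s ≤ 1 → Vf p n c (x₁ - s * g) ∨ Vf p n d (y₁ - s)) →
  k * p + 1 ≤ n * x₁ - c → n * x₁ - c ≤ k * p + n → l * p + 1 ≤ n * (y₁ - 1) - d → n * (y₁ - 1) - d ≤ l * p + n →
  g * ((n * (y₁ - 1) - d - l * p : ℤ) - 1) < (n * x₁ - c - k * p : ℤ)

/-- [ZA] Arithmetic. Proof. Suppose `n ≥ 2`. Adding, `(q+1)(n-1) ≤ n - 1 + σ' - σ ≤ 2(n-1)`, so `q = 1`, `σ' - σ = n - 1`, `σ' = n`, `σ = 1`; `3n = κ p + n - 1`, `κ p = 2n + 1 ≤ p`, so `κ = 1`, `m = n`; and `2(n - ρ) ≤ n - 1`, `2 (ρ - 1) ≤ n - 1` give `2ρ = n + 1`. -/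
def SI_ZA : Prop := ∀ m n p q σ ρ σ' κ : ℤ, m + n + 1 = p → 1 ≤ n → n ≤ m → 1 ≤ q → 1 ≤ σ → σ ≤ n → 1 ≤ ρ → ρ ≤ n → 1 ≤ σ' → σ' ≤ n →
  (q + 1) * (n - ρ) < n + 1 - σ → (q + 1) * (ρ - 1) < σ' → n * (2 * q + 1) = κ * p + σ' - σ →
  n = 1 ∨ (m = n ∧ q = 1 ∧ σ = 1 ∧ σ' = n ∧ 2 * ρ = n + 1)

/-- [ZAW] Arithmetic. Proof. Suppose `n ≥ 2`. If `q ≥ 2`: `4 (n - ρ) ≤ n - 1`, `5 (ρ - 1) ≤ 2n - 1`, so `20 (n-1) ≤ 5 (n-1) + 4 (2n - 1)`, `7n ≤ 11`: contradiction. So `q = 1`: `κ p = 3n - σ' + σ ∈ [2n+1, 4n-1]`, `p ≥ 2n + 1`, so `κ = 1`, `m = 2n - 1 - σ' + σ`. If `m = n`: `σ' = n`, `σ = 1`, and `3 (n - ρ) ≤ n - 1`,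
`3 (ρ - 1) ≤ 2n - 1` give the claim. If `m ≥ n + 2`: `σ' ≤ n - 3 + σ`; adding `3 (n-ρ) ≤ n - σ` and `3 (ρ-1) ≤ 2σ' - 1` gives `2n - 2 ≤ 2σ' - σ`; as `σ' ≤ n`, `σ ≤ 2`, so `σ' ≤ n - 1` and `2n - 2 ≤ 2n - 2 - σ`: contradiction. -/
def SI_ZAW : Prop := ∀ m n p q σ ρ σ' κ : ℤ, m + n + 1 = p → 1 ≤ n → (m = n ∨ n + 2 ≤ m) → 1 ≤ q → 1 ≤ σ → σ ≤ n → 1 ≤ ρ → ρ ≤ n → 1 ≤ σ' → σ' ≤ n →
  (q + 2) * (n - ρ) < n + 1 - σ → (2 * q + 1) * (ρ - 1) < 2 * σ' → n * (2 * q + 1) = κ * p + σ' - σ →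
  n = 1 ∨ (m = n ∧ q = 1 ∧ σ = 1 ∧ σ' = n ∧ (3 * ρ = 2 * n + 1 ∨ 3 * ρ = 2 * n + 2))

/-! ## G. Normal forms -/

/-- [NFZ] Proof. Let `u = (a,b)`, `w = (c,d)`, `u × w = 1`. It is not possible that `a b > 0 > c d` or `a b < 0 < c d` (then `|a d| + |b c| ≥ 2` and `a d`, `-b c` have the same sign). So after the reflection `(x,y) ↦ (-x,y)` if necessary, `a b ≥ 0` and `c d ≥ 0`. `Zt B x₀ y₀ a b c d` implies `Zt B (x₀+a) (y₀+b) (-a) (-b) c d`,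
`Zt B (x₀+c) (y₀+d) a b (-c) (-d)` and `Zt B x₀ y₀ c d a b`. So we may assume `a,b,c,d ≥ 0`, determinant `±1`, and (exchange `u`, `w`) determinant `1`. If `a + c < b + d`, swap the coordinates (`(x,y) ↦ (y,x)`, then exchange `u`, `w`). If `a + c = b + d`, then `(a - b)(b + c + (a-b)) = ad - bc = 1` (as `d = a - b + c`), so `a - b = 1`, `b + c = 0`:
`u = (1,0)`, `w = (0,1)`: `Thin`. Otherwise `a + c > b + d`; `b + d ≥ 1`. If `b + d = 1`: `b = 0, d = 1, a = 1` (the other case `b = 1, d = 0` gives `-c = 1`), `Thin`: rows `y₀` (points `x₀, x₀+1`) and `y₀+1` (points `x₀ + c, x₀ + c + 1`). Otherwise `b + d ≥ 2`. -/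
def SI_NFZ : Prop := ∀ (B : Set (ℝ × ℝ)) (x₀ y₀ a b c d : ℤ), a * d - b * c = 1 → Zt B x₀ y₀ a b c d →
  ∃ a' b' c' d' : ℤ, SqM a' b' c' d' ∧ (Thin (umap a' b' c' d' 0 0 '' B) ∨
    ∃ x₁ y₁ a₁ b₁ c₁ d₁ : ℤ, Nf a₁ b₁ c₁ d₁ ∧ 2 ≤ b₁ + d₁ ∧ Zt (umap a' b' c' d' 0 0 '' B) x₁ y₁ a₁ b₁ c₁ d₁)

/-- [NFW] Proof. Let `v₁ = (a,b)`, `v₂ = (c,d)`, `v₃ = -v₁ - v₂`; any two have determinant `±1`. As in `[NFZ]` no two of them have products of coordinates of strictly opposite signs, so after a reflection in `x` all three products `xy` are `≥ 0`: each `v_i` or `-v_i` has both coordinates `≥ 0`. Two of the three `v_i` are on the same side; after the point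
reflection `(x,y) ↦ (-x,-y)` if necessary two of them have coordinates `≥ 0`; `Wt` is symmetric under permutations of the three vectors, so `(a,b), (c,d) ≥ 0`, with determinant `1` after an exchange. If `a + c < b + d` swap the coordinates; if `a + c = b + d`, then `(a,b,c,d) = (1,0,0,1)` as in `[NFZ]`. -/
def SI_NFW : Prop := ∀ (B : Set (ℝ × ℝ)) (x₀ y₀ a b c d : ℤ), a * d - b * c = 1 → Wt B x₀ y₀ a b c d →
  ∃ a' b' c' d' : ℤ, SqM a' b' c' d' ∧ ∃ x₁ y₁ : ℤ, (Wt (umap a' b' c' d' 0 0 '' B) x₁ y₁ 1 0 0 1 ∨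
    ∃ a₁ b₁ c₁ d₁ : ℤ, Nf a₁ b₁ c₁ d₁ ∧ Wt (umap a' b' c' d' 0 0 '' B) x₁ y₁ a₁ b₁ c₁ d₁)

/-- [S4sq] Proof: a signed permutation maps the unit square to a unit square; translate back: `e = 1` if the first row has a `-1`, else `0`; the same for `f`. Eight cases. -/
def SI_S4sq : Prop := ∀ (A : Set (ℝ × ℝ)) (a b c d : ℤ), SqM a b c d → (a * d - b * c = 1 ∨ a * d - b * c = -1) ∧
  (S4 A → ∃ e f : ℤ, S4 (umap a b c d e f '' A))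

/-! ## H. The cases -/

/-- [ZN] Proof. Let `Z ≡ z` be the integer with `n y₀ ≤ Z ≤ n y₀ + m + n` (`p` consecutive integers), `Z = n y₀ + j`, `j₂ = min j n`, `j₁ = j - j₂ ≤ m`. Let `L = (n - j₂) x₀ + j₂ x₁` and `X ≡ y` the integer with `L ≤ X ≤ L + m + n`; `i₁ = min (X - L) m`, `i₂ = X - L - i₁ ≤ n`. The point `(i₁, j₁)` is in `m A` (`[spt]`), and `(L + i₂, n y₀ + j₂)` is in `n B`:
`1/n` times it is `(1 - t)(x₀ + s, y₀) + t (x₁ + s, y₀ + 1)` with `t = j₂/n`, `s = i₂/n` (`n ≥ 1`). -/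
def SI_ZN : Prop := ∀ (A B : Set (ℝ × ℝ)) (p m n : ℕ) (y z : ℤ), Convex ℝ A → Convex ℝ B → S4 A → Thin B → m + n + 1 = p → 1 ≤ n → 1 ≤ m → Avd A B p m n y z → False

/-- [ZW] Proof. Two adjacent integers `t, t + 1` are not both in corridors: `k p < n t - c < k p + n + 1`, `k' p < n (t+1) - c < k' p + n + 1` are integers `k p + σ`, `k' p + σ'` with `1 ≤ σ, σ' ≤ n`, and `(k' - k) p = n + σ - σ' ∈ [1, 2n - 1]`, impossible as `p ≥ 2n + 1`. `B` contains `(x₀+1, y₀)`, `(x₀, y₀+1)`, `(x₀-1, y₀-1)` and `(x₀, y₀)` (centroid). Let `F₁` be the set of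
`i ∈ {-1,0,1}` with `x₀ + i` free, `F₂` the same for `y₀ + i`; neither contains `{-1,0}` or `{0,1}`. `(x₀-1,y₀-1)`: `-1 ∈ F₁` or `-1 ∈ F₂`. If `-1 ∈ F₁`: `0 ∉ F₁`, so `(x₀,y₀)` gives `0 ∈ F₂`, `1 ∉ F₂`, and `(x₀, y₀+1)` fails. If `-1 ∈ F₂`: `0 ∉ F₂`, `0 ∈ F₁`, `1 ∉ F₁`, and `(x₀+1, y₀)` fails. -/
def SI_ZW : Prop := ∀ (B : Set (ℝ × ℝ)) (p m n : ℕ) (c d x₀ y₀ : ℤ), Convex ℝ B → Qc p n c d B → m + n + 1 = p → 1 ≤ n → n ≤ m → Wt B x₀ y₀ 1 0 0 1 → False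

/-- [ZFZ] Proof. `[SG]` for the diagonal from `(x₁, y₁)` with `G = a₁ + c₁ > F = b₁ + d₁ ≥ 2`: `F = 2`. With `Nf`: `(b₁, d₁) = (1, 1)` (`b₁ = 0, d₁ = 2` gives `2 a₁ = 1`; `b₁ = 2, d₁ = 0` gives `-2 c₁ = 1`), and `a₁ - c₁ = 1`; put `q = c₁`, `a₁ = q + 1`; `G = 2q + 1 > 2`, so `q ≥ 1`. `[IN1]` for the segment from `(x₁,y₁)` to `(x₁+q+1, y₁+1)` (`g = q+1`), `[IN2]` for the segment
from `(x₁ + 2q + 1, y₁ + 2)` down to `(x₁ + q, y₁ + 1)` (`g = q + 1`; note `ρ = n (y₁ + 2 - 1) - d - l p`), `[ZA]` with `κ = k' - k`. -/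
def SI_ZFZ : Prop := ∀ (B : Set (ℝ × ℝ)) (p m n : ℕ) (c d x₁ y₁ a₁ b₁ c₁ d₁ : ℤ), Convex ℝ B → Qc p n c d B → m + n + 1 = p → 1 ≤ n → n ≤ m → (m = n → 6 ≤ n) →
  Nf a₁ b₁ c₁ d₁ → 2 ≤ b₁ + d₁ → Zt B x₁ y₁ a₁ b₁ c₁ d₁ →
  ∃ q k l k' : ℤ, 1 ≤ q ∧ Zt B x₁ y₁ (q + 1) 1 q 1 ∧ (k * p + 1 ≤ n * x₁ - c ∧ n * x₁ - c ≤ k * p + n) ∧
    (l * p + 1 ≤ n * (y₁ + 1) - d ∧ n * (y₁ + 1) - d ≤ l * p + n) ∧ (k' * p + 1 ≤ n * (x₁ + (2 * q + 1)) - c ∧ n * (x₁ + (2 * q + 1)) - c ≤ k' * p + n) ∧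
    (n = 1 ∨ (m = n ∧ q = 1 ∧ n * x₁ - c - k * p = 1 ∧ n * (x₁ + (2 * q + 1)) - c - k' * p = n ∧ 2 * (n * (y₁ + 1) - d - l * p) = n + 1))

/-- [ZFW] Proof. The vertices are `z = (x₁ - a₁ - c₁, y₁ - b₁ - d₁)`, `u = (x₁ + a₁, y₁ + b₁)`, `w = (x₁ + c₁, y₁ + d₁)`. By `Nf`: `d₁ ≤ c₁` and `b₁ < a₁`: (if `d₁ ≥ c₁ + 1`, then `a₁ > b₁ + d₁ - c₁ ≥ b₁ + 1` and `a₁ d₁ - b₁ c₁ ≥ (b₁+2)(c₁+1) - b₁ c₁ > 1`; if `b₁ ≥ a₁`, then `c₁ > d₁` and `b₁ c₁ ≥ a₁ d₁`). Let `(g₁, g₂)` be `(a₁,b₁)` or `(c₁,d₁)`, the one with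
the larger second coordinate; `g₂ ≥ 1`, `g₂ ≤ g₁`. `[SG]` for the segment from `z` to `(x₁ + g₁, y₁ + g₂)`: `G = g₁ + a₁ + c₁ > F = g₂ + b₁ + d₁ ≥ 2`; so `F = 2`: `b₁ + d₁ = 1`, `g₂ = 1`; `Nf` gives `b₁ = 0`, `d₁ = 1`, `a₁ = 1`, `q := c₁ ≥ 1`, `g = (q, 1)`, `G = 2q + 1`. With `x₀ = x₁ - 1 - q`, `y₀ = y₁ - 1` in `[SG]`, `σ = n (x₁ - 1 - q) - c - k p`, `ρ = n y₁ - d - l p`,
`σ' = n (x₁ + q) - c - k' p`. `[IN1]` for the segment from `z = (x₁-1-q, y₁-1)` to `(x₁+1, y₁)` (`g = q + 2`), `[IN2]` for the segment from `(x₁+q, y₁+1)` down to `(x₁ - 1/2, y₁)` (`g = q + 1/2`; `(x₁ - 1/2, y₁)` is the midpoint of `z` and `(x₁+q, y₁+1)`), i.e. `(q + 1/2)(ρ-1) < σ'`, `[ZAW]` with `κ = k' - k`. -/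
def SI_ZFW : Prop := ∀ (B : Set (ℝ × ℝ)) (p m n : ℕ) (c d x₁ y₁ a₁ b₁ c₁ d₁ : ℤ), Convex ℝ B → Qc p n c d B → m + n + 1 = p → 1 ≤ n → (m = n ∨ n + 2 ≤ m) → (m = n → 6 ≤ n) →
  Nf a₁ b₁ c₁ d₁ → Wt B x₁ y₁ a₁ b₁ c₁ d₁ →
  ∃ q k l k' : ℤ, 1 ≤ q ∧ Wt B x₁ y₁ 1 0 q 1 ∧ (k * p + 1 ≤ n * (x₁ - 1 - q) - c ∧ n * (x₁ - 1 - q) - c ≤ k * p + n) ∧
    (l * p + 1 ≤ n * y₁ - d ∧ n * y₁ - d ≤ l * p + n) ∧ (k' * p + 1 ≤ n * (x₁ + q) - c ∧ n * (x₁ + q) - c ≤ k' * p + n) ∧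
    (n = 1 ∨ (m = n ∧ q = 1 ∧ n * (x₁ - 1 - q) - c - k * p = 1 ∧ n * (x₁ + q) - c - k' * p = n ∧
      (3 * (n * y₁ - d - l * p) = 2 * n + 1 ∨ 3 * (n * y₁ - d - l * p) = 2 * n + 2)))

/-- [EXZ] The exceptional parallelogram, `m = n`. Proof. `b = (x₁+1, y₁+1) ∈ B`. With `ρ = n (y₁+1) - z - l p`, `2ρ = n + 1`, so `n` is odd. Let `T = ((n-1)(x₁+1) + (n-1), (n-1)(y₁+1) + (n-1)/2)`; `T = (n-1) a + (n-1) b` with `a = (1, 1/2) ∈ A`. `T₁ - 3y = (n-1)(x₁+2) - 3 (n x₁ - 1 - k p) = -(2n+1) x₁ + (2n + 1) + 3 k p`, divisible by `p = 2n+1`;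
`T₂ - 3z = (n-1)(y₁+1) + (n-1)/2 - 3n (y₁+1) + 3ρ + 3 l p = -(2n+1)(y₁+1) + (n - 1 + 3n + 3)/2 + 3 l p = -(2n+1)(y₁+1) + (2n+1) + 3 l p`. Contradiction to `Avd` for `n - 1`. -/
def SI_EXZ : Prop := ∀ (A B : Set (ℝ × ℝ)) (p n : ℕ) (y z x₁ y₁ k l : ℤ), Convex ℝ A → S4 A → Zt B x₁ y₁ 2 1 1 1 → 2 * n + 1 = p → 6 ≤ n →
  n * x₁ - y - k * p = 1 → 2 * (n * (y₁ + 1) - z - l * p) = n + 1 → Avd A B p (n - 1) (n - 1) (3 * y) (3 * z) → False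

/-- [EXW] The exceptional triangle, `m = n`. Proof. `y = n (x₁ - 2) - k p - 1 = n x₁ - (k+1) p`, so `3y ≡ 3 n x₁`, and `(n-1) x₁ - 3 n x₁ = -p x₁ ≡ 0`. `ρ = n y₁ - z - l p`. If `3ρ = 2n + 1 = p`: `3z = 3 n y₁ - p - 3 l p`, and the point `T = (n-1)(x₁, y₁) = (n-1) (0,0) + (n-1) (x₁, y₁)` contradicts `Avd` (`(0,0) ∈ A`, `(x₁,y₁) ∈ B` is the centroid). If `3ρ = 2n + 2 = p + 1`:
`3z = 3 n y₁ - p - 1 - 3 l p` and `T = ((n-1) x₁, (n-1) y₁ - 1) = (n-1)(0,0) + (n-1)(x₁, y₁ - ε)`, `ε = 1/(n-1)`; `(x₁, y₁ - ε) ∈ B`: it is `(1/3 + ε)(x₁+1, y₁) + (1/3 - ε)(x₁+1, y₁+1) + (1/3)(x₁-2, y₁-1)`. -/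
def SI_EXW : Prop := ∀ (A B : Set (ℝ × ℝ)) (p n : ℕ) (y z x₁ y₁ k l : ℤ), Convex ℝ A → Convex ℝ B → S4 A → Wt B x₁ y₁ 1 0 1 1 → 2 * n + 1 = p → 6 ≤ n →
  n * (x₁ - 2) - y - k * p = 1 → (3 * (n * y₁ - z - l * p) = 2 * n + 1 ∨ 3 * (n * y₁ - z - l * p) = 2 * n + 2) → Avd A B p (n - 1) (n - 1) (3 * y) (3 * z) → False

/-- [ZL] Proof. `[pcmin]` for `B`: `Zt` or `Wt`. `[NFZ]`, `[NFW]`: a signed permutation `M`; let `(e,f)` be as in `[S4sq]` for `A`, `A' = umap M e f '' A`, `B' = umap M 0 0 '' B`; `Avd` holds for `A', B'` with the target `(y', z')` of `[avdmap]` (also for the multiplicities `n - 1`, with a target congruent to `(3y', 3z')` modulo `p`: the difference is `±e (2n - 2 - 6 n)`-like: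
`3 (m e + n e') - ((n-1) e + (n-1) e')` with `m = n`, `e' = 0` is `(2n+1) e = p e`; use `[avdres]`). By `[upc]` it is enough to show the conclusion for `A', B'`. `Thin B'`: `[ZN]`. `W`: `[Q]`, `[ZW]`. `p` is odd, so `m = n` or `m ≥ n + 2`; if `m = n`, then `n ≥ 6`. Otherwise `[Q]` and `[ZFZ]` or `[ZFW]` (with `(c, d) = (y', z')`). If `m = n` and the second
alternative holds: `[EXZ]` or `[EXW]`, contradiction. If `n = 1` and `Zt`: `Core` after the translation of `B'` by `(-x₁, -y₁-1)`: `(0,-1), (q,0), (q+1,0), (2q+1,1)` and `2q + 1 = (k'-k) p` (both residues are `1`), target `y' - x₁ = -1 - k p`, `z' - y₁ - 1 = -1 - l p`. If `n = 1` and `Wt`: translate `B'` by `(-(x₁-1-q), -y₁)`: the points become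
`(0,-1)`, `(q + 2, 0)`, `(2q+1, 1)`, centroid `(q+1, 0)`; target `y' - (x₁-1-q) = -1 - k p`, `z' - y₁ = -1 - l p`. -/
def SI_ZL : Prop := ∀ (A B : Set (ℝ × ℝ)) (p m n : ℕ) (y z : ℤ), Convex ℝ A → Convex ℝ B → S4 A → PC2 B → Odd p → 13 ≤ p → 1 ≤ n → n ≤ m → m + n + 1 = p →
  Avd A B p m n y z → (m = n → Avd A B p (n - 1) (n - 1) (3 * y) (3 * z)) → n = 1 ∧ Up (Core p) A B m n y z

/-- [4B] The height of `B`. Proof. By `[Q]` (`n = 1`, `m = p - 2`): every `v ∈ B` has `k' p < v₁ - y < k' p + 2` for some `k'`, i.e. `|v₁ - t p| < 1` for an integer `t` (as `y ≡ -1`), or `|v₂ - t p| < 1` for an integer `t`. Let `(c₀, 0) ∈ B`, `c₀ ∈ {q, q+1}`, `2q + 1 = k p`; `k` is odd (`p` is odd since `2q+1` is). Suppose `v ∈ B`, `v₂ ≥ 2`. With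
`δ = (v₁ - c₀)/v₂` the points `(c₀ + t δ, t)`, `1 ≤ t ≤ 2`, are in `B`, and `|t - t' p| < 1` is impossible for them (`p ≥ 13`), so they are in vertical corridors, by `[VC]` in the same one: `|c₀ + δ - t' p| < 1` and `|c₀ + 2δ - t' p| < 1`; so `|δ| < 2`, `|c₀ - t' p| < 3`, `|2c₀ - 2t' p| < 6`; but `2c₀ = k p ± 1`, and `|(k - 2t') p ± 1| ≥ p - 1 ≥ 12` as `k` is odd.
Contradiction. `v₂ ≤ -2`: the same with `t ∈ [-2,-1]`. -/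
def SI_4B : Prop := ∀ (A B : Set (ℝ × ℝ)) (p : ℕ) (y z : ℤ), Convex ℝ A → Convex ℝ B → 13 ≤ p → Core p A B y z → Avd A B p (p - 2) 1 y z →
  ∀ v ∈ B, -2 < v.2 ∧ v.2 < 2

/-- [4A] The height of `A`. Proof. `A` is the hull of integer points; suppose one of them, `(x, y₂)`, has `y₂ ≥ 2` or `y₂ ≤ -1`. `m = p - 2`. In the first case `[row]` gives `(a', 2) ∈ A`; in the second case apply `[row]` to the image of `A` under `(x,y) ↦ (x, 1-y)`, which contains the unit square and `(x, 1 - y₂)`, `1 - y₂ ≥ 2`: `(a', -1) ∈ A`. If `a' ∉ {0, 1}`, `[row2]` (for the image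
under `(x,y) ↦ (x, 1-y)` in the second case) gives an `IsUM` map `g` with `W3 (g '' A)` (compose); `g = umap ..`; `Avd` for `(g '' A, g '' B)` by `[avdmap]` contradicts `[WL1]` (`2p ≤ 3(p-2)`; `p` prime, so `3 ∤ p`; `PC2 (g '' B)`). If `a' ∈ {0,1}`: let `c₀ ∈ {q, q+1}` with `(c₀, 0) ∈ B`, `2q + 1 = k p`, `k` odd, and `t₁ = (k+1)/2 · p`; `s₁ := t₁ - 1 - c₀ ∈ {(p-3)/2, (p-1)/2}`.
First case: `T = (t₁ - 1, p - 1)`, `T - (c₀, 0) = (s₁, m + 1)` is in `m A`: `(s₁/m, 1 + 1/m) = (1/m) (a', 2) + (1 - 1/m) ((s₁ - a')/(m-1), 1)` and `0 ≤ s₁ - a' ≤ m - 1`. Second case: `T = (t₁ - 1, -1)`, `T - (c₀,0) = (s₁, -1) = (a', -1) + (m - 1)((s₁ - a')/(m-1), 0)`. `T ≡ (-1,-1) ≡ (y, z)`: contradiction to `Avd`. -/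
def SI_4A : Prop := ∀ (A B : Set (ℝ × ℝ)) (p : ℕ) (y z : ℤ), Convex ℝ A → Convex ℝ B → IsLP2 A → PC2 B → p.Prime → 13 ≤ p → Core p A B y z → Avd A B p (p - 2) 1 y z →
  ∀ v ∈ A, 0 ≤ v.2 ∧ v.2 ≤ 1

/-- [Gd] Proof. `[4A]`; `[4B]` and `IsLP2 B`: the integer points spanning `B` have second coordinates in `(-2, 2)`, so in `[-1, 1]`, and this passes to the hull. The points: `(0,0), (0,1) ∈ A` from `S4`, `(0,-1), (k p, 1) ∈ B` from `Core`. -/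
def SI_Gd : Prop := ∀ (A B : Set (ℝ × ℝ)) (p : ℕ) (y z : ℤ), Convex ℝ A → Convex ℝ B → IsLP2 A → IsLP2 B → PC2 B → p.Prime → 13 ≤ p → Core p A B y z → Avd A B p (p - 2) 1 y z →
  Good p A B y z

/-- [PL] The planar theorem. Proof. `[SW]` for `A`: `g` (`IsUM`, `g = umap M e f`) with `W3 (g '' A)` or `S4 (g '' A)`. Replace `(A, B)` by `(g '' A, g '' B)` (`[avdmap]`, `[umim]`; for `m = n` the target for `n - 1` is congruent to `3` times the new target: `3 (2n e) - (2n - 2) e = (4n+2) e = 2 p e`; `[avdres]`; `[upc]` for the conclusion).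
Case `S4`: `[ZL]` gives `n = 1` and `Up (Core p)`; for the map in it, `[avdmap]`, `[umim]` and `[Gd]` give `Good` (here `m = p - 2`), so `Up (Good p)`. Case `W3`, `n < m`: `[WLm]`, contradiction. Case `W3`, `m = n`: `[pcmin]` for `B`. `Wt`: `[WW]`, contradiction. `Zt`: there is an `IsUM` map taking the parallelogram to the unit square (the inverse of
`(s,t) ↦ (x₀ + a s + c t, y₀ + b s + d t)`), i.e. `S4 (g' '' B)`; `[ZL]` for the pair `(g' '' B, g' '' A)` (`Avd` is symmetric, `[avdres]`) gives `n = 1`, but `n = (p-1)/2 ≥ 6`: contradiction. -/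
def SI_PL : Prop := ∀ (A B : Set (ℝ × ℝ)) (p m n : ℕ) (y z : ℤ), Convex ℝ A → Convex ℝ B → IsLP2 A → IsLP2 B → PC2 A → PC2 B → p.Prime → 13 ≤ p → 1 ≤ n → n ≤ m →
  m + n + 1 = p → Avd A B p m n y z → (m = n → Avd A B p (n - 1) (n - 1) (3 * y) (3 * z)) → n = 1 ∧ Up (Good p) A B m n y z

end Pool.Agent.Lib.MP_0bc52e_nt.LC
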